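import Pool.Agent.Helper23.PI.Cond2

/-!
# Amalgamation of two similar conditions
-/

namespace Pool.Agent.Helper23.PI

open Set

set_option linter.unusedSectionVars false

variable {K W : Type} [LinearOrder K] {I : Type}

/-- `s` and `s'` agree up to a common element above `δ` -/
def Ag (δ : K) (s s' : Set K) : Prop := ∃ b, δ < b ∧ b ∈ s ∧ b ∈ s' ∧ ∀ a ≤ b, a ∈ s ↔ a ∈ s'

theorem Ag.symm {δ : K} {s s' : Set K} (h : Ag δ s s') : Ag δ s' s := by
  obtain ⟨b, h1, h2, h3, h4⟩ := h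
  exact ⟨b, h1, h3, h2, fun a ha => (h4 a ha).symm⟩

theorem Ag.trans {δ : K} {s t u : Set K} (h : Ag δ s t) (h' : Ag δ t u) : Ag δ s u := by
  obtain ⟨b, h1, h2, h3, h4⟩ := h
  obtain ⟨b', h1', h2', h3', h4'⟩ := h'
  rcases le_total b b' with hb | hb
  · exact ⟨b, h1, h2, (h4' b hb).1 h3, fun a ha => (h4 a ha).trans (h4' a (ha.trans hb))⟩
  · exact ⟨b', h1', (h4 b' hb).2 h2', h3', fun a ha => (h4 a (ha.trans hb)).trans (h4' a ha)⟩

theorem Ag.of_ini {δ : K} {s s' : Set K} (h : Ini s s') {b : K} (hb : b ∈ s) (hδ : δ < b) :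
    Ag δ s s' := ⟨b, hδ, hb, h.1 hb, fun _ ha => ⟨fun h1 => h.1 h1, fun h1 => h.2 _ h1 b hb ha⟩⟩

/-- The similarity of the conditions `p` (upper) and `m` (lower), with the root `R`. -/
structure Match (p m : Cond K W) (σp σm : I → Set K) (R : Set K) (γ δ : K) : Prop where
  Rγ : ∀ a ∈ R, a < γ
  γδ : γ ≤ δ
  mδU : ∀ a ∈ m.1.U, a ≤ δ
  mδN : ∀ s ∈ m.1.N, ∀ a ∈ s, a ≤ δ
  mRU : ∀ a ∈ m.1.U, a ≤ γ → a ∈ R
  mRN : ∀ s ∈ m.1.N, ∀ a ∈ s, a ≤ γ → a ∈ R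
  pRU : ∀ a ∈ p.1.U, a ≤ δ → a ∈ R
  pRN : ∀ s ∈ p.1.N, ∀ a ∈ s, a ≤ δ → a ∈ R
  UR : ∀ a ∈ R, a ∈ p.1.U ↔ a ∈ m.1.U
  NR : ∀ s ⊆ R, s ∈ p.1.N ↔ s ∈ m.1.N
  LR : ∀ s ⊆ R, ∀ a ∈ R, ∀ w, (s, a, w) ∈ p.1.L ↔ (s, a, w) ∈ m.1.L
  KR : ∀ g : Set (K × W), (∀ x ∈ g, x.1 ∈ R) → (g ∈ p.1.Kl ↔ g ∈ m.1.Kl)
  σR : ∀ i, ∀ a ∈ R, ∀ w, (σp i, a, w) ∈ p.1.L ↔ (σm i, a, w) ∈ m.1.L

/-- **Amalgamation.** -/
theorem amalg [Uncountable W] {p m : Cond K W} {σp σm : I → Set K} {R : Set K} {γ δ : K}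
    (M : Match p m σp σm R γ δ) (hp : ∀ i, σp i ∈ p.1.N) (hm : ∀ i, σm i ∈ m.1.N)
    (hpδ : ∀ i, ∃ b ∈ σp i, δ < b) (hmγ : ∀ i, Blw (σm i) γ) {k : I → Set (K × W)}
    (ktot : ∀ i, Tot m.1.U (k i)) (kav : ∀ i, ∀ g ∈ m.1.Kl, ¬ g ⊆ k i)
    (kL : ∀ i, ∀ x ∈ k i, x.1 ≤ γ → (σm i, x.1, x.2) ∈ m.1.L)
    (hdist : ∀ i j, Ag δ (σp i) (σp j) → i = j) (i₀ : I) (w₁ w₂ : W) :
    ∃ q : Cond K W, q ≤ p ∧ q ≤ m ∧ γ ∈ q.1.U ∧ (σp i₀, γ, w₁) ∈ q.1.L ∧
      (σm i₀, γ, w₂) ∈ q.1.L ∧ ∀ i, ∀ x ∈ k i, (σp i, x.1, x.2) ∈ q.1.L := by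
  classical
  obtain ⟨w₀, hw₀⟩ := fresh m
  -- the filling of the new labels
  let κ : Set K → Set (K × W) := fun s => {x | (∃ i, Ag δ s (σp i) ∧ x ∈ k i) ∨
    ((∀ i, ¬ Ag δ s (σp i)) ∧ x.2 = w₀)}
  let v : Set K → W := fun s => if Ag δ s (σp i₀) then w₁ else w₂
  have hγU : γ ∉ m.1.U := fun h => lt_irrefl _ (M.Rγ _ (M.mRU γ h le_rfl))
  have hγU' : γ ∉ p.1.U := fun h => lt_irrefl _ (M.Rγ _ (M.pRU γ h M.γδ))
  have hpm : ∀ a, a ∈ p.1.U → a ∈ m.1.U → a ∈ R := fun a h1 h2 => M.pRU a h1 (M.mδU a h2)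
  have hpmN : ∀ s, s ∈ p.1.N → s ∈ m.1.N → s ⊆ R := fun s h1 h2 a ha =>
    M.pRN s h1 a ha (M.mδN s h2 a ha)
  -- an element above `δ`
  have habove : ∀ s ∈ p.1.N, s ∉ m.1.N → ∃ b ∈ s, δ < b := by
    intro s h1 h2
    by_contra hc
    push Not at hc
    exact h2 ((M.NR s fun a ha => M.pRN s h1 a ha (hc a ha)).1 h1)
  have hBγ : ∀ s, s ⊆ R → ∀ a, Blw s a → a < γ := by
    rintro s hs a ⟨b, hb, hab⟩
    exact hab.trans_lt (M.Rγ b (hs hb))
  have hLL : ∀ s a w, s ∈ p.1.N → s ∈ m.1.N → ((s, a, w) ∈ p.1.L ↔ (s, a, w) ∈ m.1.L) := by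
    intro s a w h1 h2
    have hs := hpmN s h1 h2
    constructor
    · intro h
      have h3 := p.2.lab _ _ _ h
      exact (M.LR s hs a (M.pRU a h3.2.1 ((hBγ s hs a h3.2.2).le.trans M.γδ)) w).1 h
    · intro h
      have h3 := m.2.lab _ _ _ h
      exact (M.LR s hs a (M.mRU a h3.2.1 (hBγ s hs a h3.2.2).le) w).2 h
  have hκfn : ∀ s a w w', (a, w) ∈ κ s → (a, w') ∈ κ s → w = w' := by
    rintro s a w w' (⟨i, h1, h2⟩ | ⟨h1, h2⟩) (⟨j, h3, h4⟩ | ⟨h3, h4⟩)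
    · obtain rfl := hdist i j (h1.symm.trans h3)
      exact (ktot i).2.2 a w w' h2 h4
    · exact (h3 i h1).elim
    · exact (h1 j h3).elim
    · exact h2.trans h4.symm
  have hκtot : ∀ s, ∀ a ∈ m.1.U, ∃ w, (a, w) ∈ κ s := by
    intro s a ha
    by_cases h : ∃ i, Ag δ s (σp i)
    · obtain ⟨i, hi⟩ := h
      obtain ⟨w, hw⟩ := (ktot i).2.1 a ha
      exact ⟨w, Or.inl ⟨i, hi, hw⟩⟩
    · push Not at h
      exact ⟨w₀, Or.inr ⟨h, rfl⟩⟩
  have hκmon : ∀ s s', Ag δ s s' → κ s = κ s' := by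
    intro s s' h
    have h1 : ∀ i, Ag δ s (σp i) ↔ Ag δ s' (σp i) := fun i =>
      ⟨fun h2 => h.symm.trans h2, fun h2 => h.trans h2⟩
    ext x
    change ((∃ i, Ag δ s (σp i) ∧ x ∈ k i) ∨ ((∀ i, ¬ Ag δ s (σp i)) ∧ x.2 = w₀)) ↔
      ((∃ i, Ag δ s' (σp i) ∧ x ∈ k i) ∨ ((∀ i, ¬ Ag δ s' (σp i)) ∧ x.2 = w₀))
    simp only [h1]
  -- labels of names agreeing with `σp i`
  have hLag : ∀ s i, s ∈ p.1.N → Ag δ s (σp i) → ∀ a ≤ δ, ∀ w, (s, a, w) ∈ p.1.L →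
      (σp i, a, w) ∈ p.1.L := by
    rintro s i hs ⟨b, h1, h2, h3, h4⟩ a ha w hw
    have h5 : Ini (s ∩ Iic b) s := ⟨inter_subset_left, fun c hc d hd hcd => ⟨hc, hcd.trans hd.2⟩⟩
    have h6 : s ∩ Iic b = σp i ∩ Iic b := by
      ext c
      exact ⟨fun hc => ⟨(h4 c hc.2).1 hc.1, hc.2⟩, fun hc => ⟨(h4 c hc.2).2 hc.1, hc.2⟩⟩
    have h7 : Ini (s ∩ Iic b) (σp i) := by
      rw [h6]
      exact ⟨inter_subset_left, fun c hc d hd hcd => ⟨hc, hcd.trans hd.2⟩⟩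
    have h8 := p.2.lab _ _ _ hw
    obtain ⟨w', hw'⟩ := p.2.tot _ (p.2.ini s hs _ h5) a h8.2.1 ⟨b, ⟨h2, self_mem_Iic⟩, (ha.trans_lt h1).le⟩
    have h9 := p.2.fn _ _ _ _ hw (p.2.mon _ _ _ _ h5 hs hw')
    rw [h9]
    exact p.2.mon _ _ _ _ h7 (hp i) hw'
  let Lc : Set (Set K × K × W) := {x | x.1 ∈ p.1.N ∧ x.1 ∉ m.1.N ∧ x.2.1 ∈ m.1.U ∧
    x.2.1 ∉ p.1.U ∧ x.2 ∈ κ x.1}
  let Ld : Set (Set K × K × W) := {x | (x.1 ∈ m.1.N ∨ x.1 ∈ p.1.N) ∧ Blw x.1 γ ∧ x.2.1 = γ ∧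
    x.2.2 = v x.1}
  have hcond : IsCond (⟨insert γ (m.1.U ∪ p.1.U), m.1.Kl ∪ p.1.Kl, m.1.N ∪ p.1.N,
      ((m.1.L ∪ p.1.L) ∪ Lc) ∪ Ld⟩ : Raw K W) := by
    constructor
    · exact (m.2.ctU.union p.2.ctU).insert γ
    · exact m.2.ctK.union p.2.ctK
    · exact m.2.ctN.union p.2.ctN
    · rintro s (hs | hs)
      · exact m.2.ctS s hs
      · exact p.2.ctS s hs
    · rintro s (hs | hs) s' h
      · exact Or.inl (m.2.ini s hs s' h)
      · exact Or.inr (p.2.ini s hs s' h)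
    · -- lab
      rintro s a w (((h | h) | h) | h)
      · have h1 := m.2.lab _ _ _ h
        exact ⟨Or.inl h1.1, Or.inr (Or.inl h1.2.1), h1.2.2⟩
      · have h1 := p.2.lab _ _ _ h
        exact ⟨Or.inr h1.1, Or.inr (Or.inr h1.2.1), h1.2.2⟩
      · obtain ⟨b, hb, hδb⟩ := habove s h.1 h.2.1
        exact ⟨Or.inr h.1, Or.inr (Or.inl h.2.2.1), b, hb, ((M.mδU a h.2.2.1).trans_lt hδb).le⟩
      · obtain ⟨h1, h2, h3, h4⟩ := h
        simp only at h1 h2 h3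
        rw [h3]
        exact ⟨h1, Or.inl rfl, h2⟩
    · -- tot
      rintro s hs a ha hb
      by_cases haγ : a = γ
      · rw [haγ] at hb
        exact ⟨v s, Or.inr ⟨hs, hb, haγ, rfl⟩⟩
      have ha' : a ∈ m.1.U ∨ a ∈ p.1.U := ha.resolve_left haγ
      by_cases hsm : s ∈ m.1.N
      · have ham : a ∈ m.1.U := by
          rcases ha' with ha' | ha'
          · exact ha'
          · obtain ⟨b, hb1, hb2⟩ := hb
            have h1 : a ∈ R := M.pRU a ha' (hb2.trans (M.mδN s hsm b hb1))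
            exact (M.UR a h1).1 ha'
        obtain ⟨w, hw⟩ := m.2.tot s hsm a ham hb
        exact ⟨w, Or.inl (Or.inl (Or.inl hw))⟩
      · have hsp : s ∈ p.1.N := hs.resolve_left hsm
        by_cases hap : a ∈ p.1.U
        · obtain ⟨w, hw⟩ := p.2.tot s hsp a hap hb
          exact ⟨w, Or.inl (Or.inl (Or.inr hw))⟩
        · have ham : a ∈ m.1.U := ha'.resolve_right hap
          obtain ⟨w, hw⟩ := hκtot s a ham
          exact ⟨w, Or.inl (Or.inr ⟨hsp, hsm, ham, hap, hw⟩)⟩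
    · -- fn
      have key : ∀ s a w, (((s, a, w) ∈ m.1.L ∨ (s, a, w) ∈ p.1.L) ∨ (s, a, w) ∈ Lc) →
          a ≠ γ := by
        rintro s a w ((h | h) | h) rfl
        · exact hγU (m.2.lab _ _ _ h).2.1
        · exact hγU' (p.2.lab _ _ _ h).2.1
        · exact hγU h.2.2.1
      have key2 : ∀ s a w w', (((s, a, w) ∈ m.1.L ∨ (s, a, w) ∈ p.1.L) ∨ (s, a, w) ∈ Lc) →
          (((s, a, w') ∈ m.1.L ∨ (s, a, w') ∈ p.1.L) ∨ (s, a, w') ∈ Lc) → w = w' := by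
        rintro s a w w' ((h | h) | h) ((h' | h') | h')
        · exact m.2.fn _ _ _ _ h h'
        · have h1 := (hLL s a w' (p.2.lab _ _ _ h').1 (m.2.lab _ _ _ h).1).1 h'
          exact m.2.fn _ _ _ _ h h1
        · exact (h'.2.1 (m.2.lab _ _ _ h).1).elim
        · have h1 := (hLL s a w (p.2.lab _ _ _ h).1 (m.2.lab _ _ _ h').1).1 h
          exact m.2.fn _ _ _ _ h1 h'
        · exact p.2.fn _ _ _ _ h h'
        · exact (h'.2.2.2.1 (p.2.lab _ _ _ h).2.1).elim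
        · exact (h.2.1 (m.2.lab _ _ _ h').1).elim
        · exact (h.2.2.2.1 (p.2.lab _ _ _ h').2.1).elim
        · exact hκfn s a w w' h.2.2.2.2 h'.2.2.2.2
      rintro s a w w' (h | h) (h' | h')
      · exact key2 s a w w' h h'
      · exact (key s a w h h'.2.2.1).elim
      · exact (key s a w' h' h.2.2.1).elim
      · exact h.2.2.2.trans h'.2.2.2.symm
    · -- mon
      rintro s s' a w hss hs' (((h | h) | h) | h)
      · have hsm := (m.2.lab _ _ _ h).1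
        by_cases hsm' : s' ∈ m.1.N
        · exact Or.inl (Or.inl (Or.inl (m.2.mon s s' a w hss hsm' h)))
        · have hsp' : s' ∈ p.1.N := hs'.resolve_left hsm'
          have hsp : s ∈ p.1.N := p.2.ini s' hsp' s hss
          exact Or.inl (Or.inl (Or.inr (p.2.mon s s' a w hss hsp' ((hLL s a w hsp hsm).2 h))))
      · have hsp := (p.2.lab _ _ _ h).1
        by_cases hsp' : s' ∈ p.1.N
        · exact Or.inl (Or.inl (Or.inr (p.2.mon s s' a w hss hsp' h)))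
        · have hsm' : s' ∈ m.1.N := hs'.resolve_right hsp'
          have hsm : s ∈ m.1.N := m.2.ini s' hsm' s hss
          exact Or.inl (Or.inl (Or.inl (m.2.mon s s' a w hss hsm' ((hLL s a w hsp hsm).1 h))))
      · obtain ⟨h1, h2, h3, h4, h5⟩ := h
        have hsm' : s' ∉ m.1.N := fun hc => h2 (m.2.ini s' hc s hss)
        have hsp' : s' ∈ p.1.N := hs'.resolve_left hsm'
        obtain ⟨b, hb, hδb⟩ := habove s h1 h2
        refine Or.inl (Or.inr ⟨hsp', hsm', h3, h4, ?_⟩)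
        rw [← hκmon s s' (Ag.of_ini hss hb hδb)]
        exact h5
      · obtain ⟨h1, h2, h3, h4⟩ := h
        refine Or.inr ⟨hs', h2.mono hss.1, h3, h4.trans ?_⟩
        change v s = v s'
        by_cases hb : ∃ b ∈ s, δ < b
        · obtain ⟨b, hb, hδb⟩ := hb
          have h5 := Ag.of_ini hss hb hδb
          have h6 : Ag δ s (σp i₀) ↔ Ag δ s' (σp i₀) :=
            ⟨fun h => h5.symm.trans h, fun h => h5.trans h⟩
          simp only [v, h6]
        · push Not at hb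
          have h5 : ¬ Ag δ s (σp i₀) := by
            rintro ⟨b, h5, h6, -, -⟩
            exact absurd (hb b h6) (not_le.2 h5)
          have h6 : ¬ Ag δ s' (σp i₀) := by
            rintro ⟨b, h6, h7, h8, h9⟩
            obtain ⟨d, hd, hγd⟩ := h2
            have h10 : d ≤ b := (hb d hd).trans h6.le
            have h11 : d ∈ σp i₀ := (h9 d h10).1 (hss.1 hd)
            have h12 := M.Rγ d (M.pRN _ (hp i₀) d h11 (hb d hd))
            exact absurd h12 (not_lt.2 hγd)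
          simp only [v, h5, h6, if_false]
    · rintro g (hg | hg) x hx
      · exact Or.inr (Or.inl (m.2.kdom g hg x hx))
      · exact Or.inr (Or.inr (p.2.kdom g hg x hx))
    · rintro g (hg | hg)
      · exact m.2.kfn g hg
      · exact p.2.kfn g hg
    · rintro g (hg | hg)
      · exact m.2.kmax g hg
      · exact p.2.kmax g hg
    · -- avoid
      rintro g (hg | hg) s hs h
      · have hgγ : ∀ x ∈ g, x.1 ≠ γ := fun x hx he => hγU (he ▸ m.2.kdom g hg x hx)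
        by_cases hsm : s ∈ m.1.N
        · refine m.2.avoid g hg s hsm fun x hx => ?_
          rcases h hx with ((h1 | h1) | h1) | h1
          · exact h1
          · exact (hLL s _ _ (p.2.lab _ _ _ h1).1 hsm).1 h1
          · exact (h1.2.1 hsm).elim
          · exact (hgγ x hx h1.2.2.1).elim
        · have hsp : s ∈ p.1.N := hs.resolve_left hsm
          have h2 : ∀ x ∈ g, ((s, x.1, x.2) ∈ p.1.L ∧ x.1 ∈ R) ∨ x ∈ κ s := by
            intro x hx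
            rcases h hx with ((h1 | h1) | h1) | h1
            · exact (hsm (m.2.lab _ _ _ h1).1).elim
            · exact Or.inl ⟨h1, hpm _ (p.2.lab _ _ _ h1).2.1 (m.2.kdom g hg x hx)⟩
            · exact Or.inr h1.2.2.2.2
            · exact (hgγ x hx h1.2.2.1).elim
          by_cases hi : ∃ i, Ag δ s (σp i)
          · obtain ⟨i, hi⟩ := hi
            refine kav i g hg fun x hx => ?_
            rcases h2 x hx with ⟨h3, h4⟩ | (⟨j, h3, h4⟩ | ⟨h3, -⟩)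
            · have h5 := hLag s i hsp hi x.1 ((M.Rγ _ h4).le.trans M.γδ) x.2 h3
              have h6 := (M.σR i x.1 h4 x.2).1 h5
              obtain ⟨w, hw⟩ := (ktot i).2.1 x.1 (m.2.kdom g hg x hx)
              have h7 := kL i _ hw (M.Rγ _ h4).le
              have h8 : x.2 = w := m.2.fn _ _ _ _ h6 h7
              rw [← h8] at hw
              exact hw
            · obtain rfl := hdist j i (h3.symm.trans hi)
              exact h4
            · exact (h3 i hi).elim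
          · push Not at hi
            have h3 : ∀ x ∈ g, (s, x.1, x.2) ∈ p.1.L ∧ x.1 ∈ R := by
              intro x hx
              rcases h2 x hx with h3 | (⟨i, h3, -⟩ | ⟨-, h3⟩)
              · exact h3
              · exact (hi i h3).elim
              · exact (hw₀ g hg x hx h3).elim
            have h4 : g ∈ p.1.Kl := (M.KR g fun x hx => (h3 x hx).2).2 hg
            exact p.2.avoid g h4 s hsp fun x hx => (h3 x hx).1
      · have hgγ : ∀ x ∈ g, x.1 ≠ γ := fun x hx he => hγU' (he ▸ p.2.kdom g hg x hx)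
        by_cases hsp : s ∈ p.1.N
        · refine p.2.avoid g hg s hsp fun x hx => ?_
          rcases h hx with ((h1 | h1) | h1) | h1
          · exact (hLL s _ _ hsp (m.2.lab _ _ _ h1).1).2 h1
          · exact h1
          · exact (h1.2.2.2.1 (p.2.kdom g hg x hx)).elim
          · exact (hgγ x hx h1.2.2.1).elim
        · have hsm : s ∈ m.1.N := hs.resolve_right hsp
          have h3 : ∀ x ∈ g, (s, x.1, x.2) ∈ m.1.L ∧ x.1 ∈ R := by
            intro x hx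
            rcases h hx with ((h1 | h1) | h1) | h1
            · exact ⟨h1, hpm _ (p.2.kdom g hg x hx) (m.2.lab _ _ _ h1).2.1⟩
            · exact (hsp (p.2.lab _ _ _ h1).1).elim
            · exact (hsp h1.1).elim
            · exact (hgγ x hx h1.2.2.1).elim
          have h4 : g ∈ m.1.Kl := (M.KR g fun x hx => (h3 x hx).2).1 hg
          exact m.2.avoid g h4 s hsm fun x hx => (h3 x hx).1
  refine ⟨⟨_, hcond⟩, ⟨?_, subset_union_right, subset_union_right, ?_⟩,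
    ⟨?_, subset_union_left, subset_union_left, ?_⟩, Or.inl rfl, ?_, ?_, ?_⟩
  · exact subset_union_right.trans (subset_insert _ _)
  · exact fun x hx => Or.inl (Or.inl (Or.inr hx))
  · exact subset_union_left.trans (subset_insert _ _)
  · exact fun x hx => Or.inl (Or.inl (Or.inl hx))
  · obtain ⟨b, hb, hδb⟩ := hpδ i₀
    refine Or.inr ⟨Or.inr (hp i₀), ⟨b, hb, (M.γδ.trans_lt hδb).le⟩, rfl, ?_⟩
    have h1 : Ag δ (σp i₀) (σp i₀) := Ag.of_ini (Ini.refl _) hb hδb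
    simp only [v, h1, if_true]
  · refine Or.inr ⟨Or.inl (hm i₀), hmγ i₀, rfl, ?_⟩
    have h1 : ¬ Ag δ (σm i₀) (σp i₀) := by
      rintro ⟨b, h1, h2, -, -⟩
      exact absurd (M.mδN _ (hm i₀) b h2) (not_le.2 h1)
    simp only [v, h1, if_false]
  · intro i x hx
    have hxm : x.1 ∈ m.1.U := (ktot i).1 x hx
    obtain ⟨b, hb, hδb⟩ := hpδ i
    by_cases hxp : x.1 ∈ p.1.U
    · have hR := hpm _ hxp hxm
      have h1 := kL i x hx (M.Rγ _ hR).le
      exact Or.inl (Or.inl (Or.inr ((M.σR i x.1 hR x.2).2 h1)))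
    · have hnm : σp i ∉ m.1.N := fun h => absurd (M.mδN _ h b hb) (not_le.2 hδb)
      exact Or.inl (Or.inr ⟨hp i, hnm, hxm, hxp, Or.inl ⟨i, Ag.of_ini (Ini.refl _) hb hδb, hx⟩⟩)

end Pool.Agent.Helper23.PI
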