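import Pool.Agent.Helper23.PI.Core1
import Pool.Agent.Helper23.PI.Core2
import Pool.Agent.Helper96.Fc.Root

/-!
# No system of positions
-/

namespace Pool.Agent.Helper23.PI

open Set Cardinal Pool.Agent.Helper96.Fc

set_option linter.unusedSectionVars false

/-! ### Small sets -/

/-- sets with at most continuum many elements -/
def Sm {α : Type} (A : Set α) : Prop := #A ≤ 𝔠

theorem Sm.mono {α : Type} {A B : Set α} (h : A ⊆ B) (hB : Sm B) : Sm A :=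
  (mk_le_mk_of_subset h).trans hB

theorem Sm.of_countable {α : Type} {A : Set α} (h : A.Countable) : Sm A :=
  (le_aleph0_iff_set_countable.2 h).trans aleph0_le_continuum

theorem Sm.of_type {α : Type} (h : #α ≤ 𝔠) (A : Set α) : Sm A := (mk_set_le A).trans h

theorem Sm.prod {α β : Type} {A : Set α} {B : Set β} (hA : Sm A) (hB : Sm B) : Sm (A ×ˢ B) := by
  have h : #(A ×ˢ B : Set (α × β)) = #A * #B := by
    rw [mk_congr (Equiv.Set.prod A B), mk_prod, lift_id, lift_id]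
  unfold Sm at *
  rw [h]
  exact (mul_le_mul' hA hB).trans continuum_mul_self.le

theorem Sm.pow {α : Type} {A : Set α} (hA : Sm A) : Sm {X : Set α | X ⊆ A ∧ X.Countable} := by
  have h1 : {X : Set α | X ⊆ A ∧ X.Countable} = {X : Set α | X ⊆ A ∧ #X ≤ ℵ₀} := by
    ext X
    simp
  have h2 : #{X : Set α // X ⊆ A ∧ #X ≤ ℵ₀} ≤ max #A ℵ₀ ^ (ℵ₀ : Cardinal) :=
    mk_bounded_subset_le A ℵ₀
  unfold Sm at *
  rw [h1]
  refine h2.trans ?_
  refine (power_le_power_right (max_le hA aleph0_le_continuum)).trans ?_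
  rw [continuum_power_aleph0]

theorem aleph_one_eq : aleph 1 = Order.succ (ℵ₀ : Cardinal.{0}) := by
  rw [succ_aleph0]

theorem cls_continuum : Cls (aleph 1) (Order.succ 𝔠) where
  rτ := isRegular_aleph_one
  rθ := isRegular_succ aleph0_le_continuum
  lt := Order.lt_succ_iff.2 (by
    rw [aleph_one_eq]
    exact Order.succ_le_of_lt aleph0_lt_continuum)
  pow a ha b hb := by
    have ha' : a ≤ 𝔠 := Order.lt_succ_iff.1 ha
    have hb' : b ≤ ℵ₀ := by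
      rw [← Order.lt_succ_iff, ← aleph_one_eq]
      exact hb
    refine Order.lt_succ_iff.2 ?_
    calc a ^ b ≤ 𝔠 ^ b := power_le_power_right ha'
      _ ≤ 𝔠 ^ (ℵ₀ : Cardinal) := power_le_power_left continuum_ne_zero hb'
      _ = 𝔠 := continuum_power_aleph0

/-! ### The root lemma with a code depending on the root -/

theorem root2 {τ θ : Cardinal.{0}} (h : Cls τ θ) {α : Type} (s : θ.ord.ToType → Set α)
    (hs : ∀ ξ, #(s ξ) < τ) : ∃ R : Set α, #R < τ ∧ ∀ {C : Type} (f : θ.ord.ToType → C),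
      #(range f) < θ → ∃ c : C, ∀ A : Set α, #A < θ → R ⊆ A → ∀ β, ∃ ξ > β,
        s ξ ∩ A = R ∧ f ξ = c := by
  obtain ⟨R, _, hR, hroot⟩ := h.root (C := Unit) s hs (fun _ => ()) (by
    rw [mk_unit]; exact one_lt_aleph0.trans_le h.rθ.aleph0_le)
  refine ⟨R, hR, ?_⟩
  intro C f hf
  by_contra hcon
  push Not at hcon
  choose A hA hRA β hβ using hcon
  obtain ⟨b, hb⟩ := exists_bound h.rθ hf (fun c => β c.1)
  have h1 : #(R ∪ ⋃ c : range f, A c.1 : Set α) < θ := by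
    refine (mk_union_le _ _).trans_lt (add_lt_of_lt h.rθ.aleph0_le (hR.trans h.lt) ?_)
    rw [card_iUnion_lt_iff_forall_of_isRegular h.rθ hf]
    exact fun c => hA _
  obtain ⟨ξ, hξ, hs1, -⟩ := hroot _ h1 subset_union_left b
  have h2 : β (f ξ) < ξ := (hb ⟨f ξ, ξ, rfl⟩).trans hξ
  refine hβ (f ξ) ξ h2 ?_ rfl
  ext a
  constructor
  · rintro ⟨h3, h4⟩
    rw [← hs1]
    exact ⟨h3, Or.inr (mem_iUnion.2 ⟨⟨f ξ, ξ, rfl⟩, h4⟩)⟩
  · intro h3
    have h4 : a ∈ s ξ := by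
      rw [← hs1] at h3
      exact h3.1
    exact ⟨h4, hRA _ h3⟩

/-! ### Countability of the parts of conditions -/

section

variable {K W : Type} [LinearOrder K]

theorem Cond.ctL (p : Cond K W) : p.1.L.Countable := by
  refine MapsTo.countable_of_injOn (f := fun x : Set K × K × W => (x.1, x.2.1))
    (t := p.1.N ×ˢ p.1.U) ?_ ?_ (p.2.ctN.prod p.2.ctU)
  · rintro ⟨s, a, w⟩ hx
    exact ⟨(p.2.lab _ _ _ hx).1, (p.2.lab _ _ _ hx).2.1⟩
  · rintro ⟨s, a, w⟩ hx ⟨s', a', w'⟩ hx' he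
    simp only [Prod.mk.injEq] at he
    obtain ⟨rfl, rfl⟩ := he
    rw [p.2.fn _ _ _ _ hx hx']

theorem Cond.ctg (p : Cond K W) {g : Set (K × W)} (hg : g ∈ p.1.Kl) : g.Countable := by
  refine MapsTo.countable_of_injOn (f := fun x : K × W => x.1) (t := p.1.U) ?_ ?_ p.2.ctU
  · rintro x hx
    exact p.2.kdom g hg x hx
  · rintro ⟨a, w⟩ hx ⟨a', w'⟩ hx' he
    simp only at he
    subst he
    rw [p.2.kfn g hg _ _ _ hx hx']

theorem ag_label {p : Cond K W} {δ : K} {s s' : Set K} (hs : s ∈ p.1.N) (hs' : s' ∈ p.1.N)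
    (h : Ag δ s s') {a : K} (ha : a ≤ δ) {w : W} (hw : (s, a, w) ∈ p.1.L) :
    (s', a, w) ∈ p.1.L := by
  obtain ⟨b, h1, h2, h3, h4⟩ := h
  have h5 : Ini (s ∩ Iic b) s := ⟨inter_subset_left, fun c hc d hd hcd => ⟨hc, hcd.trans hd.2⟩⟩
  have h6 : s ∩ Iic b = s' ∩ Iic b := by
    ext c
    exact ⟨fun hc => ⟨(h4 c hc.2).1 hc.1, hc.2⟩, fun hc => ⟨(h4 c hc.2).2 hc.1, hc.2⟩⟩
  have h7 : Ini (s ∩ Iic b) s' := by
    rw [h6]
    exact ⟨inter_subset_left, fun c hc d hd hcd => ⟨hc, hcd.trans hd.2⟩⟩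
  have h8 := p.2.lab _ _ _ hw
  obtain ⟨w', hw'⟩ := p.2.tot _ (p.2.ini s hs _ h5) a h8.2.1
    ⟨b, ⟨h2, self_mem_Iic⟩, (ha.trans_lt h1).le⟩
  have h9 := p.2.fn _ _ _ _ hw (p.2.mon _ _ _ _ h5 hs hw')
  rw [h9]
  exact p.2.mon _ _ _ _ h7 hs' hw'

/-! ### The data at an ordinal -/

variable {I Λ : Type}

/-- the position and the names caught at `ξ` -/
structure Dat (c : Cre K W I Λ) (ξ : K) where
  z : c.Z
  σ : I → Set K
  k : I → Set (K × W)
  σN : ∀ i, σ i ∈ (c.p z).1.N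
  σb : ∀ i, Blw (σ i) ξ
  catch' : ∀ i, ∀ z', c.le z' z → ∀ x ∈ c.F z' i, x.1 ≤ ξ → (σ i, x.1, x.2) ∈ (c.p z').1.L
  ktot : ∀ i, Tot (c.p z).1.U (k i)
  kF : ∀ i, c.F z i ⊆ k i
  kav : ∀ i, ∀ g ∈ (c.p z).1.Kl, ¬ g ⊆ k i
  kL : ∀ i, ∀ x ∈ k i, x.1 ≤ ξ → (σ i, x.1, x.2) ∈ (c.p z).1.L

theorem exists_dat [Finite I] (c : Cre K W I Λ) (ξ : K) : Nonempty (Dat c ξ) := by
  obtain ⟨z, -, σ, hσ⟩ := c.catchAll c.z0 ξ
  obtain ⟨z2, hz2, -, hS⟩ := c.ext z (c.p z) (c.p z).1.U le_rfl (c.p z).2.ctU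
  refine ⟨⟨z, σ, fun i => res (c.p z).1.U (c.F z2 i), fun i => (hσ i).1, fun i => (hσ i).2.1,
    fun i => (hσ i).2.2, ?_, ?_, ?_, ?_⟩⟩
  · intro i
    obtain ⟨h1, h2, h3⟩ := c.totF z2 i
    refine ⟨fun x hx => hx.2, ?_, ?_⟩
    · intro a ha
      obtain ⟨w, hw⟩ := h2 a (hS ha)
      exact ⟨w, hw, ha⟩
    · intro a w w' hw hw'
      exact h3 a w w' hw.1 hw'.1
  · intro i x hx
    exact ⟨c.le_F _ _ hz2 i hx, c.subU _ ((c.totF z i).1 x hx)⟩
  · intro i g hg hgk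
    exact c.ff z2 i (c.p z2) le_rfl g ((c.le_p _ _ hz2).2.1 hg) fun x hx => (hgk hx).1
  · intro i x hx hxξ
    have h1 := (hσ i).2.2 z2 hz2 x hx.1 hxξ
    obtain ⟨w', hw'⟩ := (c.p z).2.tot (σ i) (hσ i).1 x.1 hx.2 ((hσ i).2.1.le hxξ)
    rw [(c.p z2).2.fn _ _ _ _ h1 ((c.le_p _ _ hz2).2.2.2 hw')]
    exact hw'

end

/-! ### The contradiction -/

/-- **There is no system of positions.** -/
theorem core {W I Λ : Type} [Uncountable W] (hW : #W ≤ 𝔠) [Finite I] [Nonempty I] (hΛ : #Λ ≤ 𝔠)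
    (c : Cre (Order.succ 𝔠).ord.ToType W I Λ) : False := by
  classical
  set θ : Cardinal.{0} := Order.succ 𝔠 with hθ
  have hcls : Cls (aleph 1) θ := cls_continuum
  have hsm : ∀ {α : Type} {A : Set α}, Sm A → #A < θ := fun h => Order.lt_succ_iff.2 h
  have hct : ∀ {α : Type} {A : Set α}, A.Countable → #A < θ := fun h => hsm (Sm.of_countable h)
  have hct1 : ∀ {α : Type} {A : Set α}, A.Countable ↔ #A < aleph 1 := by
    intro α A
    rw [← le_aleph0_iff_set_countable, ← Order.lt_succ_iff, ← aleph_one_eq]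
  have hdat : ∀ ξ, Nonempty (Dat c ξ) := exists_dat c
  let d : ∀ ξ, Dat c ξ := fun ξ => (hdat ξ).some
  let p : θ.ord.ToType → Cond θ.ord.ToType W := fun ξ => c.p (d ξ).z
  let V : θ.ord.ToType → Set θ.ord.ToType := fun ξ => (p ξ).1.U ∪ ⋃₀ (p ξ).1.N
  have hV : ∀ ξ, (V ξ).Countable := fun ξ => (p ξ).2.ctU.union
    ((p ξ).2.ctN.sUnion (p ξ).2.ctS)
  obtain ⟨R, hR, hroot⟩ := root2 hcls V fun ξ => hct1.1 (hV ξ)
  have hRc : R.Countable := hct1.2 hR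
  -- the code
  let code : θ.ord.ToType → Set θ.ord.ToType × Set (Set θ.ord.ToType) ×
      Set (Set θ.ord.ToType × θ.ord.ToType × W) × Set (Set (θ.ord.ToType × W)) ×
      Set (I × θ.ord.ToType × W) × Λ := fun ξ =>
    ({a ∈ (p ξ).1.U | a ∈ R}, {s ∈ (p ξ).1.N | s ⊆ R},
      {x ∈ (p ξ).1.L | x.1 ⊆ R ∧ x.2.1 ∈ R}, {g ∈ (p ξ).1.Kl | ∀ x ∈ g, x.1 ∈ R},
      {x : I × θ.ord.ToType × W | x.2.1 ∈ R ∧ ((d ξ).σ x.1, x.2.1, x.2.2) ∈ (p ξ).1.L},
      c.lam (d ξ).z)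
  have hsW : Sm (univ : Set W) := Sm.of_type hW _
  have hsR : Sm R := Sm.of_countable hRc
  have hRW : Sm (R ×ˢ (univ : Set W)) := hsR.prod hsW
  have hrange : #(range code) < θ := by
    refine hsm (Sm.mono (B := {X : Set θ.ord.ToType | X ⊆ R ∧ X.Countable} ×ˢ
      {X : Set (Set θ.ord.ToType) | X ⊆ {X : Set θ.ord.ToType | X ⊆ R ∧ X.Countable} ∧
        X.Countable} ×ˢ
      {X : Set (Set θ.ord.ToType × θ.ord.ToType × W) |
        X ⊆ {X : Set θ.ord.ToType | X ⊆ R ∧ X.Countable} ×ˢ (R ×ˢ (univ : Set W)) ∧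
          X.Countable} ×ˢ
      {X : Set (Set (θ.ord.ToType × W)) |
        X ⊆ {X : Set (θ.ord.ToType × W) | X ⊆ R ×ˢ (univ : Set W) ∧ X.Countable} ∧
          X.Countable} ×ˢ
      {X : Set (I × θ.ord.ToType × W) | X ⊆ (univ : Set I) ×ˢ (R ×ˢ (univ : Set W)) ∧
          X.Countable} ×ˢ (univ : Set Λ)) ?_ ?_)
    · rintro _ ⟨ξ, rfl⟩
      refine ⟨⟨fun a ha => ha.2, (p ξ).2.ctU.mono fun a ha => ha.1⟩,
        ⟨fun s hs => ⟨hs.2, hRc.mono hs.2⟩, (p ξ).2.ctN.mono fun s hs => hs.1⟩,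
        ⟨fun x hx => ⟨⟨hx.2.1, hRc.mono hx.2.1⟩, hx.2.2, trivial⟩,
          (p ξ).ctL.mono fun x hx => hx.1⟩,
        ⟨fun g hg => ⟨fun x hx => ⟨hg.2 x hx, trivial⟩, (p ξ).ctg hg.1⟩,
          (p ξ).2.ctK.mono fun x hx => hx.1⟩,
        ⟨fun x hx => ⟨trivial, hx.1, trivial⟩, ?_⟩, trivial⟩
      refine MapsTo.countable_of_injOn
        (f := fun x : I × θ.ord.ToType × W => (x.1, x.2.1))
        (t := (univ : Set I) ×ˢ R) ?_ ?_ ((Set.toFinite _).countable.prod hRc)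
      · rintro x hx
        exact ⟨trivial, hx.1⟩
      · rintro ⟨i, a, w⟩ hx ⟨i', a', w'⟩ hx' he
        simp only [Prod.mk.injEq] at he
        obtain ⟨rfl, rfl⟩ := he
        have h1 : w = w' := (p ξ).2.fn _ _ _ _ hx.2 hx'.2
        rw [h1]
    · exact hsR.pow.prod (hsR.pow.pow.prod ((hsR.pow.prod hRW).pow.prod (hRW.pow.pow.prod
        (((Sm.of_countable (Set.toFinite _).countable).prod hRW).pow.prod (Sm.of_type hΛ _)))))
  obtain ⟨cc, hcc⟩ := hroot code hrange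
  -- the lower condition
  obtain ⟨γ, hγ⟩ := exists_bound hcls.rθ (B := (R ∪ c.S c.z0 : Set _))
    (hct (hRc.union (c.ctS _))) (fun x => x.1)
  have hRγ : ∀ a ∈ R, a < γ := fun a ha => hγ ⟨a, Or.inl ha⟩
  have hSγ : ∀ a ∈ c.S c.z0, a < γ := fun a ha => hγ ⟨a, Or.inr ha⟩
  obtain ⟨ξm, hξm, hVm, hcm⟩ := hcc (Iic γ) (mk_Iic_lt hcls.rθ.aleph0_le γ)
    (fun a ha => (hRγ a ha).le) γ
  -- the upper condition
  obtain ⟨δ, hδ⟩ := exists_bound hcls.rθ (B := (V ξm ∪ {γ} ∪ {ξm} : Set _))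
    (hct (((hV ξm).union (countable_singleton _)).union (countable_singleton _))) (fun x => x.1)
  have hVδ : ∀ a ∈ V ξm, a < δ := fun a ha => hδ ⟨a, Or.inl (Or.inl ha)⟩
  have hγδ : γ < δ := hδ ⟨γ, Or.inl (Or.inr rfl)⟩
  obtain ⟨ξp, hξp, hVp, hcp⟩ := hcc (Iic δ) (mk_Iic_lt hcls.rθ.aleph0_le δ)
    (fun a ha => ((hRγ a ha).trans hγδ).le) δ
  have hcode : code ξp = code ξm := hcp.trans hcm.symm
  simp only [code, Prod.mk.injEq] at hcode
  obtain ⟨e1, e2, e3, e4, e5, e6⟩ := hcode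
  have M : Match (p ξp) (p ξm) (d ξp).σ (d ξm).σ R γ δ := by
    constructor
    · exact hRγ
    · exact hγδ.le
    · exact fun a ha => (hVδ a (Or.inl ha)).le
    · exact fun s hs a ha => (hVδ a (Or.inr ⟨s, hs, ha⟩)).le
    · intro a ha haγ
      rw [← hVm]
      exact ⟨Or.inl ha, haγ⟩
    · intro s hs a ha haγ
      rw [← hVm]
      exact ⟨Or.inr ⟨s, hs, ha⟩, haγ⟩
    · intro a ha haγ
      rw [← hVp]
      exact ⟨Or.inl ha, haγ⟩
    · intro s hs a ha haγ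
      rw [← hVp]
      exact ⟨Or.inr ⟨s, hs, ha⟩, haγ⟩
    · intro a ha
      have h := Set.ext_iff.1 e1 a
      simp only [mem_ofPred_eq, ha, and_true] at h
      exact h
    · intro s hs
      have h := Set.ext_iff.1 e2 s
      simp only [mem_ofPred_eq, hs, and_true] at h
      exact h
    · intro s hs a ha w
      have h := Set.ext_iff.1 e3 (s, a, w)
      simp only [mem_ofPred_eq, hs, ha, and_true] at h
      exact h
    · intro g hg
      have h := Set.ext_iff.1 e4 g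
      simp only [mem_ofPred_eq] at h
      exact ⟨fun h1 => (h.1 ⟨h1, hg⟩).1, fun h1 => (h.2 ⟨h1, hg⟩).1⟩
    · intro i a ha w
      have h := Set.ext_iff.1 e5 (i, a, w)
      simp only [mem_ofPred_eq, ha, true_and] at h
      exact h
  have hdist : ∀ i j, Ag δ ((d ξp).σ i) ((d ξp).σ j) → i = j := by
    have key : ∀ i j, Ag δ ((d ξp).σ i) ((d ξp).σ j) → c.F c.z0 i ⊆ c.F c.z0 j := by
      intro i j hA x hx
      have hx0 := (c.totF c.z0 i).1 x hx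
      have hxδ : x.1 ≤ δ := ((hSγ _ hx0).trans hγδ).le
      have h1 := (d ξp).catch' i _ (c.refl _) x (c.le_F _ _ (c.le0 _) i hx)
        (hxδ.trans (le_of_lt hξp))
      obtain ⟨w, hw⟩ := (c.totF c.z0 j).2.1 _ hx0
      have h2 := (d ξp).catch' j _ (c.refl _) (x.1, w) (c.le_F _ _ (c.le0 _) j hw)
        (hxδ.trans (le_of_lt hξp))
      have h3 := ag_label ((d ξp).σN i) ((d ξp).σN j) hA hxδ h1
      have h4 := (c.p (d ξp).z).2.fn _ _ _ _ h3 h2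
      have h5 : x = (x.1, w) := Prod.ext rfl h4
      rw [h5]
      exact hw
    intro i j hA
    exact c.dist i j ((key i j hA).antisymm (key j i hA.symm))
  obtain ⟨i₀⟩ := (inferInstance : Nonempty I)
  obtain ⟨w₁, w₂, hw⟩ := exists_pair_ne W
  obtain ⟨q, hqp, hqm, hγq, hq1, hq2, hq3⟩ := amalg M (d ξp).σN (d ξm).σN
    (fun i => by
      obtain ⟨b, hb, hb2⟩ := (d ξp).σb i
      exact ⟨b, hb, lt_of_lt_of_le hξp hb2⟩)
    (fun i => ((d ξm).σb i).le (le_of_lt hξm)) (d ξm).ktot (d ξm).kav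
    (fun i x hx hxγ => (d ξm).kL i x hx (hxγ.trans (le_of_lt hξm))) hdist i₀ w₁ w₂
  obtain ⟨z', hz1, hz2, hzq, hzγ⟩ := c.join (d ξp).z (d ξm).z q {γ} e6 hqp hqm
    (countable_singleton γ) (by
      intro z' hz' hpq hSS i x hx
      have h1 := hq3 i x ((d ξm).kF i hx)
      have hxS := (c.totF _ i).1 x hx
      obtain ⟨w, hw⟩ := (c.totF z' i).2.1 x.1 (hSS hxS)
      have hxδ : x.1 < δ := hVδ _ (Or.inl (c.subU _ hxS))
      have h2 := (d ξp).catch' i z' hz' (x.1, w) hw ((hxδ.trans hξp).le)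
      have h3 := (c.p z').2.fn _ _ _ _ (hpq.2.2.2 h1) h2
      have h4 : x = (x.1, w) := Prod.ext rfl h3
      rw [h4]
      exact hw)
  obtain ⟨w, hwz⟩ := (c.totF z' i₀).2.1 γ (hzγ rfl)
  have h1 := (d ξp).catch' i₀ z' hz1 (γ, w) hwz ((hγδ.trans hξp).le)
  have h2 := (d ξm).catch' i₀ z' hz2 (γ, w) hwz (le_of_lt hξm)
  have h3 := (c.p z').2.fn _ _ _ _ (hzq.2.2.2 hq1) h1
  have h4 := (c.p z').2.fn _ _ _ _ (hzq.2.2.2 hq2) h2
  exact hw (h3.trans h4.symm)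

end Pool.Agent.Helper23.PI
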