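import Mathlib

/-!
# Forced back-and-forth systems, on the side of the ground model
-/

namespace Pool.Agent.Helper23.PI

open Set

/-- decreasing sequences of conditions have lower bounds -/
def SigmaClosed (P : Type) [Preorder P] : Prop :=
  ∀ p : ℕ → P, Antitone p → ∃ q, ∀ n, q ≤ p n

/-- a regular open set of conditions -/
structure RegSet {P : Type} [Preorder P] (H : Set P) : Prop where
  down : ∀ p ∈ H, ∀ q ≤ p, q ∈ H
  dense : ∀ p, (∀ q ≤ p, ∃ s ≤ q, s ∈ H) → p ∈ H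

/-- `Φ p f` says that `p` forces the countable set of pairs `f` to belong to a `σ`-closed family
of countable partial isomorphisms with the back-and-forth property, between the structures
(generic substructures of a structure `(E, l, t)` of the ground model) with the universes `H₁` and
`H₂`. -/
structure PosSys {P : Type} [Preorder P] {E : Type} (l : E → E → Prop) (t : E → E → E → Prop)
    (H₁ H₂ : E → Set P) (r : P) (Φ : P → Set (E × E) → Prop) : Prop where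
  ctb : ∀ p ≤ r, ∀ f, Φ p f → f.Countable
  mono : ∀ p ≤ r, ∀ f, Φ p f → ∀ q ≤ p, Φ q f
  ne : ∀ p ≤ r, ∃ q ≤ p, ∃ f, Φ q f
  dom : ∀ p ≤ r, ∀ f, Φ p f → ∀ u v, (u, v) ∈ f → p ∈ H₁ u ∧ p ∈ H₂ v
  fn : ∀ p ≤ r, ∀ f, Φ p f → ∀ u v v', (u, v) ∈ f → (u, v') ∈ f → v = v'
  inj : ∀ p ≤ r, ∀ f, Φ p f → ∀ u u' v, (u, v) ∈ f → (u', v) ∈ f → u = u'
  two : ∀ p ≤ r, ∀ f, Φ p f → ∀ u v u' v', (u, v) ∈ f → (u', v') ∈ f → (l u u' ↔ l v v')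
  three : ∀ p ≤ r, ∀ f, Φ p f → ∀ u v u' v' u'' v'', (u, v) ∈ f → (u', v') ∈ f →
    (u'', v'') ∈ f → (t u u' u'' ↔ t v v' v'')
  ext : ∀ p ≤ r, ∀ f, Φ p f → ∀ S T : Set E, S.Countable → T.Countable →
    (∀ u ∈ S, p ∈ H₁ u) → (∀ v ∈ T, p ∈ H₂ v) →
      ∃ q ≤ p, ∃ g, Φ q g ∧ f ⊆ g ∧ (∀ u ∈ S, ∃ v, (u, v) ∈ g) ∧ (∀ v ∈ T, ∃ u, (u, v) ∈ g)
  closed : ∀ p ≤ r, ∀ C : Set (Set (E × E)), C.Countable → (∀ f ∈ C, Φ p f) →
    (∀ f ∈ C, ∀ g ∈ C, f ⊆ g ∨ g ⊆ f) → ∃ q ≤ p, ∃ h, Φ q h ∧ ∀ f ∈ C, f ⊆ h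

end Pool.Agent.Helper23.PI
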