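import Pool.Agent.Helper23.PI.PS

/-!
# The conditions

`K` is a well-ordered type (the cardinal `(2^ω)⁺`), `W` an uncountable type. Partial functions from
`K` to `W` are represented by their graphs, sets of pairs. The *names* are the countable subsets
of `K`, ordered by end-extension.
-/

namespace Pool.Agent.Helper23.PI

open Set

variable {K W : Type} [LinearOrder K]

/-- `s` is an initial segment of `s'` -/
def Ini (s s' : Set K) : Prop := s ⊆ s' ∧ ∀ a ∈ s', ∀ b ∈ s, a ≤ b → a ∈ s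

/-- `a < ρ(s)`, where `ρ(s)` is the least upper bound of the successors of the elements of `s` -/
def Blw (s : Set K) (a : K) : Prop := ∃ b ∈ s, a ≤ b

/-- the raw data of a condition: a set of ordinals, a set of killed functions, a set of names, the
labels (the graph of a partial function of a name and an ordinal) -/
@[ext]
structure Raw (K W : Type) where
  /-- the ordinals -/
  U : Set K
  /-- the killed functions -/
  Kl : Set (Set (K × W))
  /-- the names -/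
  N : Set (Set K)
  /-- the labels -/
  L : Set (Set K × K × W)

/-- the label of the name `s` -/
def Raw.c (p : Raw K W) (s : Set K) : Set (K × W) := {x | (s, x.1, x.2) ∈ p.L}

/-- conditions -/
structure IsCond (p : Raw K W) : Prop where
  ctU : p.U.Countable
  ctK : p.Kl.Countable
  ctN : p.N.Countable
  ctS : ∀ s ∈ p.N, s.Countable
  ini : ∀ s ∈ p.N, ∀ s', Ini s' s → s' ∈ p.N
  lab : ∀ s a w, (s, a, w) ∈ p.L → s ∈ p.N ∧ a ∈ p.U ∧ Blw s a
  tot : ∀ s ∈ p.N, ∀ a ∈ p.U, Blw s a → ∃ w, (s, a, w) ∈ p.L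
  fn : ∀ s a w w', (s, a, w) ∈ p.L → (s, a, w') ∈ p.L → w = w'
  mon : ∀ s s' a w, Ini s s' → s' ∈ p.N → (s, a, w) ∈ p.L → (s', a, w) ∈ p.L
  kdom : ∀ g ∈ p.Kl, ∀ x ∈ g, x.1 ∈ p.U
  kfn : ∀ g ∈ p.Kl, ∀ a w w', (a, w) ∈ g → (a, w') ∈ g → w = w'
  kmax : ∀ g ∈ p.Kl, ∃ x ∈ g, ∀ y ∈ g, y.1 ≤ x.1
  avoid : ∀ g ∈ p.Kl, ∀ s ∈ p.N, ¬ g ⊆ p.c s

/-- the conditions -/
def Cond (K W : Type) [LinearOrder K] : Type := {p : Raw K W // IsCond p}

instance : PartialOrder (Cond K W) where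
  le q p := p.1.U ⊆ q.1.U ∧ p.1.Kl ⊆ q.1.Kl ∧ p.1.N ⊆ q.1.N ∧ p.1.L ⊆ q.1.L
  le_refl p := ⟨subset_rfl, subset_rfl, subset_rfl, subset_rfl⟩
  le_trans r q p h1 h2 := ⟨h2.1.trans h1.1, h2.2.1.trans h1.2.1, h2.2.2.1.trans h1.2.2.1,
    h2.2.2.2.trans h1.2.2.2⟩
  le_antisymm q p h1 h2 := Subtype.ext (Raw.ext (h2.1.antisymm h1.1) (h2.2.1.antisymm h1.2.1)
    (h2.2.2.1.antisymm h1.2.2.1) (h2.2.2.2.antisymm h1.2.2.2))

instance : OrderTop (Cond K W) where
  top := ⟨⟨∅, ∅, ∅, ∅⟩, by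
    constructor <;> simp⟩
  le_top p := ⟨empty_subset _, empty_subset _, empty_subset _, empty_subset _⟩

theorem Cond.le_iff {p q : Cond K W} : q ≤ p ↔ p.1.U ⊆ q.1.U ∧ p.1.Kl ⊆ q.1.Kl ∧
    p.1.N ⊆ q.1.N ∧ p.1.L ⊆ q.1.L := Iff.rfl

theorem Ini.refl (s : Set K) : Ini s s := ⟨subset_rfl, fun _ ha _ _ _ => ha⟩

theorem Ini.trans {s t u : Set K} (h1 : Ini s t) (h2 : Ini t u) : Ini s u :=
  ⟨h1.1.trans h2.1, fun a ha b hb hab => h1.2 a (h2.2 a ha b (h1.1 hb) hab) b hb hab⟩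

theorem Ini.comparable {s t u : Set K} (h1 : Ini s u) (h2 : Ini t u) : Ini s t ∨ Ini t s := by
  by_cases h : s ⊆ t
  · exact Or.inl ⟨h, fun a ha b hb hab => h1.2 a (h2.1 ha) b hb hab⟩
  · obtain ⟨b, hb, hbt⟩ := not_subset.1 h
    refine Or.inr ⟨fun a ha => h1.2 a (h2.1 ha) b hb ?_,
      fun a ha c hc hac => h2.2 a (h1.1 ha) c hc hac⟩
    by_contra hab
    exact hbt (h2.2 b (h1.1 hb) a ha (not_le.1 hab).le)

theorem Blw.mono {s t : Set K} (h : s ⊆ t) {a : K} (ha : Blw s a) : Blw t a := by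
  obtain ⟨b, hb, hab⟩ := ha
  exact ⟨b, h hb, hab⟩

theorem Blw.le {s : Set K} {a b : K} (ha : Blw s a) (h : b ≤ a) : Blw s b := by
  obtain ⟨c, hc, hac⟩ := ha
  exact ⟨c, hc, h.trans hac⟩

theorem Ini.countable {s t : Set K} (h : Ini s t) (ht : t.Countable) : s.Countable := ht.mono h.1

theorem Raw.mem_c {p : Raw K W} {s : Set K} {x : K × W} : x ∈ p.c s ↔ (s, x.1, x.2) ∈ p.L :=
  Iff.rfl

theorem Raw.c_mono {p q : Raw K W} (h : p.L ⊆ q.L) (s : Set K) : p.c s ⊆ q.c s := fun _ hx => h hx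

/-- the conditions forcing that the function (with the graph) `f` does not contain a killed
function -/
def FF (f : Set (K × W)) : Set (Cond K W) := {p | ∀ q ≤ p, ∀ g ∈ q.1.Kl, ¬ g ⊆ f}

theorem FF_reg (f : Set (K × W)) : RegSet (FF f) where
  down p hp q hq r hr := hp r (hr.trans hq)
  dense p h q hq g hg hgf := by
    obtain ⟨s, hs, h1⟩ := h q hq
    exact h1 s le_rfl g (hs.2.1 hg) hgf

/-- the restriction of a partial function -/
def res (S : Set K) (f : Set (K × W)) : Set (K × W) := {x ∈ f | x.1 ∈ S}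

/-- `f` is (the graph of) a function with the domain `S` -/
def Tot (S : Set K) (f : Set (K × W)) : Prop :=
  (∀ x ∈ f, x.1 ∈ S) ∧ (∀ a ∈ S, ∃ w, (a, w) ∈ f) ∧ ∀ a w w', (a, w) ∈ f → (a, w') ∈ f → w = w'

/-- restrictions of labels are not killed -/
theorem FF_label (p : Cond K W) {s : Set K} (hs : s ∈ p.1.N) {f : Set (K × W)}
    (hf : f ⊆ p.1.c s) : p ∈ FF f := by
  intro q hq g hg hgf
  exact q.2.avoid g hg s (hq.2.2.1 hs) ((hgf.trans hf).trans (Raw.c_mono hq.2.2.2 s))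

end Pool.Agent.Helper23.PI
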