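import Pool.Agent.Helper23.PI.Cond

/-!
# Basic properties of the conditions
-/

namespace Pool.Agent.Helper23.PI

open Set

set_option linter.unusedSectionVars false

variable {K W : Type} [LinearOrder K]

/-- the union of a decreasing sequence of conditions -/
def limRaw (p : ℕ → Cond K W) : Raw K W where
  U := ⋃ n, (p n).1.U
  Kl := ⋃ n, (p n).1.Kl
  N := ⋃ n, (p n).1.N
  L := ⋃ n, (p n).1.L

theorem lim_c {p : ℕ → Cond K W} (hp : Antitone p) {s : Set K} {a : K} {w : W}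
    (h : (s, a, w) ∈ (limRaw p).L) {n : ℕ} (hs : s ∈ (p n).1.N) (ha : a ∈ (p n).1.U) :
    (s, a, w) ∈ (p n).1.L := by
  obtain ⟨m, hm⟩ := mem_iUnion.1 h
  have h1 := (p m).2.lab _ _ _ hm
  obtain ⟨w', hw'⟩ := (p n).2.tot s hs a ha h1.2.2
  have h2 : (s, a, w) ∈ (p (max m n)).1.L := (hp (le_max_left m n)).2.2.2 hm
  have h3 : (s, a, w') ∈ (p (max m n)).1.L := (hp (le_max_right m n)).2.2.2 hw'
  rw [(p (max m n)).2.fn _ _ _ _ h2 h3]
  exact hw'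

theorem lim_cond {p : ℕ → Cond K W} (hp : Antitone p) : IsCond (limRaw p) where
  ctU := countable_iUnion fun n => (p n).2.ctU
  ctK := countable_iUnion fun n => (p n).2.ctK
  ctN := countable_iUnion fun n => (p n).2.ctN
  ctS s hs := by
    obtain ⟨n, hn⟩ := mem_iUnion.1 hs
    exact (p n).2.ctS s hn
  ini s hs s' h := by
    obtain ⟨n, hn⟩ := mem_iUnion.1 hs
    exact mem_iUnion.2 ⟨n, (p n).2.ini s hn s' h⟩
  lab s a w h := by
    obtain ⟨n, hn⟩ := mem_iUnion.1 h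
    have h1 := (p n).2.lab _ _ _ hn
    exact ⟨mem_iUnion.2 ⟨n, h1.1⟩, mem_iUnion.2 ⟨n, h1.2.1⟩, h1.2.2⟩
  tot s hs a ha h := by
    obtain ⟨n, hn⟩ := mem_iUnion.1 hs
    obtain ⟨m, hm⟩ := mem_iUnion.1 ha
    obtain ⟨w, hw⟩ := (p (max n m)).2.tot s ((hp (le_max_left n m)).2.2.1 hn) a
      ((hp (le_max_right n m)).1 hm) h
    exact ⟨w, mem_iUnion.2 ⟨_, hw⟩⟩
  fn s a w w' h h' := by
    obtain ⟨n, hn⟩ := mem_iUnion.1 h
    obtain ⟨m, hm⟩ := mem_iUnion.1 h'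
    exact (p (max n m)).2.fn s a w w' ((hp (le_max_left n m)).2.2.2 hn)
      ((hp (le_max_right n m)).2.2.2 hm)
  mon s s' a w h hs' hl := by
    obtain ⟨n, hn⟩ := mem_iUnion.1 hl
    obtain ⟨m, hm⟩ := mem_iUnion.1 hs'
    exact mem_iUnion.2 ⟨_, (p (max n m)).2.mon s s' a w h ((hp (le_max_right n m)).2.2.1 hm)
      ((hp (le_max_left n m)).2.2.2 hn)⟩
  kdom g hg x hx := by
    obtain ⟨n, hn⟩ := mem_iUnion.1 hg
    exact mem_iUnion.2 ⟨n, (p n).2.kdom g hn x hx⟩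
  kfn g hg := by
    obtain ⟨n, hn⟩ := mem_iUnion.1 hg
    exact (p n).2.kfn g hn
  kmax g hg := by
    obtain ⟨n, hn⟩ := mem_iUnion.1 hg
    exact (p n).2.kmax g hn
  avoid g hg s hs h := by
    obtain ⟨n, hn⟩ := mem_iUnion.1 hg
    obtain ⟨m, hm⟩ := mem_iUnion.1 hs
    refine (p (max n m)).2.avoid g ((hp (le_max_left n m)).2.1 hn) s
      ((hp (le_max_right n m)).2.2.1 hm) fun x hx => ?_
    exact lim_c hp (h hx) ((hp (le_max_right n m)).2.2.1 hm)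
      ((hp (le_max_left n m)).1 ((p n).2.kdom g hn x hx))

/-- the lower bound of a decreasing sequence -/
def lim (p : ℕ → Cond K W) (hp : Antitone p) : Cond K W := ⟨limRaw p, lim_cond hp⟩

theorem lim_le (p : ℕ → Cond K W) (hp : Antitone p) (n : ℕ) : lim p hp ≤ p n :=
  ⟨subset_iUnion (fun n => (p n).1.U) n, subset_iUnion (fun n => (p n).1.Kl) n,
    subset_iUnion (fun n => (p n).1.N) n, subset_iUnion (fun n => (p n).1.L) n⟩

theorem sigmaClosed : SigmaClosed (Cond K W) := fun p hp => ⟨lim p hp, lim_le p hp⟩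

/-- adding a countable set of ordinals -/
theorem add_set (p : Cond K W) {S : Set K} (hS : S.Countable) (v : Set K → K → W)
    (hv : ∀ s s' a, Ini s s' → s' ∈ p.1.N → Blw s a → v s a = v s' a) :
    ∃ q ≤ p, q.1.U = p.1.U ∪ S ∧ q.1.Kl = p.1.Kl ∧ q.1.N = p.1.N ∧
      q.1.L = p.1.L ∪ {x | x.1 ∈ p.1.N ∧ x.2.1 ∈ S ∧ x.2.1 ∉ p.1.U ∧ Blw x.1 x.2.1 ∧
        x.2.2 = v x.1 x.2.1} := by
  classical
  refine ⟨⟨⟨p.1.U ∪ S, p.1.Kl, p.1.N, p.1.L ∪ {x | x.1 ∈ p.1.N ∧ x.2.1 ∈ S ∧ x.2.1 ∉ p.1.U ∧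
    Blw x.1 x.2.1 ∧ x.2.2 = v x.1 x.2.1}⟩, ?_⟩, ⟨subset_union_left, subset_rfl, subset_rfl,
      subset_union_left⟩, rfl, rfl, rfl, rfl⟩
  constructor
  · exact p.2.ctU.union hS
  · exact p.2.ctK
  · exact p.2.ctN
  · exact p.2.ctS
  · exact p.2.ini
  · rintro s a w (h | h)
    · have h1 := p.2.lab _ _ _ h
      exact ⟨h1.1, Or.inl h1.2.1, h1.2.2⟩
    · exact ⟨h.1, Or.inr h.2.1, h.2.2.2.1⟩
  · intro s hs a ha hb
    by_cases hU : a ∈ p.1.U
    · obtain ⟨w, hw⟩ := p.2.tot s hs a hU hb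
      exact ⟨w, Or.inl hw⟩
    · rcases ha with ha | ha
      · exact (hU ha).elim
      · exact ⟨v s a, Or.inr ⟨hs, ha, hU, hb, rfl⟩⟩
  · rintro s a w w' (h | h) (h' | h')
    · exact p.2.fn _ _ _ _ h h'
    · exact (h'.2.2.1 (p.2.lab _ _ _ h).2.1).elim
    · exact (h.2.2.1 (p.2.lab _ _ _ h').2.1).elim
    · exact h.2.2.2.2.trans h'.2.2.2.2.symm
  · rintro s s' a w h hs' (hl | hl)
    · exact Or.inl (p.2.mon s s' a w h hs' hl)
    · refine Or.inr ⟨hs', hl.2.1, hl.2.2.1, hl.2.2.2.1.mono h.1, ?_⟩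
      exact hl.2.2.2.2.trans (hv s s' a h hs' hl.2.2.2.1)
  · exact fun g hg x hx => Or.inl (p.2.kdom g hg x hx)
  · exact p.2.kfn
  · exact p.2.kmax
  · intro g hg s hs h
    refine p.2.avoid g hg s hs fun x hx => ?_
    rcases h hx with h1 | h1
    · exact h1
    · exact (h1.2.2.1 (p.2.kdom g hg x hx)).elim

theorem add_set' [Nonempty W] (p : Cond K W) {S : Set K} (hS : S.Countable) :
    ∃ q ≤ p, q.1.U = p.1.U ∪ S ∧ q.1.Kl = p.1.Kl ∧ q.1.N = p.1.N := by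
  obtain ⟨q, h1, h2, h3, h4, -⟩ := add_set p hS (fun _ _ => Classical.arbitrary W)
    (fun _ _ _ _ _ _ => rfl)
  exact ⟨q, h1, h2, h3, h4⟩

theorem kl_countable (p : Cond K W) {g : Set (K × W)} (hg : g ∈ p.1.Kl) : g.Countable := by
  have h1 : (Prod.fst '' g).Countable := p.2.ctU.mono (by
    rintro _ ⟨x, hx, rfl⟩
    exact p.2.kdom g hg x hx)
  refine countable_of_injective_of_countable_image (f := Prod.fst) ?_ h1
  rintro ⟨a, w⟩ h ⟨b, w'⟩ h' (rfl : a = b)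
  rw [p.2.kfn g hg a w w' h h']

/-- a value not used by the killed functions -/
theorem fresh [Uncountable W] (p : Cond K W) : ∃ w : W, ∀ g ∈ p.1.Kl, ∀ x ∈ g, x.2 ≠ w := by
  have h1 : (⋃ g ∈ p.1.Kl, Prod.snd '' g).Countable :=
    p.2.ctK.biUnion fun g hg => (kl_countable p hg).image _
  by_contra hc
  push Not at hc
  refine not_countable_univ (α := W) (h1.mono fun w _ => ?_)
  obtain ⟨g, hg, x, hx, rfl⟩ := hc w
  exact mem_biUnion hg ⟨x, hx, rfl⟩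

theorem ini_countable [WellFoundedLT K] {s : Set K} (hs : s.Countable) :
    {s' : Set K | Ini s' s}.Countable := by
  have h1 : {s' : Set K | Ini s' s} ⊆ insert s ((fun a => s ∩ Iio a) '' s) := by
    intro s' h
    by_cases he : s' = s
    · exact Or.inl he
    · right
      have hne : (s \ s').Nonempty := by
        by_contra hc
        rw [not_nonempty_iff_eq_empty, sdiff_eq_empty] at hc
        exact he (h.1.antisymm hc)
      obtain ⟨a, ha, hmin⟩ := WellFounded.has_min (wellFounded_lt (α := K)) _ hne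
      refine ⟨a, ha.1, ?_⟩
      ext b
      constructor
      · rintro ⟨hb, hba⟩
        by_contra hbs
        exact hmin b ⟨hb, hbs⟩ hba
      · intro hb
        refine ⟨h.1 hb, ?_⟩
        by_contra hba
        exact ha.2 (h.2 a ha.1 b hb (not_lt.1 hba))
  exact ((hs.image _).insert s).mono h1

/-- adding a name -/
theorem add_name [WellFoundedLT K] [Uncountable W] (p : Cond K W) {s : Set K} (hs : s.Countable) :
    ∃ q ≤ p, s ∈ q.1.N ∧ q.1.U = p.1.U ∧ q.1.Kl = p.1.Kl := by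
  classical
  obtain ⟨w₀, hw₀⟩ := fresh p
  let C : Set K → K → Set K → Prop := fun s' a s'' => s'' ∈ p.1.N ∧ Ini s'' s' ∧ Blw s'' a
  let Lw : Set (Set K × K × W) := {x | x.1 ∉ p.1.N ∧ Ini x.1 s ∧ x.2.1 ∈ p.1.U ∧ Blw x.1 x.2.1 ∧
    ((∃ s'', C x.1 x.2.1 s'' ∧ (s'', x.2.1, x.2.2) ∈ p.1.L) ∨
      ((∀ s'', ¬ C x.1 x.2.1 s'') ∧ x.2.2 = w₀))}
  have huni : ∀ s' a s₁ s₂ w w', C s' a s₁ → C s' a s₂ → (s₁, a, w) ∈ p.1.L →
      (s₂, a, w') ∈ p.1.L → w = w' := by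
    rintro s' a s₁ s₂ w w' h1 h2 h3 h4
    rcases Ini.comparable h1.2.1 h2.2.1 with h5 | h5
    · exact p.2.fn _ _ _ _ (p.2.mon _ _ _ _ h5 h2.1 h3) h4
    · exact p.2.fn _ _ _ _ h3 (p.2.mon _ _ _ _ h5 h1.1 h4)
  refine ⟨⟨⟨p.1.U, p.1.Kl, p.1.N ∪ {s' | Ini s' s}, p.1.L ∪ Lw⟩, ?_⟩, ⟨subset_rfl, subset_rfl,
    subset_union_left, subset_union_left⟩, Or.inr (Ini.refl s), rfl, rfl⟩
  constructor
  · exact p.2.ctU
  · exact p.2.ctK
  · exact p.2.ctN.union (ini_countable hs)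
  · rintro t (ht | ht)
    · exact p.2.ctS t ht
    · exact Ini.countable ht hs
  · rintro t (ht | ht) t' h
    · exact Or.inl (p.2.ini t ht t' h)
    · exact Or.inr (h.trans ht)
  · rintro t a w (h | h)
    · have h1 := p.2.lab _ _ _ h
      exact ⟨Or.inl h1.1, h1.2⟩
    · exact ⟨Or.inr h.2.1, h.2.2.1, h.2.2.2.1⟩
  · intro t ht a ha hb
    by_cases hN : t ∈ p.1.N
    · obtain ⟨w, hw⟩ := p.2.tot t hN a ha hb
      exact ⟨w, Or.inl hw⟩
    · have hts : Ini t s := ht.resolve_left hN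
      by_cases hC : ∃ s'', C t a s''
      · obtain ⟨s'', hs''⟩ := hC
        obtain ⟨w, hw⟩ := p.2.tot s'' hs''.1 a ha hs''.2.2
        exact ⟨w, Or.inr ⟨hN, hts, ha, hb, Or.inl ⟨s'', hs'', hw⟩⟩⟩
      · push Not at hC
        exact ⟨w₀, Or.inr ⟨hN, hts, ha, hb, Or.inr ⟨hC, rfl⟩⟩⟩
  · rintro t a w w' (h | h) (h' | h')
    · exact p.2.fn _ _ _ _ h h'
    · exact (h'.1 (p.2.lab _ _ _ h).1).elim
    · exact (h.1 (p.2.lab _ _ _ h').1).elim
    · rcases h.2.2.2.2 with ⟨s₁, h1, h2⟩ | ⟨h1, h2⟩ <;>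
        rcases h'.2.2.2.2 with ⟨s₂, h3, h4⟩ | ⟨h3, h4⟩
      · exact huni _ _ _ _ _ _ h1 h3 h2 h4
      · exact (h3 s₁ h1).elim
      · exact (h1 s₂ h3).elim
      · exact h2.trans h4.symm
  · rintro t t' a w h ht' (hl | hl)
    · by_cases hN : t' ∈ p.1.N
      · exact Or.inl (p.2.mon t t' a w h hN hl)
      · have h1 := p.2.lab _ _ _ hl
        exact Or.inr ⟨hN, ht'.resolve_left hN, h1.2.1, h1.2.2.mono h.1,
          Or.inl ⟨t, ⟨h1.1, h, h1.2.2⟩, hl⟩⟩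
    · have hN : t' ∉ p.1.N := fun hN => hl.1 (p.2.ini t' hN t h)
      refine Or.inr ⟨hN, ht'.resolve_left hN, hl.2.2.1, hl.2.2.2.1.mono h.1, ?_⟩
      rcases hl.2.2.2.2 with ⟨s₁, h1, h2⟩ | ⟨h1, h2⟩
      · exact Or.inl ⟨s₁, ⟨h1.1, h1.2.1.trans h, h1.2.2⟩, h2⟩
      · refine Or.inr ⟨?_, h2⟩
        rintro s₁ ⟨h3, h4, h5⟩
        rcases Ini.comparable h4 h with h6 | h6
        · exact h1 s₁ ⟨h3, h6, h5⟩
        · exact hl.1 (p.2.ini s₁ h3 t h6)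
  · exact p.2.kdom
  · exact p.2.kfn
  · exact p.2.kmax
  · intro g hg t ht h
    by_cases hN : t ∈ p.1.N
    · refine p.2.avoid g hg t hN fun x hx => ?_
      rcases h hx with h1 | h1
      · exact h1
      · exact (h1.1 hN).elim
    · obtain ⟨x, hx, hmax⟩ := p.2.kmax g hg
      have hg' : ∀ y ∈ g, (t, y.1, y.2) ∈ Lw := by
        intro y hy
        rcases h hy with h1 | h1
        · exact (hN (p.2.lab _ _ _ h1).1).elim
        · exact h1
      rcases (hg' x hx).2.2.2.2 with ⟨s₁, h1, h2⟩ | ⟨-, h2⟩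
      · refine p.2.avoid g hg s₁ h1.1 fun y hy => ?_
        have hb : Blw s₁ y.1 := h1.2.2.le (hmax y hy)
        have hCy : C t y.1 s₁ := ⟨h1.1, h1.2.1, hb⟩
        obtain ⟨w, hw⟩ := p.2.tot s₁ h1.1 y.1 (p.2.kdom g hg y hy) hb
        rcases (hg' y hy).2.2.2.2 with ⟨s₂, h3, h4⟩ | ⟨h3, -⟩
        · have h5 : y.2 = w := huni _ _ _ _ _ _ h3 hCy h4 hw
          change (s₁, y.1, y.2) ∈ p.1.L
          rw [h5]
          exact hw
        · exact (h3 s₁ hCy).elim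
      · exact hw₀ g hg x hx h2

/-- adding a name above a given one, that catches a given countable set -/
theorem add_above [WellFoundedLT K] [Uncountable W]
    (hK : ∀ S : Set K, S.Countable → ∃ a, ∀ b ∈ S, b < a) (p : Cond K W) {s S : Set K}
    (hs : s.Countable) (hS : S.Countable) :
    ∃ q ≤ p, ∃ s' ∈ q.1.N, Ini s s' ∧ S ⊆ q.1.U ∧ ∀ a ∈ S, Blw s' a := by
  obtain ⟨a, ha⟩ := hK (s ∪ S) (hs.union hS)
  obtain ⟨q, hq, hqU, -, -⟩ := add_set' p hS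
  obtain ⟨r, hr, hr1, hr2, -⟩ := add_name q (s := insert a s) (hs.insert a)
  refine ⟨r, hr.trans hq, insert a s, hr1, ⟨subset_insert _ _, ?_⟩, ?_, ?_⟩
  · rintro b (rfl | hb) c hc hbc
    · exact absurd (ha c (Or.inl hc)) (not_lt.2 hbc)
    · exact hb
  · rw [hr2, hqU]
    exact subset_union_right
  · exact fun b hb => ⟨a, Or.inl rfl, (ha b (Or.inr hb)).le⟩

end Pool.Agent.Helper23.PI
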