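import Pool.Agent.Helper23.PI.Cond2

/-!
# Abstract systems of positions; the catching lemma
-/

namespace Pool.Agent.Helper23.PI

open Set

set_option linter.unusedSectionVars false

variable {K W : Type} [LinearOrder K]

/-- An abstract system of positions: a position `z` consists of a condition `p z`, finitely many
functions `F z i` with the domain `S z`, and a further part `lam z`. -/
structure Cre (K W : Type) [LinearOrder K] (I Λ : Type) where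
  Z : Type
  p : Z → Cond K W
  S : Z → Set K
  F : Z → I → Set (K × W)
  lam : Z → Λ
  le : Z → Z → Prop
  refl : ∀ z, le z z
  trans : ∀ x y z, le x y → le y z → le x z
  ctS : ∀ z, (S z).Countable
  subU : ∀ z, S z ⊆ (p z).1.U
  totF : ∀ z i, Tot (S z) (F z i)
  ff : ∀ z i, p z ∈ FF (F z i)
  le_p : ∀ z' z, le z' z → p z' ≤ p z
  le_S : ∀ z' z, le z' z → S z ⊆ S z'
  le_F : ∀ z' z, le z' z → ∀ i, F z i ⊆ F z' i
  z0 : Z
  le0 : ∀ z, le z z0
  dist : ∀ i j, F z0 i = F z0 j → i = j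
  ext : ∀ z q (T : Set K), q ≤ p z → T.Countable → ∃ z', le z' z ∧ p z' ≤ q ∧ T ⊆ S z'
  limit : ∀ (z : ℕ → Z) q, (∀ n, le (z (n + 1)) (z n)) → (∀ n, q ≤ p (z n)) →
    ∃ z', (∀ n, le z' (z n)) ∧ p z' ≤ q
  join : ∀ z z₁ q (T : Set K), lam z = lam z₁ → q ≤ p z → q ≤ p z₁ → T.Countable →
    (∀ z', le z' z → p z' ≤ q → S z₁ ⊆ S z' → ∀ i, F z₁ i ⊆ F z' i) →
      ∃ z', le z' z ∧ le z' z₁ ∧ p z' ≤ q ∧ T ⊆ S z'

variable {I Λ : Type}

namespace Cre

variable (c : Cre K W I Λ)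

theorem anti {z : ℕ → c.Z} (hz : ∀ n, c.le (z (n + 1)) (z n)) {m n : ℕ} (h : m ≤ n) :
    c.le (z n) (z m) := by
  induction n, h using Nat.le_induction with
  | base => exact c.refl _
  | succ n _ ih => exact c.trans _ _ _ (hz n) ih

/-- the name `s` is defeated by `F z i` below `ξ` -/
def Def (i : I) (ξ : K) (z : c.Z) (s : Set K) : Prop :=
  ∃ x ∈ c.F z i, x.1 ≤ ξ ∧ ∃ w, (s, x.1, w) ∈ (c.p z).1.L ∧ w ≠ x.2

theorem Def.mono {i : I} {ξ : K} {z z' : c.Z} {s : Set K} (h : c.Def i ξ z s) (hz : c.le z' z) :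
    c.Def i ξ z' s := by
  obtain ⟨x, hx, hxξ, w, hw, hne⟩ := h
  exact ⟨x, c.le_F _ _ hz i hx, hxξ, w, (c.le_p _ _ hz).2.2.2 hw, hne⟩

/-- **The catching lemma, for one function.** -/
theorem catch1 (z : c.Z) (ξ : K) (i : I) : ∃ z', c.le z' z ∧ ∃ s ∈ (c.p z').1.N, Blw s ξ ∧
    ∀ z'', c.le z'' z' → ∀ x ∈ c.F z'' i, x.1 ≤ ξ → (s, x.1, x.2) ∈ (c.p z'').1.L := by
  classical
  by_contra hcon
  push Not at hcon
  -- one name can be defeated
  have h1 : ∀ z', c.le z' z → ∀ s ∈ (c.p z').1.N, Blw s ξ → ∃ z'', c.le z'' z' ∧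
      c.Def i ξ z'' s := by
    intro z' hz' s hs hb
    obtain ⟨z'', hz'', x, hx, hxξ, hL⟩ := hcon z' hz' s hs hb
    refine ⟨z'', hz'', x, hx, hxξ, ?_⟩
    obtain ⟨w, hw⟩ := (c.p z'').2.tot s ((c.le_p _ _ hz'').2.2.1 hs) x.1
      (c.subU _ ((c.totF z'' i).1 x hx)) (hb.le hxξ)
    exact ⟨w, hw, fun he => hL (he ▸ hw)⟩
  -- all the names of a position can be defeated
  have h2 : ∀ z' : {z' // c.le z' z}, ∃ z'' : {z' // c.le z' z}, c.le z''.1 z'.1 ∧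
      ∀ s ∈ (c.p z'.1).1.N, Blw s ξ → c.Def i ξ z''.1 s := by
    rintro ⟨z', hz'⟩
    have : Nonempty (Set K) := ⟨∅⟩
    obtain ⟨e, he⟩ : ∃ e : ℕ → Set K, (c.p z').1.N ⊆ range e := by
      rcases (c.p z').1.N.eq_empty_or_nonempty with h | h
      · exact ⟨fun _ => ∅, by rw [h]; exact empty_subset _⟩
      · obtain ⟨e, he⟩ := (c.p z').2.ctN.exists_eq_range h
        exact ⟨e, he.le⟩
    have h3 : ∀ (n : ℕ) (y : {y // c.le y z'}), ∃ y' : {y // c.le y z'}, c.le y'.1 y.1 ∧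
        (e n ∈ (c.p z').1.N → Blw (e n) ξ → c.Def i ξ y'.1 (e n)) := by
      rintro n ⟨y, hy⟩
      by_cases h : e n ∈ (c.p z').1.N ∧ Blw (e n) ξ
      · obtain ⟨y', hy', hd⟩ := h1 y (c.trans _ _ _ hy hz') (e n) ((c.le_p _ _ hy).2.2.1 h.1) h.2
        exact ⟨⟨y', c.trans _ _ _ hy' hy⟩, hy', fun _ _ => hd⟩
      · exact ⟨⟨y, hy⟩, c.refl _, fun h4 h5 => (h ⟨h4, h5⟩).elim⟩
    choose f hf1 hf2 using h3
    let y : ℕ → {y // c.le y z'} := fun n => Nat.rec ⟨z', c.refl _⟩ (fun n y => f n y) n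
    have hy : ∀ n, y (n + 1) = f n (y n) := fun n => rfl
    have hanti : ∀ n, c.le (y (n + 1)).1 (y n).1 := fun n => by rw [hy]; exact hf1 n _
    have hA : Antitone (fun n => c.p (y n).1) := antitone_nat_of_succ_le fun n =>
      c.le_p _ _ (hanti n)
    obtain ⟨z'', hz'', -⟩ := c.limit (fun n => (y n).1) (lim _ hA) hanti (lim_le _ hA)
    have hz0 : c.le z'' z' := hz'' 0
    refine ⟨⟨z'', c.trans _ _ _ hz0 hz'⟩, hz0, ?_⟩
    intro s hs hb
    obtain ⟨n, rfl⟩ := he hs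
    have h4 := hf2 n (y n) hs hb
    rw [← hy] at h4
    exact Def.mono c h4 (hz'' (n + 1))
  choose g hg1 hg2 using h2
  obtain ⟨z1, hz1, -, hξ⟩ := c.ext z (c.p z) {ξ} le_rfl (countable_singleton ξ)
  let y : ℕ → {z' // c.le z' z} := fun n => Nat.rec ⟨z1, hz1⟩ (fun _ y => g y) n
  have hy0 : y 0 = ⟨z1, hz1⟩ := rfl
  have hy : ∀ n, y (n + 1) = g (y n) := fun n => rfl
  have hanti : ∀ n, c.le (y (n + 1)).1 (y n).1 := fun n => by rw [hy]; exact hg1 _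
  have hA : Antitone (fun n => c.p (y n).1) := antitone_nat_of_succ_le fun n =>
    c.le_p _ _ (hanti n)
  let q := lim _ hA
  let G : Set (K × W) := {x | (∃ n, x ∈ c.F (y n).1 i) ∧ x.1 ≤ ξ}
  have hq : ∀ n, q ≤ c.p (y n).1 := lim_le _ hA
  obtain ⟨w, hw⟩ := (c.totF (y 0).1 i).2.1 ξ (by rw [hy0]; exact hξ rfl)
  have hcond : IsCond (⟨q.1.U, insert G q.1.Kl, q.1.N, q.1.L⟩ : Raw K W) := by
    constructor
    · exact q.2.ctU
    · exact q.2.ctK.insert G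
    · exact q.2.ctN
    · exact q.2.ctS
    · exact q.2.ini
    · exact q.2.lab
    · exact q.2.tot
    · exact q.2.fn
    · exact q.2.mon
    · rintro g' (rfl | hg') x hx
      · obtain ⟨⟨n, hn⟩, -⟩ := hx
        exact (hq n).1 (c.subU _ ((c.totF _ i).1 x hn))
      · exact q.2.kdom g' hg' x hx
    · rintro g' (rfl | hg') a w w' h h'
      · obtain ⟨⟨n, hn⟩, -⟩ := h
        obtain ⟨⟨m, hm⟩, -⟩ := h'
        exact (c.totF (y (max n m)).1 i).2.2 a w w'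
          (c.le_F _ _ (c.anti (z := fun n => (y n).1) hanti (le_max_left n m)) i hn)
          (c.le_F _ _ (c.anti (z := fun n => (y n).1) hanti (le_max_right n m)) i hm)
      · exact q.2.kfn g' hg' a w w' h h'
    · rintro g' (rfl | hg')
      · exact ⟨(ξ, w), ⟨⟨0, hw⟩, le_rfl⟩, fun x hx => hx.2⟩
      · exact q.2.kmax g' hg'
    · rintro g' (rfl | hg') s hs h
      · by_cases hb : Blw s ξ
        · obtain ⟨n, hn⟩ := mem_iUnion.1 hs
          have h3 := hg2 (y n) s hn hb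
          rw [← hy] at h3
          obtain ⟨x, hx, hxξ, w', hw', hne⟩ := h3
          have h4 : (s, x.1, x.2) ∈ q.1.L := h ⟨⟨n + 1, hx⟩, hxξ⟩
          exact hne (q.2.fn _ _ _ _ ((hq (n + 1)).2.2.2 hw') h4)
        · have h4 : (s, ξ, w) ∈ q.1.L := h ⟨⟨0, hw⟩, le_rfl⟩
          exact hb (q.2.lab _ _ _ h4).2.2
      · exact q.2.avoid g' hg' s hs h
  let q' : Cond K W := ⟨_, hcond⟩
  have hq' : q' ≤ q := ⟨subset_rfl, subset_insert _ _, subset_rfl, subset_rfl⟩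
  obtain ⟨z', hz', hp⟩ := c.limit (fun n => (y n).1) q' hanti (fun n => hq'.trans (hq n))
  have h5 := c.ff z' i (c.p z') le_rfl G (hp.2.1 (mem_insert _ _))
  refine h5 ?_
  rintro x ⟨⟨n, hn⟩, -⟩
  exact c.le_F _ _ (hz' n) i hn

/-- **The catching lemma.** -/
theorem catchAll [Finite I] (z : c.Z) (ξ : K) : ∃ z', c.le z' z ∧ ∃ σ : I → Set K,
    ∀ i, σ i ∈ (c.p z').1.N ∧ Blw (σ i) ξ ∧
      ∀ z'', c.le z'' z' → ∀ x ∈ c.F z'' i, x.1 ≤ ξ → (σ i, x.1, x.2) ∈ (c.p z'').1.L := by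
  classical
  have : Fintype I := Fintype.ofFinite I
  have key : ∀ J : Finset I, ∃ z', c.le z' z ∧ ∃ σ : I → Set K,
      ∀ i ∈ J, σ i ∈ (c.p z').1.N ∧ Blw (σ i) ξ ∧
        ∀ z'', c.le z'' z' → ∀ x ∈ c.F z'' i, x.1 ≤ ξ → (σ i, x.1, x.2) ∈ (c.p z'').1.L := by
    intro J
    induction J using Finset.induction_on with
    | empty => exact ⟨z, c.refl z, fun _ => ∅, by simp⟩
    | insert i J hi ih =>
      obtain ⟨z1, hz1, σ, hσ⟩ := ih
      obtain ⟨z2, hz2, s, hs, hb, h⟩ := c.catch1 z1 ξ i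
      refine ⟨z2, c.trans _ _ _ hz2 hz1, Function.update σ i s, ?_⟩
      intro j hj
      rcases Finset.mem_insert.1 hj with rfl | hj
      · rw [Function.update_self]
        exact ⟨hs, hb, h⟩
      · have hne : j ≠ i := fun he => hi (he ▸ hj)
        rw [Function.update_of_ne hne]
        obtain ⟨h1, h2, h3⟩ := hσ j hj
        exact ⟨(c.le_p _ _ hz2).2.2.1 h1, h2, fun z'' hz'' => h3 z'' (c.trans _ _ _ hz'' hz2)⟩
  obtain ⟨z', hz', σ, hσ⟩ := key Finset.univ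
  exact ⟨z', hz', σ, fun i => hσ i (Finset.mem_univ i)⟩

end Cre

end Pool.Agent.Helper23.PI
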