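import Pool.Agent.Helper23.PI.St
import Pool.Agent.Helper23.PI.Cond2

/-!
# The back-and-forth systems between `A` and `D` and between `D` and `B`
-/

namespace Pool.Agent.Helper23.PI

open Set

set_option linter.unusedSectionVars false

/-! ### The countable ordinals -/

theorem O1.countable_Iio (a : O1) : (Iio a).Countable := by
  have h : Cardinal.mk (Iio a) < Cardinal.aleph 1 := by simpa using Cardinal.mk_Iio_lt a
  rw [← Cardinal.le_aleph0_iff_set_countable]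
  rw [← Order.lt_succ_iff, Cardinal.succ_aleph0]
  exact h

theorem O1.countable_Iic (a : O1) : (Iic a).Countable := by
  rw [← Iio_insert]
  exact (O1.countable_Iio a).insert a

theorem O1.not_countable : ¬ (univ : Set O1).Countable := by
  intro h
  rw [← Cardinal.le_aleph0_iff_set_countable, Cardinal.mk_univ, Cardinal.mk_ord_toType] at h
  exact absurd h (not_le.2 Cardinal.aleph0_lt_aleph_one)

theorem O1.bdd {S : Set O1} (hS : S.Countable) : ∃ a, ∀ b ∈ S, b < a := by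
  by_contra hc
  push Not at hc
  refine O1.not_countable ((hS.biUnion fun b _ => O1.countable_Iic b).mono fun a _ => ?_)
  obtain ⟨b, hb, hab⟩ := hc a
  exact mem_biUnion hb hab

/-! ### Partial injections -/

/-- countable partial injections -/
structure PInj {X Y : Type} (f : Set (X × Y)) : Prop where
  ctb : f.Countable
  fn : ∀ u v v', (u, v) ∈ f → (u, v') ∈ f → v = v'
  inj : ∀ u u' v, (u, v) ∈ f → (u', v) ∈ f → u = u'

theorem PInj.swap {X Y : Type} {f : Set (X × Y)} (h : PInj f) :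
    PInj {x : Y × X | (x.2, x.1) ∈ f} where
  ctb := h.ctb.preimage Prod.swap_injective
  fn _ _ _ h1 h2 := h.inj _ _ _ h1 h2
  inj _ _ _ h1 h2 := h.fn _ _ _ h1 h2

/-- extension of a partial injection to a countable set of new elements -/
theorem PInj.extend {X Y : Type} {f : Set (X × Y)} (h : PInj f) {S : Set X} (hS : S.Countable)
    {V : Set Y} (hV : ¬ V.Countable) : ∃ g, PInj g ∧ f ⊆ g ∧ (∀ u ∈ S, ∃ v, (u, v) ∈ g) ∧
      ∀ u v, (u, v) ∈ g → (u, v) ∈ f ∨ (u ∈ S ∧ (∀ v', (u, v') ∉ f) ∧ v ∈ V) := by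
  classical
  set S' : Set X := {u ∈ S | ∀ v', (u, v') ∉ f} with hS'
  have hS'c : S'.Countable := hS.mono fun _ hx => hx.1
  set V' : Set Y := V \ (Prod.snd '' f) with hV'
  have hV'i : V'.Infinite := by
    intro hfin
    refine hV ((hfin.countable.union (h.ctb.image Prod.snd)).mono fun v hv => ?_)
    by_cases hc : v ∈ Prod.snd '' f
    · exact Or.inr hc
    · exact Or.inl ⟨hv, hc⟩
  obtain ⟨e, he⟩ := hS'c.exists_injective_nat'
  let φ := hV'i.natEmbedding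
  let ψ : S' → Y := fun u => (φ (e u) : Y)
  have hψ : Function.Injective ψ := fun u u' huu => he (φ.injective (Subtype.ext huu))
  have hψV : ∀ u, ψ u ∈ V' := fun u => (φ (e u)).2
  have : Countable S' := hS'c.to_subtype
  refine ⟨f ∪ range fun u : S' => ((u : X), ψ u), ⟨h.ctb.union (countable_range _), ?_, ?_⟩,
    subset_union_left, ?_, ?_⟩
  · rintro u v v' (h1 | ⟨w, hw⟩) (h2 | ⟨w', hw'⟩)
    · exact h.fn _ _ _ h1 h2
    · rw [Prod.mk.injEq] at hw'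
      obtain ⟨rfl, rfl⟩ := hw'
      exact (w'.2.2 v h1).elim
    · rw [Prod.mk.injEq] at hw
      obtain ⟨rfl, rfl⟩ := hw
      exact (w.2.2 v' h2).elim
    · rw [Prod.mk.injEq] at hw hw'
      obtain ⟨rfl, rfl⟩ := hw
      obtain ⟨h3, rfl⟩ := hw'
      rw [Subtype.ext h3]
  · rintro u u' v (h1 | ⟨w, hw⟩) (h2 | ⟨w', hw'⟩)
    · exact h.inj _ _ _ h1 h2
    · rw [Prod.mk.injEq] at hw'
      obtain ⟨rfl, rfl⟩ := hw'
      exact ((hψV w').2 ⟨_, h1, rfl⟩).elim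
    · rw [Prod.mk.injEq] at hw
      obtain ⟨rfl, rfl⟩ := hw
      exact ((hψV w).2 ⟨_, h2, rfl⟩).elim
    · rw [Prod.mk.injEq] at hw hw'
      obtain ⟨rfl, rfl⟩ := hw
      obtain ⟨rfl, h3⟩ := hw'
      rw [hψ h3]
  · intro u hu
    by_cases hc : ∃ v', (u, v') ∈ f
    · obtain ⟨v, hv⟩ := hc
      exact ⟨v, Or.inl hv⟩
    · push Not at hc
      exact ⟨ψ ⟨u, hu, hc⟩, Or.inr ⟨⟨u, hu, hc⟩, rfl⟩⟩
  · rintro u v (h1 | ⟨w, hw⟩)
    · exact Or.inl h1
    · rw [Prod.mk.injEq] at hw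
      obtain ⟨rfl, rfl⟩ := hw
      exact Or.inr ⟨w.2.1, w.2.2, (hψV w).1⟩

theorem PInj.extend' {X Y : Type} {f : Set (X × Y)} (h : PInj f) {T : Set Y} (hT : T.Countable)
    {V : Set X} (hV : ¬ V.Countable) : ∃ g, PInj g ∧ f ⊆ g ∧ (∀ v ∈ T, ∃ u, (u, v) ∈ g) ∧
      ∀ u v, (u, v) ∈ g → (u, v) ∈ f ∨ (v ∈ T ∧ (∀ u', (u', v) ∉ f) ∧ u ∈ V) := by
  obtain ⟨g, h1, h2, h3, h4⟩ := h.swap.extend hT hV
  exact ⟨{x | (x.2, x.1) ∈ g}, h1.swap, fun x hx => h2 hx, h3, fun u v huv => h4 v u huv⟩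

/-- adding pairs of the graph of an injective function -/
theorem PInj.graph {X Y : Type} {f : Set (X × Y)} (h : PInj f) {θ : X → Y}
    {S : Set X} (hS : S.Countable) (hinj : ∀ u ∈ S, ∀ u' ∈ S, θ u = θ u' → u = u')
    (h1 : ∀ u ∈ S, ∀ v, (u, v) ∈ f → v = θ u) (h2 : ∀ u ∈ S, ∀ u', (u', θ u) ∈ f → u' = u) :
    PInj (f ∪ (fun u => (u, θ u)) '' S) where
  ctb := h.ctb.union (hS.image _)
  fn := by
    rintro u v v' (h3 | ⟨w, hw, h3⟩) (h4 | ⟨w', hw', h4⟩)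
    · exact h.fn _ _ _ h3 h4
    · rw [Prod.mk.injEq] at h4
      obtain ⟨rfl, rfl⟩ := h4
      exact h1 _ hw' _ h3
    · rw [Prod.mk.injEq] at h3
      obtain ⟨rfl, rfl⟩ := h3
      exact (h1 _ hw _ h4).symm
    · rw [Prod.mk.injEq] at h3 h4
      obtain ⟨rfl, rfl⟩ := h3
      obtain ⟨rfl, rfl⟩ := h4
      rfl
  inj := by
    rintro u u' v (h3 | ⟨w, hw, h3⟩) (h4 | ⟨w', hw', h4⟩)
    · exact h.inj _ _ _ h3 h4
    · rw [Prod.mk.injEq] at h4
      obtain ⟨rfl, rfl⟩ := h4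
      exact h2 _ hw' _ h3
    · rw [Prod.mk.injEq] at h3
      obtain ⟨rfl, rfl⟩ := h3
      exact (h2 _ hw _ h4).symm
    · rw [Prod.mk.injEq] at h3 h4
      obtain ⟨rfl, rfl⟩ := h3
      obtain ⟨rfl, h5⟩ := h4
      exact (hinj _ hw' _ hw h5).symm

variable {K W : Type} [LinearOrder K]

theorem pd_not_countable (s : Set K) : ¬ (range fun o : O1 => (El.pd s o : El K W)).Countable := by
  intro h
  refine O1.not_countable ?_
  have h1 : Function.Injective fun o : O1 => (El.pd s o : El K W) := fun o o' h => by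
    injection h
  rw [← image_univ] at h
  exact (Set.countable_of_injective_of_countable_image h1.injOn h)

theorem pb_not_countable (b : Bool) : ¬ (range fun o : O1 => (El.pb o b : El K W)).Countable := by
  intro h
  refine O1.not_countable ?_
  have h1 : Function.Injective fun o : O1 => (El.pb o b : El K W) := fun o o' h => by
    injection h
  rw [← image_univ] at h
  exact (Set.countable_of_injective_of_countable_image h1.injOn h)

/-- the pairs of the system between `A` and `D` -/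
def GAD (p : Cond K W) : El K W → El K W → Prop
  | .rig S x, v => v = .rig S x
  | .ver S x, v => v = .ver S x ∧ p ∈ HV 0 S x
  | .pb _ _, v => ∃ s o, v = .pd s o ∧ s.Countable
  | .pd _ _, _ => False

/-- the system between `A` and `D` -/
def ΦAD (p : Cond K W) (f : Set (El K W × El K W)) : Prop := PInj f ∧ ∀ u v, (u, v) ∈ f → GAD p u v

theorem GAD.mono {p q : Cond K W} (h : q ≤ p) {u v : El K W} (hg : GAD p u v) : GAD q u v := by
  cases u with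
  | rig S x => exact hg
  | ver S x => exact ⟨hg.1, (HV_reg 0 S x).down p hg.2 q h⟩
  | pd s o => exact hg
  | pb o b => exact hg

theorem ΦAD.ext {p : Cond K W} {f : Set (El K W × El K W)} (hf : ΦAD p f) {S T : Set (El K W)}
    (hS : S.Countable) (hT : T.Countable) (hSA : ∀ u ∈ S, p ∈ HA u) (hTD : ∀ v ∈ T, p ∈ HD v) :
    ∃ g, ΦAD p g ∧ f ⊆ g ∧ (∀ u ∈ S, ∃ v, (u, v) ∈ g) ∧ (∀ v ∈ T, ∃ u, (u, v) ∈ g) := by
  obtain ⟨hf1, hf2⟩ := hf
  let I : Set (El K W) := {u | (∃ S x, u = .rig S x) ∨ ∃ S x, u = .ver S x ∧ p ∈ HV 0 S x}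
  have hI1 : ∀ u ∈ I, GAD p u u := by
    rintro u (⟨S, x, rfl⟩ | ⟨S, x, rfl, h⟩)
    · rfl
    · exact ⟨rfl, h⟩
  have hI2 : ∀ u ∈ I, ∀ v, (u, v) ∈ f → v = u := by
    rintro u (⟨S, x, rfl⟩ | ⟨S, x, rfl, h⟩) v huv
    · exact hf2 _ _ huv
    · exact (hf2 _ _ huv).1
  have hI3 : ∀ v ∈ I, ∀ u, (u, v) ∈ f → u = v := by
    rintro v hv u huv
    have h1 := hf2 _ _ huv
    cases u with
    | rig S x => exact h1.symm
    | ver S x => exact h1.1.symm
    | pd s o => exact h1.elim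
    | pb o b =>
      obtain ⟨s, o', rfl, -⟩ := h1
      rcases hv with ⟨S, x, h⟩ | ⟨S, x, h, -⟩ <;> cases h
  have hIc : ((S ∪ T) ∩ I).Countable := (hS.union hT).mono inter_subset_left
  have g1 := hf1.graph (θ := id) hIc (fun _ _ _ _ h => h) (fun u hu => hI2 u hu.2)
    (fun u hu => hI3 u hu.2)
  set f1 := f ∪ (fun u => (u, id u)) '' ((S ∪ T) ∩ I) with hf1d
  have hf1G : ∀ u v, (u, v) ∈ f1 → GAD p u v := by
    rintro u v (h | ⟨w, hw, h⟩)
    · exact hf2 _ _ h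
    · rw [Prod.mk.injEq] at h
      obtain ⟨rfl, rfl⟩ := h
      exact hI1 _ hw.2
  obtain ⟨f2, g2, hf12, hd2, hn2⟩ := g1.extend (S := S \ I) (hS.mono sdiff_subset)
    (pd_not_countable (K := K) (W := W) ∅)
  have hf2G : ∀ u v, (u, v) ∈ f2 → GAD p u v := by
    intro u v h
    rcases hn2 u v h with h1 | ⟨h1, -, o, rfl⟩
    · exact hf1G _ _ h1
    · have h2 := hSA u h1.1
      cases u with
      | rig S x => exact (h1.2 (Or.inl ⟨_, _, rfl⟩)).elim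
      | ver S x => exact (h1.2 (Or.inr ⟨_, _, rfl, h2⟩)).elim
      | pd s o => exact h2.elim
      | pb o' b => exact ⟨_, _, rfl, countable_empty⟩
  obtain ⟨f3, g3, hf23, hr3, hn3⟩ := g2.extend' (T := T \ I) (hT.mono sdiff_subset)
    (pb_not_countable (K := K) (W := W) true)
  have hf3G : ∀ u v, (u, v) ∈ f3 → GAD p u v := by
    intro u v h
    rcases hn3 u v h with h1 | ⟨h1, -, o, rfl⟩
    · exact hf2G _ _ h1
    · have h2 := hTD v h1.1
      cases v with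
      | rig S x => exact (h1.2 (Or.inl ⟨_, _, rfl⟩)).elim
      | ver S x => exact (h1.2 (Or.inr ⟨_, _, rfl, h2⟩)).elim
      | pd s o => exact ⟨_, _, rfl, h2⟩
      | pb o' b => exact h2.elim
  refine ⟨f3, ⟨g3, hf3G⟩, (subset_union_left.trans hf12).trans hf23, fun u hu => ?_, fun v hv => ?_⟩
  · by_cases hI : u ∈ I
    · exact ⟨u, hf23 (hf12 (Or.inr ⟨u, ⟨Or.inl hu, hI⟩, rfl⟩))⟩
    · obtain ⟨v, hv⟩ := hd2 u ⟨hu, hI⟩
      exact ⟨v, hf23 hv⟩
  · by_cases hI : v ∈ I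
    · exact ⟨v, hf23 (hf12 (Or.inr ⟨v, ⟨Or.inr hv, hI⟩, rfl⟩))⟩
    · exact hr3 v ⟨hv, hI⟩

/-- the union of a countable chain of partial injections -/
theorem PInj.sUnion {X Y : Type} {C : Set (Set (X × Y))} (hC : C.Countable)
    (h : ∀ f ∈ C, PInj f) (hch : ∀ f ∈ C, ∀ g ∈ C, f ⊆ g ∨ g ⊆ f) : PInj (⋃₀ C) where
  ctb := hC.sUnion fun f hf => (h f hf).ctb
  fn := by
    rintro u v v' ⟨f, hf, h1⟩ ⟨g, hg, h2⟩
    rcases hch f hf g hg with h3 | h3
    · exact (h g hg).fn _ _ _ (h3 h1) h2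
    · exact (h f hf).fn _ _ _ h1 (h3 h2)
  inj := by
    rintro u u' v ⟨f, hf, h1⟩ ⟨g, hg, h2⟩
    rcases hch f hf g hg with h3 | h3
    · exact (h g hg).inj _ _ _ (h3 h1) h2
    · exact (h f hf).inj _ _ _ h1 (h3 h2)

theorem sys_AD : ∃ Φ, PosSys (P := Cond K W) El.l El.t HA HD ⊤ Φ := by
  refine ⟨ΦAD, ?_⟩
  constructor
  · exact fun p _ f hf => hf.1.ctb
  · exact fun p _ f hf q hq => ⟨hf.1, fun u v h => (hf.2 u v h).mono hq⟩
  · exact fun p _ => ⟨p, le_rfl, ∅, ⟨countable_empty, fun _ _ _ h => h.elim,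
      fun _ _ _ h => h.elim⟩, fun _ _ h => h.elim⟩
  · intro p _ f hf u v huv
    have h1 := hf.2 u v huv
    cases u with
    | rig S x =>
      rw [show v = .rig S x from h1]
      exact ⟨trivial, trivial⟩
    | ver S x =>
      rw [h1.1]
      exact ⟨h1.2, h1.2⟩
    | pd s o => exact h1.elim
    | pb o b =>
      obtain ⟨s, o', rfl, hs⟩ := h1
      exact ⟨trivial, hs⟩
  · exact fun p _ f hf => hf.1.fn
  · exact fun p _ f hf => hf.1.inj
  · intro p _ f hf u v u' v' huv huv'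
    have h1 := hf.2 u v huv
    have h2 := hf.2 u' v' huv'
    cases u with
    | rig S x =>
      obtain rfl : v = .rig S x := h1
      cases u' with
      | rig S' x' =>
        obtain rfl : v' = .rig S' x' := h2
        exact Iff.rfl
      | ver S' x' => rw [h2.1]
      | pd s o => exact h2.elim
      | pb o b =>
        obtain ⟨s, o', rfl, hs⟩ := h2
        exact Iff.rfl
    | ver S x =>
      obtain rfl : v = .ver S x := h1.1
      exact Iff.rfl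
    | pd s o => exact h1.elim
    | pb o b =>
      obtain ⟨s, o', rfl, hs⟩ := h1
      exact Iff.rfl
  · intro p _ f hf u v u' v' u'' v'' huv huv' huv''
    have h1 := hf.2 u v huv
    have h2 := hf.2 u' v' huv'
    have h3 := hf.2 u'' v'' huv''
    cases u with
    | rig S x =>
      obtain rfl : v = .rig S x := h1
      cases u' with
      | rig S' x' =>
        obtain rfl : v' = .rig S' x' := h2
        exact Iff.rfl
      | ver S' x' =>
        rw [h2.1]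
        cases u'' with
        | rig S'' x'' =>
          obtain rfl : v'' = .rig S'' x'' := h3
          exact Iff.rfl
        | ver S'' x'' => rw [h3.1]
        | pd s o => exact h3.elim
        | pb o b =>
          obtain ⟨s, o', rfl, hs⟩ := h3
          exact Iff.rfl
      | pd s o => exact h2.elim
      | pb o b =>
        obtain ⟨s, o', rfl, hs⟩ := h2
        exact Iff.rfl
    | ver S x =>
      obtain rfl : v = .ver S x := h1.1
      exact Iff.rfl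
    | pd s o => exact h1.elim
    | pb o b =>
      obtain ⟨s, o', rfl, hs⟩ := h1
      exact Iff.rfl
  · intro p _ f hf S T hS hT hSA hTD
    obtain ⟨g, h1, h2, h3, h4⟩ := hf.ext hS hT hSA hTD
    exact ⟨p, le_rfl, g, h1, h2, h3, h4⟩
  · intro p _ C hC h hch
    refine ⟨p, le_rfl, ⋃₀ C, ⟨PInj.sUnion hC (fun f hf => (h f hf).1) hch, ?_⟩,
      fun f hf => subset_sUnion_of_mem hf⟩
    rintro u v ⟨f, hf, huv⟩
    exact (h f hf).2 u v huv

/-! ### The system between `D` and `B` -/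

/-- the label of the name `s`, restricted to `S`, as a formal sum -/
noncomputable def lb (p : Cond K W) (s S : Set K) : FS K W := Finsupp.single (res S (p.1.c s)) 1

theorem label_eq {p q : Cond K W} (hq : q ≤ p) {s σ S : Set K} (hs : s ∈ p.1.N) (hσ : σ ∈ q.1.N)
    (hi : Ini s σ) (hS : S ⊆ p.1.U) (hb : ∀ a ∈ S, Blw s a) : lb q σ S = lb p s S := by
  have h : res S (q.1.c σ) = res S (p.1.c s) := by
    apply Subset.antisymm
    · rintro ⟨a, w⟩ ⟨h1, h2⟩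
      refine ⟨?_, h2⟩
      obtain ⟨w', hw'⟩ := p.2.tot s hs a (hS h2) (hb a h2)
      have h3 : (σ, a, w') ∈ q.1.L := q.2.mon s σ a w' hi hσ (hq.2.2.2 hw')
      have h4 : w = w' := q.2.fn _ _ _ _ h1 h3
      subst h4
      exact hw'
    · rintro ⟨a, w⟩ ⟨h1, h2⟩
      exact ⟨q.2.mon s σ a w hi hσ (hq.2.2.2 h1), h2⟩
  rw [lb, lb, h]

theorem fs_add_self (x : FS K W) : x + x = 0 := by
  ext f
  rw [Finsupp.add_apply, Finsupp.zero_apply]
  exact CharTwo.add_self_eq_zero _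

theorem tot_add (x y : FS K W) : tot (x + y) = tot x + tot y :=
  Finsupp.sum_add_index' (fun _ => rfl) (fun _ _ _ => rfl)

theorem tot_lb (p : Cond K W) (s S : Set K) : tot (lb p s S) = 1 := by
  rw [tot, lb, Finsupp.sum_single_index rfl]

theorem HV_add {p : Cond K W} {s S : Set K} {x : FS K W} {e : ZMod 2} (hs : s ∈ p.1.N)
    (hS : S ⊆ p.1.U) (hb : ∀ a ∈ S, Blw s a) (hx : p ∈ HV e S x) :
    p ∈ HV (e + 1) S (x + lb p s S) := by
  classical
  refine ⟨hx.1, ?_, fun f hf => ?_⟩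
  · rw [tot_add, tot_lb, hx.2.1]
  · rcases Finset.mem_union.1 (Finsupp.support_add hf) with h | h
    · exact hx.2.2 f h
    · have h1 : f = res S (p.1.c s) := Finset.mem_singleton.1 (Finsupp.support_single_subset h)
      rw [h1]
      refine ⟨⟨fun x hx => hx.2, fun a ha => ?_, fun a w w' h2 h3 => p.2.fn _ _ _ _ h2.1 h3.1⟩,
        FF_label p hs fun x hx => hx.1⟩
      obtain ⟨w, hw⟩ := p.2.tot s hs a (hS ha) (hb a ha)
      exact ⟨w, hw, ha⟩

/-- the pairs of the system between `D` and `B`, with the history `(ζ, τ)` -/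
def GDB (p : Cond K W) (ζ : O1) (τ : O1 → Set K) : El K W → El K W → Prop
  | .rig S x, v => v = .rig S x
  | .ver S x, v => v = .ver S (x + lb p (τ ζ) S) ∧ p ∈ HV 0 S x ∧ S ⊆ p.1.U ∧
      ∀ a ∈ S, Blw (τ ζ) a
  | .pd s _, v => s.Countable ∧ ((∃ ξ, v = .pb ξ false) ∨ ∃ ξ ≤ ζ, v = .pb ξ true ∧ s = τ ξ)
  | .pb _ _, _ => False

/-- histories -/
structure Hist (p : Cond K W) (f : Set (El K W × El K W)) (ζ : O1) (τ : O1 → Set K) : Prop where
  ct : ∀ ξ ≤ ζ, (τ ξ).Countable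
  ini : ∀ ξ ξ', ξ ≤ ξ' → ξ' ≤ ζ → Ini (τ ξ) (τ ξ')
  nm : τ ζ ∈ p.1.N
  hit : ∀ ξ ≤ ζ, ∃ o, ((El.pd (τ ξ) o, El.pb ξ true) : El K W × El K W) ∈ f
  good : ∀ u v, (u, v) ∈ f → GDB p ζ τ u v

/-- the system between `D` and `B` -/
def ΦDB (p : Cond K W) (f : Set (El K W × El K W)) : Prop := PInj f ∧ ∃ ζ τ, Hist p f ζ τ

theorem GDB.mono {p q : Cond K W} (hq : q ≤ p) {ζ ζ' : O1} {τ τ' : O1 → Set K}
    (hN : τ ζ ∈ p.1.N) (hN' : τ' ζ' ∈ q.1.N) (hi : Ini (τ ζ) (τ' ζ'))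
    (hle : ∀ ξ ≤ ζ, ξ ≤ ζ' ∧ τ' ξ = τ ξ) {u v : El K W} (h : GDB p ζ τ u v) :
    GDB q ζ' τ' u v := by
  cases u with
  | rig S x => exact h
  | ver S x =>
    obtain ⟨rfl, h1, h2, h3⟩ := h
    refine ⟨?_, (HV_reg 0 S x).down p h1 q hq, h2.trans hq.1, fun a ha => (h3 a ha).mono hi.1⟩
    rw [label_eq hq hN hN' hi h2 h3]
  | pd s o =>
    refine ⟨h.1, ?_⟩
    rcases h.2 with h1 | ⟨ξ, h1, h2, h3⟩
    · exact Or.inl h1
    · exact Or.inr ⟨ξ, (hle ξ h1).1, h2, h3.trans (hle ξ h1).2.symm⟩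
  | pb o b => exact h

theorem GDB.of_true {p : Cond K W} {ζ : O1} {τ : O1 → Set K} {u : El K W} {ξ : O1}
    (h : GDB p ζ τ u (.pb ξ true)) : ξ ≤ ζ ∧ ∃ o, u = .pd (τ ξ) o := by
  cases u with
  | rig S x => cases h
  | ver S x => cases h.1
  | pd s o =>
    rcases h.2 with ⟨ξ', h1⟩ | ⟨ξ', h1, h2, h3⟩
    · cases h1
    · injection h2 with h4
      subst h4
      exact ⟨h1, o, by rw [h3]⟩
  | pb o b => exact h.elim

/-- the map of the rigid and vertical elements -/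
noncomputable def Θ (p : Cond K W) (s : Set K) : El K W → El K W
  | .ver S x => .ver S (x + lb p s S)
  | u => u

theorem Θ_Θ (p : Cond K W) (s : Set K) (u : El K W) : Θ p s (Θ p s u) = u := by
  cases u with
  | ver S x =>
    change El.ver S (x + lb p s S + lb p s S) = El.ver S x
    rw [add_assoc, fs_add_self, add_zero]
  | rig S x => rfl
  | pd s o => rfl
  | pb o b => rfl

/-- the ordinals of a vertical element -/
def base : El K W → Set K
  | .ver S _ => S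
  | _ => ∅

theorem ΦDB.ne [WellFoundedLT K] [Uncountable W] (p : Cond K W) : ∃ q ≤ p, ∃ f, ΦDB q f := by
  obtain ⟨q, hq, hN, -, -⟩ := add_name p (s := ∅) countable_empty
  obtain ⟨ζ, -⟩ := O1.bdd (S := ∅) countable_empty
  have h0 : PInj (∅ : Set (El K W × El K W)) :=
    ⟨countable_empty, fun _ _ _ h => h.elim, fun _ _ _ h => h.elim⟩
  obtain ⟨g, h1, -, h3, h4⟩ := h0.extend' (T := (fun ξ => El.pb ξ true) '' Iic ζ)
    ((O1.countable_Iic ζ).image _) (pd_not_countable (K := K) (W := W) ∅)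
  have hG : ∀ u v, (u, v) ∈ g → GDB q ζ (fun _ => ∅) u v := by
    intro u v h
    rcases h4 u v h with h | ⟨⟨ξ, hξ, rfl⟩, -, o, rfl⟩
    · exact h.elim
    · exact ⟨countable_empty, Or.inr ⟨ξ, hξ, rfl, rfl⟩⟩
  refine ⟨q, hq, g, h1, ζ, fun _ => ∅, fun _ _ => countable_empty, fun _ _ _ _ => Ini.refl _, hN,
    fun ξ hξ => ?_, hG⟩
  obtain ⟨u, hu⟩ := h3 _ ⟨ξ, hξ, rfl⟩
  obtain ⟨-, o, rfl⟩ := (hG _ _ hu).of_true
  exact ⟨o, hu⟩

theorem ΦDB.ext [WellFoundedLT K] [Uncountable W]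
    (hK : ∀ S : Set K, S.Countable → ∃ a, ∀ b ∈ S, b < a) {p : Cond K W}
    {f : Set (El K W × El K W)} (hf : ΦDB p f) {S T : Set (El K W)}
    (hS : S.Countable) (hT : T.Countable) (hSD : ∀ u ∈ S, p ∈ HD u) (hTB : ∀ v ∈ T, p ∈ HB v) :
    ∃ q ≤ p, ∃ g, ΦDB q g ∧ f ⊆ g ∧ (∀ u ∈ S, ∃ v, (u, v) ∈ g) ∧ (∀ v ∈ T, ∃ u, (u, v) ∈ g) := by
  classical
  obtain ⟨hf1, ζ, τ, hH⟩ := hf
  have hAc : (⋃ u ∈ S ∪ T, base u).Countable := by
    refine (hS.union hT).biUnion fun u hu => ?_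
    cases u with
    | ver S' x =>
      rcases hu with hu | hu
      · exact (hSD _ hu).1
      · exact (hTB _ hu).1
    | rig S' x => exact countable_empty
    | pd s o => exact countable_empty
    | pb o b => exact countable_empty
  obtain ⟨q, hq, σ, hσN, hσ, hAU, hAb⟩ := add_above hK p (hH.ct ζ le_rfl) hAc
  have hinj : Function.Injective fun ξ : O1 => (El.pb ξ true : El K W) := fun o o' h => by
    injection h
  obtain ⟨ζ', hζ'⟩ := O1.bdd (S := insert ζ ((fun ξ : O1 => (El.pb ξ true : El K W)) ⁻¹' T))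
    ((hT.preimage hinj).insert ζ)
  have hζζ' : ζ < ζ' := hζ' ζ (Or.inl rfl)
  set τ' : O1 → Set K := fun ξ => if ξ ≤ ζ then τ ξ else σ with hτ'
  have hτ1 : ∀ ξ, ξ ≤ ζ → τ' ξ = τ ξ := fun ξ h => if_pos h
  have hτ2 : ∀ ξ, ¬ ξ ≤ ζ → τ' ξ = σ := fun ξ h => if_neg h
  have hτζ' : τ' ζ' = σ := hτ2 _ (not_le.2 hζζ')
  have hσc : σ.Countable := q.2.ctS σ hσN
  have hold : ∀ u v, (u, v) ∈ f → GDB q ζ' τ' u v := fun u v h => by
    refine GDB.mono hq hH.nm (by rw [hτζ']; exact hσN) (by rw [hτζ']; exact hσ) (fun ξ hξ =>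
      ⟨hξ.trans hζζ'.le, hτ1 ξ hξ⟩) (hH.good u v h)
  -- the rigid and the vertical elements
  let I : Set (El K W) := {u | (∃ S x, u = .rig S x) ∨ ∃ S x, u = .ver S x ∧ q ∈ HV 0 S x ∧
    S ⊆ q.1.U ∧ ∀ a ∈ S, Blw σ a}
  have hIG : ∀ u ∈ I, GDB q ζ' τ' u (Θ q σ u) := by
    rintro u (⟨S, x, rfl⟩ | ⟨S, x, rfl, h1, h2, h3⟩)
    · rfl
    · refine ⟨?_, h1, h2, ?_⟩
      · rw [hτζ']
        rfl
      · rw [hτζ']
        exact h3
  have hI2 : ∀ u ∈ I, ∀ v, (u, v) ∈ f → v = Θ q σ u := by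
    rintro u (⟨S, x, rfl⟩ | ⟨S, x, rfl, h⟩) v huv
    · exact hold _ _ huv
    · have h1 := (hold _ _ huv).1
      rw [hτζ'] at h1
      exact h1
  have hI3 : ∀ u ∈ I, ∀ u', (u', Θ q σ u) ∈ f → u' = u := by
    intro u hu u' huv
    have h1 := hold _ _ huv
    have h2 : ∀ w : El K W, Θ q σ u = Θ q σ w → w = u := fun w h => by
      rw [← Θ_Θ q σ w, ← h, Θ_Θ]
    cases u' with
    | rig S x => exact h2 _ h1
    | ver S x =>
      refine h2 _ ?_
      have h3 := h1.1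
      rw [hτζ'] at h3
      exact h3
    | pd s o =>
      rcases hu with ⟨S, x, rfl⟩ | ⟨S, x, rfl, h⟩ <;>
        rcases h1.2 with ⟨ξ, h4⟩ | ⟨ξ, -, h4, -⟩ <;> cases h4
    | pb o b => exact h1.elim
  set S1 : Set (El K W) := (S ∪ Θ q σ '' T) ∩ I with hS1
  have hS1c : S1.Countable := (hS.union (hT.image _)).mono inter_subset_left
  have g1 := hf1.graph (θ := Θ q σ) hS1c (fun u _ u' _ h => by rw [← Θ_Θ q σ u, h, Θ_Θ])
    (fun u hu => hI2 u hu.2) (fun u hu => hI3 u hu.2)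
  set f1 := f ∪ (fun u => (u, Θ q σ u)) '' S1 with hf1d
  have hf1G : ∀ u v, (u, v) ∈ f1 → GDB q ζ' τ' u v := by
    rintro u v (h | ⟨w, hw, h⟩)
    · exact hold _ _ h
    · rw [Prod.mk.injEq] at h
      obtain ⟨rfl, rfl⟩ := h
      exact hIG _ hw.2
  -- the new steps of the history
  obtain ⟨f2, g2, hf12, hr2, hn2⟩ := g1.extend' (T := (fun ξ => El.pb ξ true) '' (Ioc ζ ζ'))
    (((O1.countable_Iic ζ').mono fun _ h => h.2).image _) (pd_not_countable (K := K) (W := W) σ)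
  have hf2G : ∀ u v, (u, v) ∈ f2 → GDB q ζ' τ' u v := by
    intro u v h
    rcases hn2 u v h with h1 | ⟨⟨ξ, hξ, rfl⟩, -, o, rfl⟩
    · exact hf1G _ _ h1
    · exact ⟨hσc, Or.inr ⟨ξ, hξ.2, rfl, (hτ2 ξ (not_le.2 hξ.1)).symm⟩⟩
  -- the pure elements of `D`
  obtain ⟨f3, g3, hf23, hd3, hn3⟩ := g2.extend (S := {u ∈ S | ∃ s o, u = .pd s o})
    (hS.mono fun _ h => h.1) (pb_not_countable (K := K) (W := W) false)
  have hf3G : ∀ u v, (u, v) ∈ f3 → GDB q ζ' τ' u v := by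
    intro u v h
    rcases hn3 u v h with h1 | ⟨⟨h1, s, o, rfl⟩, -, ξ, rfl⟩
    · exact hf2G _ _ h1
    · exact ⟨hSD _ h1, Or.inl ⟨ξ, rfl⟩⟩
  -- the pure elements of `B`
  obtain ⟨f4, g4, hf34, hr4, hn4⟩ := g3.extend' (T := {v ∈ T | ∃ ξ, v = .pb ξ false})
    (hT.mono fun _ h => h.1) (pd_not_countable (K := K) (W := W) ∅)
  have hf4G : ∀ u v, (u, v) ∈ f4 → GDB q ζ' τ' u v := by
    intro u v h
    rcases hn4 u v h with h1 | ⟨⟨h1, ξ, rfl⟩, -, o, rfl⟩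
    · exact hf3G _ _ h1
    · exact ⟨countable_empty, Or.inl ⟨ξ, rfl⟩⟩
  have hhit : ∀ ξ ≤ ζ', ∃ o, ((El.pd (τ' ξ) o, El.pb ξ true) : El K W × El K W) ∈ f4 := by
    intro ξ hξ
    have h1 : ∃ u, (u, El.pb ξ true) ∈ f4 := by
      by_cases hc : ξ ≤ ζ
      · obtain ⟨o, ho⟩ := hH.hit ξ hc
        exact ⟨_, hf34 (hf23 (hf12 (Or.inl ho)))⟩
      · obtain ⟨u, hu⟩ := hr2 _ ⟨ξ, ⟨not_le.1 hc, hξ⟩, rfl⟩
        exact ⟨u, hf34 (hf23 hu)⟩
    obtain ⟨u, hu⟩ := h1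
    obtain ⟨-, o, rfl⟩ := (hf4G _ _ hu).of_true
    exact ⟨o, hu⟩
  have hinc : f1 ⊆ f4 := (hf12.trans hf23).trans hf34
  refine ⟨q, hq, f4, ⟨g4, ζ', τ', ?_, ?_, ?_, hhit, hf4G⟩, subset_union_left.trans hinc,
    fun u hu => ?_, fun v hv => ?_⟩
  · intro ξ hξ
    by_cases hc : ξ ≤ ζ
    · rw [hτ1 ξ hc]
      exact hH.ct ξ hc
    · rw [hτ2 ξ hc]
      exact hσc
  · intro ξ ξ' h1 h2
    by_cases hc' : ξ' ≤ ζ
    · rw [hτ1 ξ (h1.trans hc'), hτ1 ξ' hc']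
      exact hH.ini ξ ξ' h1 hc'
    · rw [hτ2 ξ' hc']
      by_cases hc : ξ ≤ ζ
      · rw [hτ1 ξ hc]
        exact (hH.ini ξ ζ hc le_rfl).trans hσ
      · rw [hτ2 ξ hc]
        exact Ini.refl σ
  · rw [hτζ']
    exact hσN
  · have h1 := hSD u hu
    cases u with
    | rig S' x => exact ⟨_, hinc (Or.inr ⟨_, ⟨Or.inl hu, Or.inl ⟨_, _, rfl⟩⟩, rfl⟩)⟩
    | ver S' x =>
      have h2 : S' ⊆ ⋃ u ∈ S ∪ T, base u := fun a ha => mem_biUnion (Or.inl hu) ha
      exact ⟨_, hinc (Or.inr ⟨_, ⟨Or.inl hu, Or.inr ⟨_, _, rfl, (HV_reg 0 S' x).down p h1 q hq,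
        h2.trans hAU, fun a ha => hAb a (h2 ha)⟩⟩, rfl⟩)⟩
    | pd s o =>
      obtain ⟨v, hv⟩ := hd3 _ ⟨hu, s, o, rfl⟩
      exact ⟨v, hf34 hv⟩
    | pb o b => exact h1.elim
  · have h1 := hTB v hv
    cases v with
    | rig S' x => exact ⟨_, hinc (Or.inr ⟨_, ⟨Or.inr ⟨_, hv, rfl⟩, Or.inl ⟨_, _, rfl⟩⟩, rfl⟩)⟩
    | ver S' x =>
      have h2 : S' ⊆ ⋃ u ∈ S ∪ T, base u := fun a ha => mem_biUnion (Or.inr hv) ha
      have h3 : q ∈ HV 0 S' (x + lb q σ S') := by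
        have h4 := HV_add hσN (h2.trans hAU) (fun a ha => hAb a (h2 ha))
          ((HV_reg 1 S' x).down p h1 q hq)
        have h5 : (1 + 1 : ZMod 2) = 0 := by decide
        rwa [h5] at h4
      refine ⟨Θ q σ (.ver S' x), hinc (Or.inr ⟨Θ q σ (.ver S' x), ⟨Or.inr ⟨_, hv, rfl⟩,
        Or.inr ⟨_, _, rfl, h3, h2.trans hAU, fun a ha => hAb a (h2 ha)⟩⟩, ?_⟩)⟩
      rw [Prod.mk.injEq]
      exact ⟨rfl, Θ_Θ q σ _⟩
    | pd s o => exact h1.elim
    | pb o b =>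
      cases b with
      | false => exact hr4 _ ⟨hv, o, rfl⟩
      | true =>
        obtain ⟨o', ho'⟩ := hhit o (hζ' o (Or.inr hv)).le
        exact ⟨_, ho'⟩

theorem ΦDB.closed [WellFoundedLT K] [Uncountable W] {p : Cond K W}
    {C : Set (Set (El K W × El K W))} (hC : C.Countable) (hΦ : ∀ f ∈ C, ΦDB p f)
    (hch : ∀ f ∈ C, ∀ g ∈ C, f ⊆ g ∨ g ⊆ f) : ∃ q ≤ p, ∃ h, ΦDB q h ∧ ∀ f ∈ C, f ⊆ h := by
  classical
  obtain ⟨a₀, -⟩ := O1.bdd (S := ∅) countable_empty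
  have : Nonempty O1 := ⟨a₀⟩
  have h1 : ∀ f ∈ C, ∃ ζ τ, Hist p f ζ τ := fun f hf => (hΦ f hf).2
  choose! Z T hH using h1
  have key1 : ∀ f ∈ C, ∀ g ∈ C, f ⊆ g → ∀ ξ ≤ Z f, ξ ≤ Z g ∧ T f ξ = T g ξ := by
    intro f hf g hg hfg ξ hξ
    obtain ⟨o, ho⟩ := (hH f hf).hit ξ hξ
    obtain ⟨h2, o', h3⟩ := ((hH g hg).good _ _ (hfg ho)).of_true
    injection h3 with h4
    exact ⟨h2, h4⟩
  have key2 : ∀ f ∈ C, ∀ g ∈ C, ∀ ξ, ξ ≤ Z f → ξ ≤ Z g → T f ξ = T g ξ := by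
    intro f hf g hg ξ h2 h3
    rcases hch f hf g hg with h4 | h4
    · exact (key1 f hf g hg h4 ξ h2).2
    · exact (key1 g hg f hf h4 ξ h3).2.symm
  set D : Set O1 := ⋃ f ∈ C, Iic (Z f) with hD
  have hDc : D.Countable := hC.biUnion fun f _ => O1.countable_Iic _
  have hDm : ∀ ξ, ξ ∈ D ↔ ∃ f ∈ C, ξ ≤ Z f := fun ξ => by simp [hD]
  obtain ⟨ζ, hζ1, hζ2⟩ := WellFounded.has_min (wellFounded_lt (α := O1)) {a | ∀ b ∈ D, b < a}
    (O1.bdd hDc)
  have hζD : ∀ ξ < ζ, ∃ f ∈ C, ξ ≤ Z f := by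
    intro ξ hξ
    have h2 : ¬ ∀ b ∈ D, b < ξ := fun h => hζ2 ξ h hξ
    push Not at h2
    obtain ⟨b, hb, hξb⟩ := h2
    obtain ⟨f, hf, hbf⟩ := (hDm b).1 hb
    exact ⟨f, hf, hξb.trans hbf⟩
  have hζZ : ∀ f ∈ C, Z f < ζ := fun f hf => hζ1 _ ((hDm _).2 ⟨f, hf, le_rfl⟩)
  set τ : O1 → Set K := fun ξ => {a | ∃ f ∈ C, ∃ η ≤ ξ, η ≤ Z f ∧ a ∈ T f η} with hτ
  have hτeq : ∀ f ∈ C, ∀ ξ ≤ Z f, τ ξ = T f ξ := by
    intro f hf ξ hξ
    apply Subset.antisymm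
    · rintro a ⟨g, hg, η, h2, h3, h4⟩
      rw [key2 g hg f hf η h3 (h2.trans hξ)] at h4
      exact ((hH f hf).ini η ξ h2 hξ).1 h4
    · exact fun a ha => ⟨f, hf, ξ, le_rfl, hξ, ha⟩
  have hτini : ∀ ξ ξ', ξ ≤ ξ' → Ini (τ ξ) (τ ξ') := by
    intro ξ ξ' h2
    refine ⟨fun a ⟨f, hf, η, h3, h4⟩ => ⟨f, hf, η, h3.trans h2, h4⟩, ?_⟩
    rintro a ⟨f, hf, η, h3, h4, h5⟩ b ⟨g, hg, η', h6, h7, h8⟩ hab
    by_cases hc : η ≤ ξ
    · exact ⟨f, hf, η, hc, h4, h5⟩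
    · have h9 : η' ≤ η := h6.trans (not_le.1 hc).le
      rw [key2 g hg f hf η' h7 (h9.trans h4)] at h8
      exact ⟨f, hf, η', h6, h9.trans h4, ((hH f hf).ini η' η h9 h4).2 a h5 b h8 hab⟩
  have hτc : ∀ ξ, (τ ξ).Countable := by
    intro ξ
    have h2 : (⋃ f ∈ C, ⋃ η ∈ Iic (Z f), T f η).Countable :=
      hC.biUnion fun f hf => (O1.countable_Iic _).biUnion fun η hη => (hH f hf).ct η hη
    refine h2.mono ?_
    rintro a ⟨f, hf, η, -, h3, h4⟩
    exact mem_biUnion hf (mem_biUnion h3 h4)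
  obtain ⟨q, hq, hN, -, -⟩ := add_name p (hτc ζ)
  have g1 : PInj (⋃₀ C) := PInj.sUnion hC (fun f hf => (hΦ f hf).1) hch
  have hG1 : ∀ u v, (u, v) ∈ ⋃₀ C → GDB q ζ τ u v := by
    rintro u v ⟨f, hf, huv⟩
    refine GDB.mono hq (hH f hf).nm hN ?_ ?_ ((hH f hf).good u v huv)
    · rw [← hτeq f hf _ le_rfl]
      exact hτini _ _ (hζZ f hf).le
    · exact fun ξ hξ => ⟨hξ.trans (hζZ f hf).le, hτeq f hf ξ hξ⟩
  obtain ⟨g, g2, h12, hr, hn⟩ := g1.extend' (T := {El.pb ζ true}) (countable_singleton _)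
    (pd_not_countable (K := K) (W := W) (τ ζ))
  have hG : ∀ u v, (u, v) ∈ g → GDB q ζ τ u v := by
    intro u v h
    rcases hn u v h with h2 | ⟨rfl, -, o, rfl⟩
    · exact hG1 _ _ h2
    · exact ⟨hτc ζ, Or.inr ⟨ζ, le_rfl, rfl, rfl⟩⟩
  refine ⟨q, hq, g, ⟨g2, ζ, τ, fun ξ _ => hτc ξ, fun ξ ξ' h _ => hτini ξ ξ' h, hN, ?_, hG⟩,
    fun f hf => (subset_sUnion_of_mem hf).trans h12⟩
  intro ξ hξ
  rcases hξ.lt_or_eq with h2 | rfl
  · obtain ⟨f, hf, h3⟩ := hζD ξ h2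
    obtain ⟨o, ho⟩ := (hH f hf).hit ξ h3
    refine ⟨o, h12 ⟨f, hf, ?_⟩⟩
    rw [hτeq f hf ξ h3]
    exact ho
  · obtain ⟨u, hu⟩ := hr _ rfl
    obtain ⟨-, o, rfl⟩ := (hG _ _ hu).of_true
    exact ⟨o, hu⟩

theorem sys_DB [WellFoundedLT K] [Uncountable W]
    (hK : ∀ S : Set K, S.Countable → ∃ a, ∀ b ∈ S, b < a) :
    ∃ Φ, PosSys (P := Cond K W) El.l El.t HD HB ⊤ Φ := by
  refine ⟨ΦDB, ?_⟩
  constructor
  · exact fun p _ f hf => hf.1.ctb
  · rintro p - f ⟨hf, ζ, τ, hH⟩ q hq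
    refine ⟨hf, ζ, τ, hH.ct, hH.ini, hq.2.2.1 hH.nm, hH.hit, fun u v h => ?_⟩
    exact GDB.mono hq hH.nm (hq.2.2.1 hH.nm) (Ini.refl _) (fun ξ hξ => ⟨hξ, rfl⟩) (hH.good u v h)
  · exact fun p _ => ΦDB.ne p
  · rintro p - f ⟨hf, ζ, τ, hH⟩ u v huv
    have h1 := hH.good u v huv
    cases u with
    | rig S x =>
      obtain rfl : v = .rig S x := h1
      exact ⟨trivial, trivial⟩
    | ver S x =>
      obtain ⟨rfl, h2, h3, h4⟩ := h1
      refine ⟨h2, ?_⟩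
      have h5 := HV_add hH.nm h3 h4 h2
      rwa [zero_add] at h5
    | pd s o =>
      rcases h1.2 with ⟨ξ, rfl⟩ | ⟨ξ, -, rfl, -⟩
      · exact ⟨h1.1, trivial⟩
      · exact ⟨h1.1, trivial⟩
    | pb o b => exact h1.elim
  · exact fun p _ f hf => hf.1.fn
  · exact fun p _ f hf => hf.1.inj
  · rintro p - f ⟨hf, ζ, τ, hH⟩ u v u' v' huv huv'
    have h1 := hH.good u v huv
    have h2 := hH.good u' v' huv'
    cases u with
    | rig S x =>
      obtain rfl : v = .rig S x := h1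
      cases u' with
      | rig S' x' =>
        obtain rfl : v' = .rig S' x' := h2
        exact Iff.rfl
      | ver S' x' =>
        rw [h2.1]
        exact Iff.rfl
      | pd s o =>
        rcases h2.2 with ⟨ξ, rfl⟩ | ⟨ξ, -, rfl, -⟩ <;> exact Iff.rfl
      | pb o b => exact h2.elim
    | ver S x =>
      rw [h1.1]
      exact Iff.rfl
    | pd s o =>
      rcases h1.2 with ⟨ξ, rfl⟩ | ⟨ξ, -, rfl, -⟩ <;> exact Iff.rfl
    | pb o b => exact h1.elim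
  · rintro p - f ⟨hf, ζ, τ, hH⟩ u v u' v' u'' v'' huv huv' huv''
    have h1 := hH.good u v huv
    have h2 := hH.good u' v' huv'
    have h3 := hH.good u'' v'' huv''
    cases u with
    | rig S x =>
      obtain rfl : v = .rig S x := h1
      cases u' with
      | rig S' x' =>
        obtain rfl : v' = .rig S' x' := h2
        exact Iff.rfl
      | ver S' x' =>
        rw [h2.1]
        cases u'' with
        | rig S'' x'' =>
          obtain rfl : v'' = .rig S'' x'' := h3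
          exact Iff.rfl
        | ver S'' x'' =>
          rw [h3.1]
          change (S'' = S ∧ S ⊆ S' ∧ x = push S x' + x'') ↔ (S'' = S ∧ S ⊆ S' ∧
            x = push S (x' + lb p (τ ζ) S') + (x'' + lb p (τ ζ) S''))
          refine and_congr_right fun h4 => and_congr_right fun h5 => ?_
          subst h4
          have h6 : push S'' (x' + lb p (τ ζ) S') = push S'' x' + lb p (τ ζ) S'' := by
            have h7 : res S'' (res S' (p.1.c (τ ζ))) = res S'' (p.1.c (τ ζ)) := by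
              ext y
              exact ⟨fun h => ⟨h.1.1, h.2⟩, fun h => ⟨⟨h.1, h5 h.2⟩, h.2⟩⟩
            rw [push, push, Finsupp.mapDomain_add, lb, Finsupp.mapDomain_single, h7, lb]
          rw [h6, add_add_add_comm, fs_add_self, add_zero]
        | pd s o =>
          rcases h3.2 with ⟨ξ, rfl⟩ | ⟨ξ, -, rfl, -⟩ <;> exact Iff.rfl
        | pb o b => exact h3.elim
      | pd s o =>
        rcases h2.2 with ⟨ξ, rfl⟩ | ⟨ξ, -, rfl, -⟩ <;> exact Iff.rfl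
      | pb o b => exact h2.elim
    | ver S x =>
      rw [h1.1]
      exact Iff.rfl
    | pd s o =>
      rcases h1.2 with ⟨ξ, rfl⟩ | ⟨ξ, -, rfl, -⟩ <;> exact Iff.rfl
    | pb o b => exact h1.elim
  · exact fun p _ f hf S T hS hT hSD hTB => hf.ext hK hS hT hSD hTB
  · exact fun p _ C hC h hch => ΦDB.closed hC h hch

end Pool.Agent.Helper23.PI
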