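import Pool.Agent.Helper23.PI.St
import Pool.Agent.Helper23.PI.Core1

/-!
# A back-and-forth system between `A` and `B` gives an abstract system of positions
-/

namespace Pool.Agent.Helper23.PI

open Set

set_option linter.unusedSectionVars false

variable {K W : Type} [LinearOrder K]

/-- countable sets of pairs of pure elements -/
abbrev Lam : Type := {s : Set ((O1 × Bool) × (O1 × Bool)) // s.Countable}

namespace SC

/-! ### Formal sums -/

theorem add_self (x : FS K W) : x + x = 0 := by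
  ext f
  rw [Finsupp.add_apply, Finsupp.zero_apply]
  exact CharTwo.add_self_eq_zero _

theorem tot_add (x y : FS K W) : tot (x + y) = tot x + tot y :=
  Finsupp.sum_add_index' (fun _ => rfl) (fun _ _ _ => rfl)

theorem res_self {S : Set K} {f : Set (K × W)} (hf : Tot S f) : res S f = f :=
  Subset.antisymm (fun _ hx => hx.1) fun x hx => ⟨hx, hf.1 x hx⟩

theorem res_res {S S' : Set K} (h : S' ⊆ S) (f : Set (K × W)) : res S' (res S f) = res S' f :=
  Subset.antisymm (fun _ hx => ⟨hx.1.1, hx.2⟩) fun _ hx => ⟨⟨hx.1, h hx.2⟩, hx.2⟩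

theorem push_self {S : Set K} {x : FS K W} (hx : ∀ f ∈ x.support, Tot S f) : push S x = x :=
  (Finsupp.mapDomain_congr (g := id) fun f hf => res_self (hx f hf)).trans Finsupp.mapDomain_id

theorem push_add (S : Set K) (x y : FS K W) : push S (x + y) = push S x + push S y :=
  Finsupp.mapDomain_add

theorem push_push {S S' : Set K} (h : S' ⊆ S) (x : FS K W) : push S' (push S x) = push S' x := by
  rw [push, push, ← Finsupp.mapDomain_comp, push]
  congr 1
  funext f
  exact res_res h f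

theorem push_zero (S : Set K) : push S (0 : FS K W) = 0 := Finsupp.mapDomain_zero

section

variable {r : Cond K W} {Φ : Cond K W → Set (El K W × El K W) → Prop}

theorem rig_of_l {u : El K W} (h : El.l u u) : ∃ a : Set K × FS K W, u = .rig a.1 a.2 := by
  cases u with
  | rig S x => exact ⟨(S, x), rfl⟩
  | ver S x => exact h.elim
  | pd s o => exact h.elim
  | pb o b => exact h.elim

theorem l_self (a : Set K × FS K W) : El.l (.rig a.1 a.2 : El K W) (.rig a.1 a.2) := Or.inr rfl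

variable (h : PosSys (P := Cond K W) El.l El.t HA HB r Φ)

include h

/-- rigid elements are fixed -/
theorem rig_id (a : Set K × FS K W) : ∀ p ≤ r, ∀ f, Φ p f →
    (∀ v, (El.rig a.1 a.2, v) ∈ f → v = .rig a.1 a.2) ∧
      (∀ u, (u, El.rig a.1 a.2) ∈ f → u = .rig a.1 a.2) := by
  have key : ∀ {a b : Set K × FS K W}, (El.rig a.1 a.2 : El K W) = .rig b.1 b.2 → a = b := by
    rintro ⟨S, x⟩ ⟨S', x'⟩ h
    injection h with h1 h2
    exact Prod.ext h1 h2
  refine (IsWellFounded.wf (r := WellOrderingRel (α := Set K × FS K W))).induction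
    (C := fun a => ∀ p ≤ r, ∀ f, Φ p f → (∀ v, (El.rig a.1 a.2, v) ∈ f → v = .rig a.1 a.2) ∧
      (∀ u, (u, El.rig a.1 a.2) ∈ f → u = .rig a.1 a.2)) a ?_
  intro a ih p hp f hf
  have irr : ∀ a : Set K × FS K W, ¬ WellOrderingRel a a := fun a => irrefl a
  constructor
  · intro v hv
    obtain ⟨b, rfl⟩ := rig_of_l ((h.two p hp f hf _ _ _ _ hv hv).1 (l_self a))
    rcases trichotomous_of WellOrderingRel a b with h1 | h1 | h1
    · exfalso
      obtain ⟨q, hq, g, hg, hfg, -, h2⟩ := h.ext p hp f hf ∅ {.rig a.1 a.2} countable_empty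
        (countable_singleton _) (fun _ h => h.elim) (by rintro _ rfl; exact trivial)
      obtain ⟨u, hu⟩ := h2 _ rfl
      obtain ⟨c, rfl⟩ := rig_of_l ((h.two q (hq.trans hp) g hg _ _ _ _ hu hu).2 (l_self a))
      rcases (h.two q (hq.trans hp) g hg _ _ _ _ hu (hfg hv)).2 (Or.inl h1) with h3 | h3
      · have h4 := key ((ih c h3 q (hq.trans hp) g hg).1 _ hu)
        rw [h4] at h3
        exact irr _ h3
      · obtain rfl : c = a := h3
        have h4 := key (h.fn q (hq.trans hp) g hg _ _ _ hu (hfg hv))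
        rw [← h4] at h1
        exact irr _ h1
    · rw [h1]
    · exfalso
      have h4 := key ((ih b h1 p hp f hf).2 _ hv)
      rw [h4] at h1
      exact irr _ h1
  · intro u hu
    obtain ⟨b, rfl⟩ := rig_of_l ((h.two p hp f hf _ _ _ _ hu hu).2 (l_self a))
    rcases trichotomous_of WellOrderingRel a b with h1 | h1 | h1
    · exfalso
      obtain ⟨q, hq, g, hg, hfg, h2, -⟩ := h.ext p hp f hf {.rig a.1 a.2} ∅
        (countable_singleton _) countable_empty (by rintro _ rfl; exact trivial)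
        (fun _ h => h.elim)
      obtain ⟨v, hv⟩ := h2 _ rfl
      obtain ⟨c, rfl⟩ := rig_of_l ((h.two q (hq.trans hp) g hg _ _ _ _ hv hv).1 (l_self a))
      rcases (h.two q (hq.trans hp) g hg _ _ _ _ hv (hfg hu)).1 (Or.inl h1) with h3 | h3
      · have h4 := key ((ih c h3 q (hq.trans hp) g hg).2 _ hv)
        rw [h4] at h3
        exact irr _ h3
      · obtain rfl : c = a := h3
        have h4 := key (h.inj q (hq.trans hp) g hg _ _ _ hv (hfg hu))
        rw [← h4] at h1
        exact irr _ h1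
    · rw [h1]
    · exfalso
      have h4 := key ((ih b h1 p hp f hf).1 _ hu)
      rw [h4] at h1
      exact irr _ h1

/-- the rigid elements can be added -/
theorem add_rig {p : Cond K W} (hp : p ≤ r) {f : Set (El K W × El K W)} (hf : Φ p f) (S : Set K)
    (x : FS K W) : ∃ q ≤ p, ∃ g, Φ q g ∧ f ⊆ g ∧ ((El.rig S x, El.rig S x) : El K W × El K W) ∈ g := by
  obtain ⟨q, hq, g, hg, hfg, h2, -⟩ := h.ext p hp f hf {.rig S x} ∅
    (countable_singleton _) countable_empty (by rintro _ rfl; exact trivial)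
    (fun _ h => h.elim)
  obtain ⟨v, hv⟩ := h2 _ rfl
  have h3 := (rig_id h (S, x) q (hq.trans hp) g hg).1 v hv
  subst h3
  exact ⟨q, hq, g, hg, hfg, hv⟩

/-- the ternary relation for rigid first components -/
theorem t_iff {p : Cond K W} (hp : p ≤ r) {f : Set (El K W × El K W)} (hf : Φ p f) {S : Set K}
    {d : FS K W} {u v u' v' : El K W} (h1 : (u, v) ∈ f) (h2 : (u', v') ∈ f) :
    El.t (.rig S d) u u' ↔ El.t (.rig S d) v v' := by
  obtain ⟨q, hq, g, hg, hfg, h3⟩ := add_rig h hp hf S d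
  exact h.three q (hq.trans hp) g hg _ _ _ _ _ _ h3 (hfg h1) (hfg h2)

theorem ver_left {p : Cond K W} (hp : p ≤ r) {f : Set (El K W × El K W)} (hf : Φ p f) {S : Set K}
    {x : FS K W} {v : El K W} (h1 : (El.ver S x, v) ∈ f) : ∃ y, v = .ver S y := by
  have h2 := (h.dom p hp f hf _ _ h1).1
  have h3 : El.t (.rig S 0) (.ver S x : El K W) (.ver S x) :=
    ⟨rfl, subset_rfl, by rw [push_self fun f hf => (h2.2.2 f hf).1, add_self]⟩
  have h4 := (t_iff h hp hf h1 h1).1 h3
  cases v with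
  | ver S' y => exact ⟨y, by rw [h4.1]⟩
  | rig S' y => exact h4.elim
  | pd s o => exact h4.elim
  | pb o b => exact h4.elim

theorem ver_right {p : Cond K W} (hp : p ≤ r) {f : Set (El K W × El K W)} (hf : Φ p f) {S : Set K}
    {x : FS K W} {u : El K W} (h1 : (u, El.ver S x) ∈ f) : ∃ y, u = .ver S y := by
  have h2 := (h.dom p hp f hf _ _ h1).2
  have h3 : El.t (.rig S 0) (.ver S x : El K W) (.ver S x) :=
    ⟨rfl, subset_rfl, by rw [push_self fun f hf => (h2.2.2 f hf).1, add_self]⟩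
  have h4 := (t_iff h hp hf h1 h1).2 h3
  cases u with
  | ver S' y => exact ⟨y, by rw [h4.1]⟩
  | rig S' y => exact h4.elim
  | pd s o => exact h4.elim
  | pb o b => exact h4.elim

theorem pb_left {p : Cond K W} (hp : p ≤ r) {f : Set (El K W × El K W)} (hf : Φ p f) {o : O1}
    {b : Bool} {v : El K W} (h1 : (El.pb o b, v) ∈ f) : ∃ o' b', v = .pb o' b' := by
  cases v with
  | ver S y =>
    obtain ⟨y, hy⟩ := ver_right h hp hf h1
    cases hy
  | rig S y =>
    have h2 := (rig_id h (S, y) p hp f hf).2 _ h1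
    cases h2
  | pd s o => exact (h.dom p hp f hf _ _ h1).2.elim
  | pb o b => exact ⟨_, _, rfl⟩

/-- coherence of the shifts -/
theorem coh {p : Cond K W} (hp : p ≤ r) {f : Set (El K W × El K W)} (hf : Φ p f) {S S' : Set K}
    {x x' y y' : FS K W} (hS : S' ⊆ S) (h1 : (El.ver S x, El.ver S x') ∈ f)
    (h2 : (El.ver S' y, El.ver S' y') ∈ f) : push S' x + y = push S' x' + y' := by
  have h3 : El.t (.rig S' (push S' x + y)) (.ver S x : El K W) (.ver S' y) := ⟨rfl, hS, rfl⟩
  exact ((t_iff h hp hf h1 h2).1 h3).2.2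

/-- coherence of the shifts -/
theorem coh' {p : Cond K W} (hp : p ≤ r) {f : Set (El K W × El K W)} (hf : Φ p f) {S S' : Set K}
    {b y y' : FS K W} (hS : S' ⊆ S) (h1 : (El.ver S 0, El.ver S b) ∈ f)
    (h2 : (El.ver S' y, El.ver S' y') ∈ f) : y' = y + push S' b := by
  have h3 := coh h hp hf hS h1 h2
  rw [push_zero, zero_add] at h3
  rw [h3, add_right_comm, add_self, zero_add]

end

/-! ### Positions -/

/-- positions -/
structure Pos (r : Cond K W) (Φ : Cond K W → Set (El K W × El K W) → Prop) where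
  /-- the condition -/
  p : Cond K W
  /-- the set of pairs -/
  f : Set (El K W × El K W)
  /-- the set of ordinals -/
  S : Set K
  /-- the shift -/
  b : FS K W
  hr : p ≤ r
  hf : Φ p f
  hU : S ⊆ p.1.U
  hD : ∀ S' x v, (El.ver S' x, v) ∈ f → S' ⊆ S
  hF : ∃ g, Φ p g ∧ f ⊆ g ∧ (El.ver S 0, El.ver S b) ∈ g

section

variable {r : Cond K W} {Φ : Cond K W → Set (El K W × El K W) → Prop}

/-- the order of the positions -/
def Pos.Lt (z' z : Pos r Φ) : Prop :=
  z'.p ≤ z.p ∧ z.f ⊆ z'.f ∧ (El.ver z.S 0, El.ver z.S z.b) ∈ z'.f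

/-- the order of the positions -/
def Pos.Le (z' z : Pos r Φ) : Prop := z' = z ∨ z'.Lt z

theorem Pos.Lt.trans {x y z : Pos r Φ} (h1 : x.Lt y) (h2 : y.Lt z) : x.Lt z :=
  ⟨h1.1.trans h2.1, h2.2.1.trans h1.2.1, h1.2.1 h2.2.2⟩

theorem Pos.Le.trans {x y z : Pos r Φ} (h1 : x.Le y) (h2 : y.Le z) : x.Le z := by
  rcases h1 with rfl | h1
  · exact h2
  · rcases h2 with rfl | h2
    · exact Or.inr h1
    · exact Or.inr (h1.trans h2)

theorem Pos.Le.p_le {z' z : Pos r Φ} (h : z'.Le z) : z'.p ≤ z.p := by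
  rcases h with rfl | h
  · exact le_rfl
  · exact h.1

theorem Pos.Le.f_le {z' z : Pos r Φ} (h : z'.Le z) : z.f ⊆ z'.f := by
  rcases h with rfl | h
  · exact subset_rfl
  · exact h.2.1

theorem Pos.Le.S_le {z' z : Pos r Φ} (h : z'.Le z) : z.S ⊆ z'.S := by
  rcases h with rfl | h
  · exact subset_rfl
  · exact z'.hD _ _ _ h.2.2

theorem Pos.anti {z : ℕ → Pos r Φ} (hz : ∀ n, (z (n + 1)).Le (z n)) {m n : ℕ} (h : m ≤ n) :
    (z n).Le (z m) := by
  induction n, h using Nat.le_induction with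
  | base => exact Or.inl rfl
  | succ n _ ih => exact (hz n).trans ih

variable (h : PosSys (P := Cond K W) El.l El.t HA HB r Φ)

include h

theorem Pos.dom (z : Pos r Φ) : tot z.b = 1 ∧ ∀ g ∈ z.b.support, Tot z.S g ∧ z.p ∈ FF g := by
  obtain ⟨g, hg, -, h2⟩ := z.hF
  have h3 := (h.dom z.p z.hr g hg _ _ h2).2
  exact ⟨h3.2.1, h3.2.2⟩

theorem Pos.Le.push_eq {z' z : Pos r Φ} (hz : z'.Le z) : push z.S z'.b = z.b := by
  rcases hz with rfl | hz
  · exact push_self fun g hg => ((Pos.dom h z').2 g hg).1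
  · obtain ⟨g, hg, hfg, h2⟩ := z'.hF
    have h3 := coh' h z'.hr hg (z'.hD _ _ _ hz.2.2) h2 (hfg hz.2.2)
    rw [zero_add] at h3
    exact h3.symm

theorem Pos.Le.card_le {z' z : Pos r Φ} (hz : z'.Le z) :
    z.b.support.card ≤ z'.b.support.card := by
  classical
  rw [← hz.push_eq h]
  exact (Finset.card_le_card Finsupp.mapDomain_support).trans Finset.card_image_le

/-- positions with a given set of pairs -/
theorem exists_pos {p : Cond K W} (hp : p ≤ r) {f : Set (El K W × El K W)} (hf : Φ p f)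
    [Nonempty W] {T : Set K} (hT : T.Countable) : ∃ z : Pos r Φ, z.p ≤ p ∧ z.f = f ∧ T ⊆ z.S := by
  set S : Set K := T ∪ ⋃ x ∈ f, {a | ∃ S' y, x.1 = El.ver S' y ∧ a ∈ S'} with hS
  have hSc : S.Countable := by
    refine hT.union ((h.ctb p hp f hf).biUnion fun x hx => ?_)
    obtain ⟨u, v⟩ := x
    cases u with
    | ver S' y =>
      refine (h.dom p hp f hf _ _ hx).1.1.mono ?_
      rintro a ⟨S'', y', h1, h2⟩
      injection h1 with h3
      rw [h3]
      exact h2
    | rig S' y =>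
      refine countable_empty.mono ?_
      rintro a ⟨S'', y', h1, h2⟩
      cases h1
    | pd s o =>
      refine countable_empty.mono ?_
      rintro a ⟨S'', y', h1, h2⟩
      cases h1
    | pb o b =>
      refine countable_empty.mono ?_
      rintro a ⟨S'', y', h1, h2⟩
      cases h1
  obtain ⟨q, hq, g, hg, hfg, h2, -⟩ := h.ext p hp f hf {.ver S 0} ∅
    (countable_singleton _) countable_empty (by
      rintro _ rfl
      exact ⟨hSc, Finsupp.sum_zero_index, fun f hf => by simp at hf⟩) (fun _ h => h.elim)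
  obtain ⟨v, hv⟩ := h2 _ rfl
  obtain ⟨b, rfl⟩ := ver_left h (hq.trans hp) hg hv
  obtain ⟨q', hq', hU, -, -⟩ := add_set' q hSc
  refine ⟨⟨q', f, S, b, (hq'.trans hq).trans hp, h.mono p hp f hf q' (hq'.trans hq), ?_, ?_,
    g, h.mono q (hq.trans hp) g hg q' hq', hfg, hv⟩, hq'.trans hq, rfl, subset_union_left⟩
  · rw [hU]
    exact subset_union_right
  · intro S' x v hv a ha
    exact Or.inr (mem_biUnion hv ⟨S', x, rfl, ha⟩)

theorem Pos.ext [Nonempty W] (z : Pos r Φ) {q : Cond K W} (hq : q ≤ z.p) {T : Set K}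
    (hT : T.Countable) : ∃ z' : Pos r Φ, z'.Lt z ∧ z'.p ≤ q ∧ T ⊆ z'.S := by
  obtain ⟨g, hg, hfg, h2⟩ := z.hF
  obtain ⟨z', h3, h4, h5⟩ := exists_pos h (hq.trans z.hr) (h.mono z.p z.hr g hg q hq) hT
  refine ⟨z', ⟨h3.trans hq, ?_, ?_⟩, h3, h5⟩
  · rw [h4]
    exact hfg
  · rw [h4]
    exact h2

theorem Pos.limit [Nonempty W] (z : ℕ → Pos r Φ) (q : Cond K W) (hz : ∀ n, (z (n + 1)).Le (z n))
    (hq : ∀ n, q ≤ (z n).p) : ∃ z' : Pos r Φ, (∀ n, z'.Le (z n)) ∧ z'.p ≤ q := by
  by_cases hc : ∃ N, ∀ n ≥ N, z n = z N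
  · obtain ⟨N, hN⟩ := hc
    obtain ⟨z', h1, h2, -⟩ := (z N).ext h (hq N) countable_empty
    refine ⟨z', fun n => ?_, h2⟩
    rcases le_total N n with h3 | h3
    · rw [hN n h3]
      exact Or.inr h1
    · exact Pos.Le.trans (Or.inr h1) (Pos.anti hz h3)
  · push Not at hc
    obtain ⟨q', hq', g, hg, hsub⟩ := h.closed q ((hq 0).trans (z 0).hr) (range fun n => (z n).f)
      (countable_range _) (by
        rintro _ ⟨n, rfl⟩
        exact h.mono _ (z n).hr _ (z n).hf q (hq n)) (by
        rintro _ ⟨n, rfl⟩ _ ⟨m, rfl⟩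
        rcases le_total n m with h1 | h1
        · exact Or.inl (Pos.anti hz h1).f_le
        · exact Or.inr (Pos.anti hz h1).f_le)
    have hr' : q' ≤ r := (hq'.trans (hq 0)).trans (z 0).hr
    obtain ⟨z', h3, h4, -⟩ := exists_pos h hr' hg countable_empty
    refine ⟨z', fun n => Or.inr ⟨(h3.trans hq').trans (hq n), ?_, ?_⟩, h3.trans hq'⟩
    · rw [h4]
      exact hsub _ ⟨n, rfl⟩
    · obtain ⟨m, hm, hne⟩ := hc n
      rcases Pos.anti hz hm with h5 | h5
      · exact (hne h5).elim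
      · rw [h4]
        exact hsub _ ⟨m, rfl⟩ h5.2.2

theorem exists_z0 [Nonempty W] : ∃ z0 : Pos r Φ, ∀ z : Pos r Φ, z.Le z0 →
    z.b.support.card = z0.b.support.card := by
  by_contra hc
  push Not at hc
  have h1 : ∀ z : Pos r Φ, ∃ z' : Pos r Φ, z'.Le z ∧ z.b.support.card < z'.b.support.card := by
    intro z
    obtain ⟨z', h2, h3⟩ := hc z
    exact ⟨z', h2, lt_of_le_of_ne (h2.card_le h) (Ne.symm h3)⟩
  choose F hF1 hF2 using h1
  obtain ⟨q, hq, f, hf⟩ := h.ne r le_rfl
  obtain ⟨zs, -, -, -⟩ := exists_pos h hq hf countable_empty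
  let z : ℕ → Pos r Φ := fun n => Nat.rec zs (fun _ z => F z) n
  have hz : ∀ n, z (n + 1) = F (z n) := fun n => rfl
  have hle : ∀ n, (z (n + 1)).Le (z n) := fun n => by rw [hz]; exact hF1 _
  have hA : Antitone (fun n => (z n).p) := antitone_nat_of_succ_le fun n => (hle n).p_le
  obtain ⟨z', h2, -⟩ := Pos.limit h z (lim _ hA) hle (lim_le _ hA)
  have hcard : ∀ n, n ≤ (z n).b.support.card := by
    intro n
    induction n with
    | zero => exact Nat.zero_le _
    | succ n ih =>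
      rw [hz]
      exact Nat.succ_le_of_lt (ih.trans_lt (hF2 (z n)))
  have h3 := (h2 (z'.b.support.card + 1)).card_le h
  have h4 := hcard (z'.b.support.card + 1)
  omega

end

/-- the pairs of pure elements -/
def lamOf {r : Cond K W} {Φ : Cond K W → Set (El K W × El K W) → Prop}
    (h : PosSys (P := Cond K W) El.l El.t HA HB r Φ) (z : Pos r Φ) : Lam :=
  ⟨{a | (El.pb a.1.1 a.1.2, El.pb a.2.1 a.2.2) ∈ z.f}, (h.ctb z.p z.hr z.f z.hf).preimage (by
    rintro ⟨⟨o, b⟩, ⟨o', b'⟩⟩ ⟨⟨o₁, b₁⟩, ⟨o₁', b₁'⟩⟩ h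
    rw [Prod.mk.injEq] at h
    obtain ⟨h1, h2⟩ := h
    injection h1 with h3 h4
    injection h2 with h5 h6
    exact Prod.ext (Prod.ext h3 h4) (Prod.ext h5 h6))⟩

theorem eq_sum (b : FS K W) : b = ∑ g ∈ b.support, Finsupp.single g 1 := by
  conv_lhs => rw [← Finsupp.sum_single b, Finsupp.sum]
  refine Finset.sum_congr rfl fun g hg => ?_
  have h1 : b g ≠ 0 := Finsupp.mem_support_iff.1 hg
  have h2 : ∀ a : ZMod 2, a ≠ 0 → a = 1 := by decide
  rw [h2 _ h1]

end SC

open SC

theorem sys_cre {r : Cond K W} {Φ : Cond K W → Set (El K W × El K W) → Prop} [Nonempty W]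
    (h : PosSys (P := Cond K W) El.l El.t HA HB r Φ) :
    ∃ I : Type, Finite I ∧ Nonempty I ∧ Nonempty (Cre K W I Lam) := by
  classical
  obtain ⟨z0, hz0⟩ := exists_z0 h
  have hbij : ∀ z' z : Pos r Φ, z'.Le z → z.Le z0 → (∀ g ∈ z'.b.support, res z.S g ∈ z.b.support) ∧
      (∀ i ∈ z.b.support, ∃ g ∈ z'.b.support, res z.S g = i) ∧
      (∀ g ∈ z'.b.support, ∀ g' ∈ z'.b.support, res z.S g = res z.S g' → g = g') := by
    intro z' z h1 h2
    have h3 : z.b.support ⊆ z'.b.support.image (res z.S) := by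
      conv_lhs => rw [← h1.push_eq h]
      exact Finsupp.mapDomain_support
    have h4 : z'.b.support.card = z.b.support.card := by
      rw [hz0 z' (h1.trans h2), hz0 z h2]
    have h5 : z.b.support = z'.b.support.image (res z.S) :=
      Finset.eq_of_subset_of_card_le h3 (Finset.card_image_le.trans h4.le)
    refine ⟨fun g hg => ?_, fun i hi => ?_, ?_⟩
    · rw [h5]
      exact Finset.mem_image_of_mem _ hg
    · rw [h5] at hi
      exact Finset.mem_image.1 hi
    · have h6 : (z'.b.support.image (res z.S)).card = z'.b.support.card := by rw [← h5, h4]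
      intro g hg g' hg' h7
      exact Finset.card_image_iff.1 h6 hg hg' h7
  have hex : ∀ z : {z : Pos r Φ // z.Le z0}, ∀ i : z0.b.support, ∃ g ∈ z.1.b.support,
      res z0.S g = i.1 := fun z i => (hbij z.1 z0 z.2 (Or.inl rfl)).2.1 i.1 i.2
  choose F hF1 hF2 using hex
  have hres : ∀ z' z : {z : Pos r Φ // z.Le z0}, z'.1.Le z.1 → ∀ i,
      res z.1.S (F z' i) = F z i := by
    intro z' z hle i
    refine (hbij z.1 z0 z.2 (Or.inl rfl)).2.2 _ ((hbij z'.1 z.1 hle z.2).1 _ (hF1 z' i)) _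
      (hF1 z i) ?_
    rw [res_res z.2.S_le, hF2, hF2]
  have hFinj : ∀ (z : {z : Pos r Φ // z.Le z0}) (i j), F z i = F z j → i = j := by
    intro z i j hij
    apply Subtype.ext
    rw [← hF2 z i, hij, hF2]
  have hsum : ∀ z : {z : Pos r Φ // z.Le z0}, z.1.b = ∑ i, Finsupp.single (F z i) 1 := by
    intro z
    have h1 : z.1.b.support = Finset.univ.image (F z) := by
      ext g
      constructor
      · intro hg
        have h2 := (hbij z.1 z0 z.2 (Or.inl rfl)).1 g hg
        refine Finset.mem_image.2 ⟨⟨_, h2⟩, Finset.mem_univ _, ?_⟩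
        exact (hbij z.1 z0 z.2 (Or.inl rfl)).2.2 _ (hF1 z _) _ hg (hF2 z _)
      · intro hg
        obtain ⟨i, -, rfl⟩ := Finset.mem_image.1 hg
        exact hF1 z i
    conv_lhs => rw [eq_sum z.1.b, h1]
    rw [Finset.sum_image fun i _ j _ hij => hFinj z i j hij]
  have htot : ∀ (z : {z : Pos r Φ // z.Le z0}) i, Tot z.1.S (F z i) := fun z i =>
    ((z.1.dom h).2 _ (hF1 z i)).1
  have hleF : ∀ z' z : {z : Pos r Φ // z.Le z0}, z'.1.Le z.1 → ∀ i, F z i ⊆ F z' i := by
    intro z' z hle i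
    rw [← hres z' z hle i]
    exact fun x hx => hx.1
  refine ⟨z0.b.support, inferInstance, ?_, ⟨?_⟩⟩
  · by_contra hc
    rw [not_nonempty_iff, Finset.isEmpty_coe_sort, Finsupp.support_eq_empty] at hc
    have h1 := (z0.dom h).1
    rw [hc, tot, Finsupp.sum_zero_index] at h1
    exact absurd h1 (by decide)
  · refine
      { Z := {z : Pos r Φ // z.Le z0}
        p := fun z => z.1.p
        S := fun z => z.1.S
        F := F
        lam := fun z => lamOf h z.1
        le := fun z' z => z'.1.Le z.1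
        refl := fun z => Or.inl rfl
        trans := fun x y z h1 h2 => h1.trans h2
        ctS := fun z => z.1.p.2.ctU.mono z.1.hU
        subU := fun z => z.1.hU
        totF := htot
        ff := fun z i => ((z.1.dom h).2 _ (hF1 z i)).2
        le_p := fun z' z h1 => h1.p_le
        le_S := fun z' z h1 => h1.S_le
        le_F := hleF
        z0 := ⟨z0, Or.inl rfl⟩
        le0 := fun z => z.2
        dist := hFinj _
        ext := ?_
        limit := ?_
        join := ?_ }
    · intro z q T hq hT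
      obtain ⟨z', h1, h2, h3⟩ := z.1.ext h hq hT
      exact ⟨⟨z', Pos.Le.trans (Or.inr h1) z.2⟩, Or.inr h1, h2, h3⟩
    · intro z q hz hq
      obtain ⟨z', h1, h2⟩ := Pos.limit h (fun n => (z n).1) q hz hq
      exact ⟨⟨z', (h1 0).trans (z 0).2⟩, h1, h2⟩
    · intro z z₁ q T hlam hq hq₁ hT hF
      obtain ⟨g, hg, hfg, hpr⟩ := z.1.hF
      obtain ⟨g₁, hg₁, hfg₁, hpr₁⟩ := z₁.1.hF
      have hqr : q ≤ r := hq.trans z.1.hr
      have hΦg : Φ q g := h.mono _ z.1.hr g hg q hq
      have hc₁ := h.ctb _ z₁.1.hr z₁.1.f z₁.1.hf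
      obtain ⟨q', hq', k, hk, hgk, hdk, -⟩ := h.ext q hqr g hΦg
        (insert (El.ver z₁.1.S 0) (Prod.fst '' z₁.1.f)) ∅
        ((hc₁.image _).insert _) countable_empty (by
          rintro u (rfl | ⟨⟨u, v⟩, huv, rfl⟩)
          · exact (HA_reg _).down _ (h.dom _ z₁.1.hr g₁ hg₁ _ _ hpr₁).1 _ hq₁
          · exact (HA_reg _).down _ (h.dom _ z₁.1.hr _ z₁.1.hf _ _ huv).1 _ hq₁)
        (fun _ h => h.elim)
      have hq'r : q' ≤ r := hq'.trans hqr
      obtain ⟨z', h1, h2, h3⟩ := exists_pos h hq'r hk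
        (hT.union (z₁.1.p.2.ctU.mono z₁.1.hU))
      have hlt : z'.Lt z.1 := ⟨(h1.trans hq').trans hq, by rw [h2]; exact hfg.trans hgk, by
        rw [h2]; exact hgk hpr⟩
      have hz'0 : z'.Le z0 := Pos.Le.trans (Or.inr hlt) z.2
      have hS₁ : z₁.1.S ⊆ z'.S := subset_union_right.trans h3
      have hF' := hF ⟨z', hz'0⟩ (Or.inr hlt) (h1.trans hq') hS₁
      -- the value at `S₁`
      have hb : push z₁.1.S z'.b = z₁.1.b := by
        rw [hsum ⟨z', hz'0⟩, hsum z₁, push, Finsupp.mapDomain_finsetSum]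
        refine Finset.sum_congr rfl fun i _ => ?_
        rw [Finsupp.mapDomain_single]
        congr 1
        apply Subset.antisymm
        · rintro ⟨a, w⟩ ⟨hx, hxS⟩
          obtain ⟨w', hw'⟩ := (htot z₁ i).2.1 a hxS
          have h4 : w = w' := (htot ⟨z', hz'0⟩ i).2.2 a w w' hx (hF' i hw')
          rw [h4]
          exact hw'
        · exact fun x hx => ⟨hF' i hx, (htot z₁ i).1 x hx⟩
      obtain ⟨g', hg', hfg', hpr'⟩ := z'.hF
      rw [h2] at hfg'
      -- the values of `k`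
      have hval : ∀ S' x v, (El.ver S' x, v) ∈ k → S' ⊆ z₁.1.S →
          v = El.ver S' (x + push S' z₁.1.b) := by
        intro S' x v hv hS'
        obtain ⟨y, rfl⟩ := ver_left h hq'r hk hv
        have h4 := coh' h z'.hr hg' (hS'.trans hS₁) hpr' (hfg' hv)
        rw [h4, ← push_push hS', hb]
      have hsub : z₁.1.f ⊆ k := by
        rintro ⟨u, v⟩ huv
        obtain ⟨v', hv'⟩ := hdk u (Or.inr ⟨_, huv, rfl⟩)
        cases u with
        | rig S x =>
          have h4 := (rig_id h (S, x) _ hq'r k hk).1 _ hv'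
          have h5 := (rig_id h (S, x) _ z₁.1.hr _ z₁.1.hf).1 _ huv
          rw [h4] at hv'
          rw [h5]
          exact hv'
        | ver S x =>
          have h4 := z₁.1.hD _ _ _ huv
          have h5 := hval _ _ _ hv' h4
          obtain ⟨y, rfl⟩ := ver_left h z₁.1.hr z₁.1.hf huv
          have h6 := coh' h z₁.1.hr hg₁ h4 hpr₁ (hfg₁ huv)
          rw [h6, ← h5]
          exact hv'
        | pd s o => exact (h.dom _ z₁.1.hr _ z₁.1.hf _ _ huv).1.elim
        | pb o b =>
          obtain ⟨o', b', rfl⟩ := pb_left h z₁.1.hr z₁.1.hf huv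
          have h4 : (((o, b), (o', b')) : (O1 × Bool) × (O1 × Bool)) ∈ (lamOf h z₁.1).1 := huv
          have h5 : (((o, b), (o', b')) : (O1 × Bool) × (O1 × Bool)) ∈ (lamOf h z.1).1 := by
            rw [hlam]
            exact h4
          exact hgk (hfg h5)
      have hpair : (El.ver z₁.1.S 0, El.ver z₁.1.S z₁.1.b) ∈ k := by
        obtain ⟨v, hv⟩ := hdk _ (mem_insert _ _)
        have h4 := hval _ _ _ hv subset_rfl
        rw [zero_add, push_self fun g hg => ((z₁.1.dom h).2 g hg).1] at h4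
        rw [← h4]
        exact hv
      refine ⟨⟨z', hz'0⟩, Or.inr hlt, Or.inr ⟨(h1.trans hq').trans hq₁, ?_, ?_⟩, h1.trans hq',
        subset_union_left.trans h3⟩
      · rw [h2]
        exact hsub
      · rw [h2]
        exact hpair

end Pool.Agent.Helper23.PI
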