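import Pool.Agent.Helper23.PI.TS

/-!
# Transfer: a forced back-and-forth family gives one in the extension
-/

open Cardinal Ordinal Set Pool.Agent.Helper96.Fc

set_option linter.unusedSectionVars false

namespace Pool.Agent.Helper23.PI

variable {P : Type} [PartialOrder P] [OrderTop P] {E : Type}

/-- name of the family -/
noncomputable def JN (Φ : P → Set (E × E) → Prop) : Nm P :=
  Nm.mk {x : P × Set (E × E) // Φ x.1 x.2} (fun x => posN P x.1.2) (fun x => x.1.1)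

/-- the relations for `T2` -/
def RT2 (H₁ H₂ : E → Set P) (Φ : P → Set (E × E) → Prop) : ℕ → P → List (Obj P) → Prop
  | 0, p, L => ∃ (S : Set E) (u : E), L = [Sum.inl (eN P u), Sum.inl (stN P S)] ∧ u ∈ S ∧
      ∀ q ≤ p, q ∉ H₁ u
  | 1, p, L => ∃ (S : Set E) (u : E), L = [Sum.inl (eN P u), Sum.inl (stN P S)] ∧ u ∈ S ∧
      ∀ q ≤ p, q ∉ H₂ u
  | 2, p, L => ∃ (g f : Set (E × E)) (S T : Set E), L = [Sum.inl (posN P g), Sum.inl (posN P f),
      Sum.inl (stN P S), Sum.inl (stN P T)] ∧ Φ p g ∧ f ⊆ g ∧ (∀ u ∈ S, ∃ v, (u, v) ∈ g) ∧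
      (∀ v ∈ T, ∃ u, (u, v) ∈ g)
  | 3, p, L => ∃ (C : Set (CP E)) (f : CP E), L = [Sum.inl (cpN P f), Sum.inl (fmN P C)] ∧
      f ∈ C ∧ ∀ q ≤ p, ¬ Φ q f.1
  | 4, p, L => ∃ (y : Obj P) (C : Set (CP E)), L = [y, Sum.inl (fmN P C)] ∧ ∀ f ∈ C, Φ p f.1
  | 5, p, L => ∃ (g : Set (E × E)) (C : Set (CP E)), L = [Sum.inl (posN P g), Sum.inl (fmN P C)] ∧
      Φ p g ∧ ∀ f ∈ C, f.1 ⊆ g
  | _, _, _ => False

variable {X : Set (Obj P)} {G : Set P}

theorem mem_J (_ : Basic X G) {Φ : P → Set (E × E) → Prop} {z : ZFSet.{0}} :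
    z ∈ val X G (JN Φ) ↔ ∃ p ∈ G, ∃ f, Φ p f ∧ (Sum.inl (posN P f) : Obj P) ∈ X ∧
      val X G (posN P f) = z := by
  rw [mem_val]
  constructor
  · rintro ⟨⟨⟨p, f⟩, h1⟩, h2, h3, h4⟩
    exact ⟨p, h2, f, h1, h3, h4⟩
  · rintro ⟨p, hp, f, h1, h3, h4⟩
    exact ⟨⟨(p, f), h1⟩, hp, h3, h4⟩

/-- one condition for all elements of a countable set -/
theorem all_mem (h : Basic X G) {H : E → Set P} (hH : ∀ u, RegSet (H u))
    {S : Set E} (hSX : (Sum.inl (stN P S) : Obj P) ∈ X)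
    (hR : GenR X G (fun p L => ∃ (S : Set E) (u : E),
      L = [Sum.inl (eN P u), Sum.inl (stN P S)] ∧ u ∈ S ∧ ∀ q ≤ p, q ∉ H u))
    (hS : ∀ u ∈ S, ∃ p ∈ G, p ∈ H u) : ∃ p ∈ G, ∀ u ∈ S, p ∈ H u := by
  obtain ⟨p, hp, h1⟩ := gen_no hR (l := [Sum.inl (stN P S)]) (l1X hSX) (by
    rintro p hp _ - ⟨S', u, he, h1, h2⟩
    simp only [List.cons.injEq, Sum.inl.injEq, and_true] at he
    obtain ⟨rfl, he⟩ := he
    rw [← stN_injective he] at h1
    obtain ⟨q, hq, h3⟩ := hS u h1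
    obtain ⟨r, hr, h4, h5⟩ := h.filt.compat hp hq
    exact h2 r h4 ((hH u).down q h3 r h5))
  refine ⟨p, hp, fun u hu => (hH u).dense p fun q hq => ?_⟩
  by_contra hcon
  push Not at hcon
  exact h1 q hq _ ⟨S, u, rfl, hu, hcon⟩

/-- a lower bound that decides countably many things -/
theorem all_low (hσ : SigmaClosed P) {Q : Type} {Ψ : P → Q → Prop}
    (hm : ∀ p q f, q ≤ p → Ψ p f → Ψ q f) {C : Set Q} (hC : C.Countable) {p : P}
    (hd : ∀ q ≤ p, ∀ f ∈ C, ∃ r ≤ q, Ψ r f) : ∃ q ≤ p, ∀ f ∈ C, Ψ q f := by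
  classical
  rcases C.eq_empty_or_nonempty with rfl | hne
  · exact ⟨p, le_rfl, fun f hf => hf.elim⟩
  obtain ⟨e, he⟩ := hC.exists_eq_range hne
  have heC : ∀ n, e n ∈ C := fun n => by rw [he]; exact ⟨n, rfl⟩
  let stp : ℕ → P → P := fun n s => if hA : ∃ r, r ≤ s ∧ Ψ r (e n) then hA.choose else s
  let s : ℕ → P := fun n => Nat.rec p stp n
  have hs0 : s 0 = p := rfl
  have hs : ∀ n : ℕ, s (n + 1) = stp n (s n) := fun n => rfl
  have hst1 : ∀ (n : ℕ) (s : P) (hA : ∃ r, r ≤ s ∧ Ψ r (e n)), stp n s = hA.choose :=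
    fun n s hA => dif_pos hA
  have hsp : ∀ n, s n ≤ p := by
    intro n
    induction n with
    | zero => exact le_rfl
    | succ n ih =>
      have hA : ∃ r, r ≤ s n ∧ Ψ r (e n) := by
        obtain ⟨r, h1, h2⟩ := hd _ ih (e n) (heC n)
        exact ⟨r, h1, h2⟩
      rw [hs, hst1 _ _ hA]
      exact hA.choose_spec.1.trans ih
  have hA : ∀ n, ∃ r, r ≤ s n ∧ Ψ r (e n) := by
    intro n
    obtain ⟨r, h1, h2⟩ := hd _ (hsp n) (e n) (heC n)
    exact ⟨r, h1, h2⟩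
  have hanti : Antitone s := antitone_nat_of_succ_le fun n => by
    rw [hs, hst1 _ _ (hA n)]
    exact (hA n).choose_spec.1
  obtain ⟨q, hq⟩ := hσ s hanti
  refine ⟨q, hq 0, fun f hf => ?_⟩
  rw [he] at hf
  obtain ⟨n, rfl⟩ := hf
  refine hm _ _ _ (hq (n + 1)) ?_
  rw [hs, hst1 _ _ (hA n)]
  exact (hA n).choose_spec.2

/-- **Block T2.** -/
theorem T2 (hσ : SigmaClosed P) (h : Basic X G) (hc : Clos X) (hi : CI X)
    {l : E → E → Prop} {t : E → E → E → Prop} {H₁ H₂ : E → Set P}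
    (h₁ : ∀ u, RegSet (H₁ u)) (h₂ : ∀ u, RegSet (H₂ u)) {Φ : P → Set (E × E) → Prop}
    (hRE : ∀ k, GenR X G (RTL (eN P : E → Nm P) k))
    (hRC : ∀ k, GenR X G (RTL (cpN P : CP E → Nm P) k))
    (hR : ∀ k, GenR X G (RT2 H₁ H₂ Φ k)) (hJ : (Sum.inl (JN Φ) : Obj P) ∈ X)
    (hΦ : PosSys l t H₁ H₂ ⊤ Φ) :
    Sim (Mod X G) (strN X G l t H₁) (strN X G l t H₂) := by
  refine ⟨val X G (JN Φ), mem_Mod hJ, ?_, ?_, ?_⟩
  · intro z hz
    obtain ⟨p, hp, f, hf, hfX, rfl⟩ := (mem_J h).1 hz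
    have hfc : f.Countable := hΦ.ctb p le_top f hf
    have hX := fun u v (huv : (u, v) ∈ f) => pos_X hc hi hfc hfX huv
    have hd := hΦ.dom p le_top f hf
    constructor
    · exact mem_Mod hfX
    · exact hi.ctb h.filt hc hfX hfc.to_subtype
    · intro w hw
      obtain ⟨u, v, huv, hu, hv, rfl⟩ := (mem_pos h hc).1 hw
      exact ⟨_, (mem_u' h hu).2 ⟨p, hp, (hd u v huv).1⟩, _, (mem_u' h hv).2 ⟨p, hp, (hd u v huv).2⟩,
        rfl⟩
    · intro x y y' hy hy'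
      obtain ⟨u, v, huv, hu, hv, he⟩ := (mem_pos h hc).1 hy
      obtain ⟨rfl, rfl⟩ := ZFSet.pair_injective he
      obtain ⟨u', v', huv', hu', hv', he⟩ := (mem_pos h hc).1 hy'
      obtain ⟨he', rfl⟩ := ZFSet.pair_injective he
      obtain rfl := val_e_inj h hu hu' he'
      rw [hΦ.fn p le_top f hf _ _ _ huv huv']
    · intro x x' y hy hy'
      obtain ⟨u, v, huv, hu, hv, he⟩ := (mem_pos h hc).1 hy
      obtain ⟨rfl, rfl⟩ := ZFSet.pair_injective he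
      obtain ⟨u', v', huv', hu', hv', he⟩ := (mem_pos h hc).1 hy'
      obtain ⟨rfl, he'⟩ := ZFSet.pair_injective he
      obtain rfl := val_e_inj h hv hv' he'
      rw [hΦ.inj p le_top f hf _ _ _ huv huv']
    · intro x y x' y' hy hy'
      obtain ⟨u, v, huv, hu, hv, he⟩ := (mem_pos h hc).1 hy
      obtain ⟨rfl, rfl⟩ := ZFSet.pair_injective he
      obtain ⟨u', v', huv', hu', hv', he⟩ := (mem_pos h hc).1 hy'
      obtain ⟨rfl, rfl⟩ := ZFSet.pair_injective he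
      change ZFSet.pair _ _ ∈ val X G (lN l H₁) ↔ ZFSet.pair _ _ ∈ val X G (lN l H₂)
      rw [mem_l h hc h₁ hu hu', mem_l h hc h₂ hv hv', hΦ.two p le_top f hf _ _ _ _ huv huv']
      refine and_congr_right fun _ => ⟨fun _ => ?_, fun _ => ?_⟩
      · exact ⟨⟨p, hp, (hd _ _ huv).2⟩, p, hp, (hd _ _ huv').2⟩
      · exact ⟨⟨p, hp, (hd _ _ huv).1⟩, p, hp, (hd _ _ huv').1⟩
    · intro x y x' y' x'' y'' hy hy' hy''
      obtain ⟨u, v, huv, hu, hv, he⟩ := (mem_pos h hc).1 hy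
      obtain ⟨rfl, rfl⟩ := ZFSet.pair_injective he
      obtain ⟨u', v', huv', hu', hv', he⟩ := (mem_pos h hc).1 hy'
      obtain ⟨rfl, rfl⟩ := ZFSet.pair_injective he
      obtain ⟨u'', v'', huv'', hu'', hv'', he⟩ := (mem_pos h hc).1 hy''
      obtain ⟨rfl, rfl⟩ := ZFSet.pair_injective he
      change ZFSet.pair _ _ ∈ val X G (tN t H₁) ↔ ZFSet.pair _ _ ∈ val X G (tN t H₂)
      rw [mem_t h hc h₁ hu hu' hu'', mem_t h hc h₂ hv hv' hv'',
        hΦ.three p le_top f hf _ _ _ _ _ _ huv huv' huv'']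
      refine and_congr_right fun _ => ⟨fun _ => ?_, fun _ => ?_⟩
      · exact ⟨⟨p, hp, (hd _ _ huv).2⟩, ⟨p, hp, (hd _ _ huv').2⟩, p, hp, (hd _ _ huv'').2⟩
      · exact ⟨⟨p, hp, (hd _ _ huv).1⟩, ⟨p, hp, (hd _ _ huv').1⟩, p, hp, (hd _ _ huv'').1⟩
  · intro z hz a ha b hb haA hbB hac hbc
    obtain ⟨p, hp, f, hf, hfX, rfl⟩ := (mem_J h).1 hz
    obtain ⟨S, hS, hSX, rfl⟩ := TL (eN P : E → Nm P) hσ h hc hRE ha hac (by
      intro x hx
      obtain ⟨u, -, h3, h4⟩ := (mem_u h).1 (haA hx)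
      exact ⟨u, h3, h4⟩)
    obtain ⟨T, hT, hTX, rfl⟩ := TL (eN P : E → Nm P) hσ h hc hRE hb hbc (by
      intro x hx
      obtain ⟨u, -, h3, h4⟩ := (mem_u h).1 (hbB hx)
      exact ⟨u, h3, h4⟩)
    have hSG : ∀ u ∈ S, ∃ p ∈ G, p ∈ H₁ u := by
      intro u hu
      have huX : (Sum.inl (eN P u) : Obj P) ∈ X := hi.cN hS hSX hu
      exact (mem_u' h huX).1 (haA ((mem_cN h.filt).2 ⟨u, hu, huX, rfl⟩))
    have hTG : ∀ u ∈ T, ∃ p ∈ G, p ∈ H₂ u := by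
      intro u hu
      have huX : (Sum.inl (eN P u) : Obj P) ∈ X := hi.cN hT hTX hu
      exact (mem_u' h huX).1 (hbB ((mem_cN h.filt).2 ⟨u, hu, huX, rfl⟩))
    obtain ⟨p1, hp1, hS1⟩ := all_mem h h₁ hSX (hR 0) hSG
    obtain ⟨p2, hp2, hT1⟩ := all_mem h h₂ hTX (hR 1) hTG
    obtain ⟨q1, hq1, e1, e2⟩ := h.filt.compat hp1 hp2
    obtain ⟨q2, hq2, e3, e4⟩ := h.filt.compat hq1 hp
    obtain ⟨q, hq, y, hyX, g, f', S', T', he, h3, h4, h5, h6⟩ := gen_yes h.filt (hR 2)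
      (l := [Sum.inl (posN P f), Sum.inl (stN P S), Sum.inl (stN P T)])
      (lcX hfX (lcX hSX (l1X hTX))) hq2 (by
        intro q hq
        obtain ⟨r, hr, g, h3, h4, h5, h6⟩ := hΦ.ext q le_top f
          (hΦ.mono p le_top f hf q (hq.trans e4)) S T hS hT
          (fun u hu => (h₁ u).down p1 (hS1 u hu) q (hq.trans (e3.trans e1)))
          (fun u hu => (h₂ u).down p2 (hT1 u hu) q (hq.trans (e3.trans e2)))
        exact ⟨r, hr, _, g, f, S, T, rfl, h3, h4, h5, h6⟩)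
    simp only [List.cons.injEq, Sum.inl.injEq, and_true] at he
    obtain ⟨rfl, he1, he2, he3⟩ := he
    obtain rfl := posN_injective he1
    obtain rfl := stN_injective he2
    obtain rfl := stN_injective he3
    have hfc : f.Countable := hΦ.ctb p le_top f hf
    have hgc : g.Countable := hΦ.ctb q le_top g h3
    refine ⟨val X G (posN P g), (mem_J h).2 ⟨q, hq, g, h3, hyX, rfl⟩,
      (pos_sub h hc hi hfc hfX).2 h4, ?_, ?_⟩
    · intro x hx
      obtain ⟨u, hu, huX, rfl⟩ := (mem_cN h.filt).1 hx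
      obtain ⟨v, huv⟩ := h5 u hu
      obtain ⟨h7, h8⟩ := pos_X hc hi hgc hyX huv
      exact ⟨_, (mem_pos_iff h hc h7 h8).2 huv⟩
    · intro x hx
      obtain ⟨v, hv, hvX, rfl⟩ := (mem_cN h.filt).1 hx
      obtain ⟨u, huv⟩ := h6 v hv
      obtain ⟨h7, h8⟩ := pos_X hc hi hgc hyX huv
      exact ⟨_, (mem_pos_iff h hc h7 h8).2 huv⟩
  · intro c hcM hcJ hcc hch
    obtain ⟨C, hC, hCX, rfl⟩ := TL (cpN P : CP E → Nm P) hσ h hc hRC hcM hcc (by
      intro x hx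
      obtain ⟨p, hp, f, hf, hfX, rfl⟩ := (mem_J h).1 (hcJ hx)
      exact ⟨⟨f, hΦ.ctb p le_top f hf⟩, hfX, rfl⟩)
    have hfX : ∀ f ∈ C, (Sum.inl (posN P f.1) : Obj P) ∈ X := fun f hf => hi.cN hC hCX hf
    have hfm : ∀ f ∈ C, val X G (posN P f.1) ∈ val X G (fmN P C) := fun f hf =>
      (mem_cN h.filt).2 ⟨f, hf, hfX f hf, rfl⟩
    have hCG : ∀ f ∈ C, ∃ p ∈ G, Φ p f.1 := by
      intro f hf
      obtain ⟨p, hp, f', hf', hfX', he⟩ := (mem_J h).1 (hcJ (hfm f hf))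
      have hfc' : f'.Countable := hΦ.ctb p le_top f' hf'
      have e1 : f' ⊆ f.1 := (pos_sub h hc hi hfc' hfX').1 (by rw [he])
      have e2 : f.1 ⊆ f' := (pos_sub h hc hi f.2 (hfX f hf)).1 (by rw [he])
      rw [Subset.antisymm e1 e2] at hf'
      exact ⟨p, hp, hf'⟩
    obtain ⟨p0, hp0, h0⟩ := gen_no (hR 3) (l := [Sum.inl (fmN P C)]) (l1X hCX) (by
      rintro p hp _ - ⟨C', f, he, h1, h2⟩
      simp only [List.cons.injEq, Sum.inl.injEq, and_true] at he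
      obtain ⟨rfl, he⟩ := he
      rw [← fmN_injective he] at h1
      obtain ⟨q, hq, h3⟩ := hCG f h1
      obtain ⟨r, hr, h4, h5⟩ := h.filt.compat hp hq
      exact h2 r h4 (hΦ.mono q le_top _ h3 r h5))
    obtain ⟨p1, hp1, _, -, y, C', he, h1⟩ := gen_yes h.filt (hR 4) (l := [Sum.inl (fmN P C)])
      (l1X hCX) hp0 (by
        intro q hq
        obtain ⟨r, hr, h1⟩ := all_low hσ (Ψ := fun p (f : CP E) => Φ p f.1)
          (fun p q f hqp hf => hΦ.mono p le_top _ hf q hqp) hC (p := q) (by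
            intro q' hq' f hf
            by_contra hcon
            push Not at hcon
            exact h0 q' (hq'.trans hq) _ ⟨C, f, rfl, hf, hcon⟩)
        exact ⟨r, hr, Sum.inr r, _, C, rfl, h1⟩)
    simp only [List.cons.injEq, Sum.inl.injEq, and_true] at he
    obtain ⟨-, he⟩ := he
    rw [← fmN_injective he] at h1
    have hchain : ∀ f ∈ C, ∀ g ∈ C, f.1 ⊆ g.1 ∨ g.1 ⊆ f.1 := by
      intro f hf g hg
      rcases hch _ (hfm f hf) _ (hfm g hg) with h2 | h2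
      · exact Or.inl ((pos_sub h hc hi f.2 (hfX f hf)).1 h2)
      · exact Or.inr ((pos_sub h hc hi g.2 (hfX g hg)).1 h2)
    obtain ⟨q, hq, y, hyX, g, C', he, h3, h4⟩ := gen_yes h.filt (hR 5) (l := [Sum.inl (fmN P C)])
      (l1X hCX) hp1 (by
        intro q hq
        obtain ⟨r, hr, g, h3, h4⟩ := hΦ.closed q le_top (Subtype.val '' C) (hC.image _)
          (by
            rintro _ ⟨f, hf, rfl⟩
            exact hΦ.mono p1 le_top _ (h1 f hf) q hq)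
          (by
            rintro _ ⟨f, hf, rfl⟩ _ ⟨g, hg, rfl⟩
            exact hchain f hf g hg)
        exact ⟨r, hr, _, g, C, rfl, h3, fun f hf => h4 _ ⟨f, hf, rfl⟩⟩)
    simp only [List.cons.injEq, Sum.inl.injEq, and_true] at he
    obtain ⟨rfl, he⟩ := he
    rw [← fmN_injective he] at h4
    refine ⟨val X G (posN P g), (mem_J h).2 ⟨q, hq, g, h3, hyX, rfl⟩, ?_⟩
    intro x hx
    obtain ⟨f, hf, hfX, rfl⟩ := (mem_cN h.filt).1 hx
    exact (pos_sub h hc hi f.2 hfX).2 (h4 f hf)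

end Pool.Agent.Helper23.PI
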