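import Pool.Agent.Helper23.PI.T1
import Pool.Agent.Helper23.PI.T2

/-!
# Transfer to a countable transitive model
-/

open Cardinal Ordinal Set Pool.Agent.Helper96.Fc

set_option linter.unusedSectionVars false

namespace Pool.Agent.Helper23.PI

variable {P : Type} [PartialOrder P] [OrderTop P] {E : Type}

/-- all relations: those of `TL` for the three kinds of names, those of `T1`, those of `T2` twice -/
def RAllT (l : E → E → Prop) (t : E → E → E → Prop) (H₁ H₂ H₃ : E → Set P)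
    (Φ Φ' : P → Set (E × E) → Prop) : ℕ × ℕ → P → List (Obj P) → Prop
  | (0, k) => RTL (prN P : E × E → Nm P) k
  | (1, k) => RTL (eN P : E → Nm P) k
  | (2, k) => RTL (cpN P : CP E → Nm P) k
  | (3, k) => RT1 l t H₁ H₃ k
  | (4, k) => RT2 H₁ H₂ Φ k
  | (5, k) => RT2 H₂ H₃ Φ' k
  | _ => fun _ _ => False

/-- all operations -/
noncomputable def OAllT (l : E → E → Prop) (t : E → E → E → Prop) (H₁ H₂ H₃ : E → Set P)
    (Φ Φ' : P → Set (E × E) → Prop) : ℕ × ℕ → List (Obj P) → Obj P → Prop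
  | (0, k), L, z => OI k L z
  | (1, _), L, z => L = [] ∧ z = Sum.inl (JN Φ)
  | (2, _), L, z => L = [] ∧ z = Sum.inl (JN Φ')
  | (3, 0), L, z => L = [] ∧ z = Sum.inl (uN H₁)
  | (3, 1), L, z => L = [] ∧ z = Sum.inl (lN l H₁)
  | (3, 2), L, z => L = [] ∧ z = Sum.inl (tN t H₁)
  | (4, 0), L, z => L = [] ∧ z = Sum.inl (uN H₂)
  | (4, 1), L, z => L = [] ∧ z = Sum.inl (lN l H₂)
  | (4, 2), L, z => L = [] ∧ z = Sum.inl (tN t H₂)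
  | (5, 0), L, z => L = [] ∧ z = Sum.inl (uN H₃)
  | (5, 1), L, z => L = [] ∧ z = Sum.inl (lN l H₃)
  | (5, 2), L, z => L = [] ∧ z = Sum.inl (tN t H₃)
  | _, _, _ => False

theorem OAllT_fun (l : E → E → Prop) (t : E → E → E → Prop) (H₁ H₂ H₃ : E → Set P)
    (Φ Φ' : P → Set (E × E) → Prop) : ∀ k L y z, OAllT l t H₁ H₂ H₃ Φ Φ' k L y →
      OAllT l t H₁ H₂ H₃ Φ Φ' k L z → y = z := by
  intro k L y z hy hz
  match k, hy, hz with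
  | (0, k), hy, hz => exact OI_fun k L y z hy hz
  | (1, _), hy, hz => rw [hy.2, hz.2]
  | (2, _), hy, hz => rw [hy.2, hz.2]
  | (3, 0), hy, hz => rw [hy.2, hz.2]
  | (3, 1), hy, hz => rw [hy.2, hz.2]
  | (3, 2), hy, hz => rw [hy.2, hz.2]
  | (4, 0), hy, hz => rw [hy.2, hz.2]
  | (4, 1), hy, hz => rw [hy.2, hz.2]
  | (4, 2), hy, hz => rw [hy.2, hz.2]
  | (5, 0), hy, hz => rw [hy.2, hz.2]
  | (5, 1), hy, hz => rw [hy.2, hz.2]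
  | (5, 2), hy, hz => rw [hy.2, hz.2]
  | (3, n + 3), hy, hz => exact hy.elim
  | (4, n + 3), hy, hz => exact hy.elim
  | (5, n + 3), hy, hz => exact hy.elim
  | (n + 6, _), hy, hz => exact hy.elim

/-- **Transfer.** -/
theorem transfer (hσ : SigmaClosed P)
    (l : E → E → Prop) (t : E → E → E → Prop) (H₁ H₂ H₃ : E → Set P)
    (h₁ : ∀ u, RegSet (H₁ u)) (h₂ : ∀ u, RegSet (H₂ u)) (h₃ : ∀ u, RegSet (H₃ u))
    (h12 : ∃ Φ, PosSys l t H₁ H₂ ⊤ Φ) (h23 : ∃ Φ, PosSys l t H₂ H₃ ⊤ Φ)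
    (h13 : ∀ r Φ, ¬ PosSys l t H₁ H₃ r Φ) :
    ∃ N : Set ZFSet.{0}, N.Countable ∧ IsZFC N ∧ ∃ A B C : Str, IsStr N A ∧ IsStr N B ∧
      IsStr N C ∧ Sim N A B ∧ Sim N B C ∧ ¬ Sim N A C := by
  obtain ⟨Φ, hΦ⟩ := h12
  obtain ⟨Φ', hΦ'⟩ := h23
  obtain ⟨X, G, hX, -, hb, hc, hR, hO⟩ := exists_good (RAllT l t H₁ H₂ H₃ Φ Φ')
    (OAllT l t H₁ H₂ H₃ Φ Φ') (OAllT_fun l t H₁ H₂ H₃ Φ Φ') (⊤ : P)
  have hi : CI X := fun k => hO (0, k)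
  have hRP := fun k => hR (0, k)
  have hRE := fun k => hR (1, k)
  have hRC := fun k => hR (2, k)
  refine ⟨Mod X G, Mod_countable hX, Mod.isZFC hb hc, strN X G l t H₁, strN X G l t H₂,
    strN X G l t H₃, ?_, ?_, ?_, ?_, ?_, ?_⟩
  · exact isStr_strN hb hc (hO (3, 0) [] _ l0X ⟨rfl, rfl⟩) (hO (3, 1) [] _ l0X ⟨rfl, rfl⟩)
      (hO (3, 2) [] _ l0X ⟨rfl, rfl⟩)
  · exact isStr_strN hb hc (hO (4, 0) [] _ l0X ⟨rfl, rfl⟩) (hO (4, 1) [] _ l0X ⟨rfl, rfl⟩)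
      (hO (4, 2) [] _ l0X ⟨rfl, rfl⟩)
  · exact isStr_strN hb hc (hO (5, 0) [] _ l0X ⟨rfl, rfl⟩) (hO (5, 1) [] _ l0X ⟨rfl, rfl⟩)
      (hO (5, 2) [] _ l0X ⟨rfl, rfl⟩)
  · exact T2 hσ hb hc hi h₁ h₂ hRE hRC (fun k => hR (4, k)) (hO (1, 0) [] _ l0X ⟨rfl, rfl⟩) hΦ
  · exact T2 hσ hb hc hi h₂ h₃ hRE hRC (fun k => hR (5, k)) (hO (2, 0) [] _ l0X ⟨rfl, rfl⟩) hΦ'
  · intro hsim
    obtain ⟨r, Ψ, hΨ⟩ := T1 hσ hb hc hi h₁ h₃ hRP (fun k => hR (3, k)) hsim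
    exact h13 r Ψ hΨ

end Pool.Agent.Helper23.PI
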