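import Pool.Agent.Helper23.PI.Core3
import Pool.Agent.Helper23.PI.DB
import Pool.Agent.Helper23.PI.SysCre
import Pool.Agent.Helper23.PI.Transfer

/-!
# Non-transitivity of the countably closed partial isomorphism
-/

namespace Pool.Agent.Helper23.PI

open Set Cardinal Pool.Agent.Helper96.Fc

theorem mk_Lam : #Lam ≤ 𝔠 := by
  have h1 : #((O1 × Bool) × (O1 × Bool)) ≤ 𝔠 := by
    have h2 : #O1 ≤ 𝔠 := by
      rw [mk_ord_toType]
      exact aleph_one_le_iff.2 aleph0_lt_continuum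
    have h3 : #(O1 × Bool) ≤ 𝔠 := by
      rw [mk_prod, lift_id, lift_id]
      exact (mul_le_mul' h2 ((mk_le_aleph0 (α := Bool)).trans aleph0_le_continuum)).trans
        continuum_mul_self.le
    rw [mk_prod, lift_id]
    exact (mul_le_mul' h3 h3).trans continuum_mul_self.le
  have h4 := (Sm.of_type h1 univ).pow
  have h5 : {X : Set ((O1 × Bool) × (O1 × Bool)) | X ⊆ univ ∧ X.Countable} =
      {X | X.Countable} := by
    ext X
    simp
  rw [h5] at h4
  exact h4

/-- the cardinal `(2 ^ ω)⁺` as a type -/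
abbrev KK : Type := (Order.succ 𝔠 : Cardinal.{0}).ord.ToType

theorem uncountable_reals : Uncountable (Set ℕ) := by
  rw [← aleph0_lt_mk_iff, mk_set, mk_nat]
  exact cantor _

theorem no_sys (r : Cond KK (Set ℕ))
    (Φ : Cond KK (Set ℕ) → Set (El KK (Set ℕ) × El KK (Set ℕ)) → Prop) :
    ¬ PosSys El.l El.t HA HB r Φ := by
  intro h
  obtain ⟨I, hI, hI', ⟨c⟩⟩ := sys_cre h
  have := uncountable_reals
  exact core (by rw [mk_set, mk_nat]; exact two_power_aleph0.le) mk_Lam c

theorem main : ∃ N : Set ZFSet.{0}, N.Countable ∧ IsZFC N ∧ ∃ A B C : Str, IsStr N A ∧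
    IsStr N B ∧ IsStr N C ∧ Sim N A B ∧ Sim N B C ∧ ¬ Sim N A C := by
  have := uncountable_reals
  refine transfer (P := Cond KK (Set ℕ)) sigmaClosed El.l El.t HA HD HB
    HA_reg HD_reg HB_reg sys_AD (sys_DB ?_) no_sys
  intro S hS
  obtain ⟨a, ha⟩ := exists_bound cls_continuum.rθ (B := S)
    (Order.lt_succ_iff.2 (Sm.of_countable hS)) (fun x => x.1)
  exact ⟨a, fun b hb => ha ⟨b, hb⟩⟩

end Pool.Agent.Helper23.PI
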