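import Pool.Agent.Helper96.Fc.Defs

/-!
# Countable partial isomorphisms inside a transitive model
-/

namespace Pool.Agent.Helper23.PI

open Pool.Agent.Helper96.Fc

/-- The set `x` is countable in `N`: it is empty or an image of `ω` in `N`. -/
def Ctb (N : Set ZFSet.{0}) (x : ZFSet.{0}) : Prop :=
  Onto N (Ordinal.toZFSet Ordinal.omega0) x

/-- Data of a structure for the vocabulary with one binary and one ternary relation symbol: the
universe `a`, the binary relation `l` (a set of pairs) and the ternary relation `t` (a set of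
triples `⟨x, ⟨y, z⟩⟩`). -/
structure Str where
  /-- the universe -/
  a : ZFSet.{0}
  /-- the binary relation -/
  l : ZFSet.{0}
  /-- the ternary relation -/
  t : ZFSet.{0}

/-- `A` is a structure of `N`. -/
structure IsStr (N : Set ZFSet.{0}) (A : Str) : Prop where
  a_mem : A.a ∈ N
  l_mem : A.l ∈ N
  t_mem : A.t ∈ N
  l_sub : ∀ z ∈ A.l, ∃ x ∈ A.a, ∃ y ∈ A.a, z = ZFSet.pair x y
  t_sub : ∀ w ∈ A.t, ∃ x ∈ A.a, ∃ y ∈ A.a, ∃ z ∈ A.a, w = ZFSet.pair x (ZFSet.pair y z)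

/-- In `N`, the set of pairs `f` is a countable partial isomorphism between `A` and `B`: an
isomorphism of a countable substructure of `A` onto a substructure of `B`. -/
structure PIso (N : Set ZFSet.{0}) (A B : Str) (f : ZFSet.{0}) : Prop where
  mem : f ∈ N
  ctb : Ctb N f
  sub : ∀ z ∈ f, ∃ x ∈ A.a, ∃ y ∈ B.a, z = ZFSet.pair x y
  fn : ∀ x y y', ZFSet.pair x y ∈ f → ZFSet.pair x y' ∈ f → y = y'
  inj : ∀ x x' y, ZFSet.pair x y ∈ f → ZFSet.pair x' y ∈ f → x = x'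
  two : ∀ x y x' y', ZFSet.pair x y ∈ f → ZFSet.pair x' y' ∈ f →
    (ZFSet.pair x x' ∈ A.l ↔ ZFSet.pair y y' ∈ B.l)
  three : ∀ x y x' y' x'' y'', ZFSet.pair x y ∈ f → ZFSet.pair x' y' ∈ f →
    ZFSet.pair x'' y'' ∈ f →
      (ZFSet.pair x (ZFSet.pair x' x'') ∈ A.t ↔ ZFSet.pair y (ZFSet.pair y' y'') ∈ B.t)

/-- In `N`, the set `I` is a `σ`-closed set of countable partial isomorphisms between `A` and `B`
with the `ℵ₁`-back-and-forth property. A chain is a countable subset of `I` that is linearly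
ordered by inclusion; the empty set is a chain, so `I` is not empty. -/
structure BackForth (N : Set ZFSet.{0}) (A B : Str) (I : ZFSet.{0}) : Prop where
  mem : I ∈ N
  iso : ∀ f ∈ I, PIso N A B f
  ext : ∀ f ∈ I, ∀ a ∈ N, ∀ b ∈ N, a ⊆ A.a → b ⊆ B.a → Ctb N a → Ctb N b →
    ∃ g ∈ I, f ⊆ g ∧ (∀ x ∈ a, ∃ y, ZFSet.pair x y ∈ g) ∧ (∀ y ∈ b, ∃ x, ZFSet.pair x y ∈ g)
  closed : ∀ C ∈ N, C ⊆ I → Ctb N C → (∀ f ∈ C, ∀ g ∈ C, f ⊆ g ∨ g ⊆ f) →
    ∃ h ∈ I, ∀ f ∈ C, f ⊆ h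

/-- `A ≃ᵖ B` in `N`. -/
def Sim (N : Set ZFSet.{0}) (A B : Str) : Prop := ∃ I, BackForth N A B I

end Pool.Agent.Helper23.PI
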