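import Pool.Agent.Helper23.PI.Cond

/-!
# The structures

The elements of the ground structure: rigid elements (well-ordered), vertical elements `(S, x)`
where `x` is a formal sum (with coefficients modulo 2) of functions with the domain `S`, and two
kinds of pure elements (indiscernible). The generic structures `A`, `D`, `B` are substructures;
their universes are given by `HA`, `HD`, `HB`.
-/

namespace Pool.Agent.Helper23.PI

open Set

variable {K W : Type} [LinearOrder K]

/-- the countable ordinals -/
abbrev O1 : Type := (Cardinal.aleph 1).ord.ToType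

/-- formal sums of (graphs of) partial functions -/
abbrev FS (K W : Type) : Type := Set (K × W) →₀ ZMod 2

/-- the elements of the ground structure -/
inductive El (K W : Type) : Type
  /-- rigid elements -/
  | rig (S : Set K) (x : FS K W) : El K W
  /-- vertical elements -/
  | ver (S : Set K) (x : FS K W) : El K W
  /-- pure elements of the structure `D` -/
  | pd (s : Set K) (o : O1) : El K W
  /-- pure elements of the structures `A` and `B` -/
  | pb (o : O1) (b : Bool) : El K W

/-- the binary relation: the (reflexive) well-order of the rigid elements -/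
def El.l : El K W → El K W → Prop
  | .rig S x, .rig S' x' => WellOrderingRel (S, x) (S', x') ∨ (S, x) = (S', x')
  | _, _ => False

/-- the push forward of a formal sum to the set `S` -/
noncomputable def push (S : Set K) (x : FS K W) : FS K W := x.mapDomain (res S)

/-- the ternary relation: the rigid element `(S', d)` is the name of the difference of the
restriction of `(S, x)` to `S'` and `(S', y)` -/
def El.t : El K W → El K W → El K W → Prop
  | .rig S' d, .ver S x, .ver S'' y => S'' = S' ∧ S' ⊆ S ∧ d = push S' x + y
  | _, _, _ => False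

/-- the sum of the coefficients -/
noncomputable def tot (x : FS K W) : ZMod 2 := x.sum fun _ a => a

/-- the conditions that force the vertical element `(S, x)` to be in the structure; `e = 0` for
`A` and `D`, `e = 1` for `B` -/
def HV (e : ZMod 2) (S : Set K) (x : FS K W) : Set (Cond K W) :=
  {p | S.Countable ∧ tot x = e ∧ ∀ f ∈ x.support, Tot S f ∧ p ∈ FF f}

/-- the universe of `A` -/
def HA : El K W → Set (Cond K W)
  | .rig _ _ => univ
  | .ver S x => HV 0 S x
  | .pd _ _ => ∅
  | .pb _ _ => univ

/-- the universe of `D` -/
def HD : El K W → Set (Cond K W)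
  | .rig _ _ => univ
  | .ver S x => HV 0 S x
  | .pd s _ => {_p | s.Countable}
  | .pb _ _ => ∅

/-- the universe of `B` -/
def HB : El K W → Set (Cond K W)
  | .rig _ _ => univ
  | .ver S x => HV 1 S x
  | .pd _ _ => ∅
  | .pb _ _ => univ

theorem RegSet.univ {P : Type} [Preorder P] : RegSet (Set.univ : Set P) :=
  ⟨fun _ _ _ _ => trivial, fun _ _ => trivial⟩

theorem RegSet.empty {P : Type} [Preorder P] : RegSet (∅ : Set P) :=
  ⟨fun _ h => h.elim, fun p h => by obtain ⟨s, -, hs⟩ := h p le_rfl; exact hs.elim⟩

theorem HV_reg (e : ZMod 2) (S : Set K) (x : FS K W) : RegSet (HV e S x) where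
  down p hp q hq := ⟨hp.1, hp.2.1, fun f hf => ⟨(hp.2.2 f hf).1,
    (FF_reg f).down p (hp.2.2 f hf).2 q hq⟩⟩
  dense p h := by
    obtain ⟨s, -, hs⟩ := h p le_rfl
    refine ⟨hs.1, hs.2.1, fun f hf => ⟨(hs.2.2 f hf).1, (FF_reg f).dense p fun q hq => ?_⟩⟩
    obtain ⟨s, hs, h1⟩ := h q hq
    exact ⟨s, hs, (h1.2.2 f hf).2⟩

theorem HA_reg (u : El K W) : RegSet (HA u) := by
  cases u with
  | rig S x => exact RegSet.univ
  | ver S x => exact HV_reg _ _ _
  | pd s o => exact RegSet.empty
  | pb o b => exact RegSet.univ

theorem HB_reg (u : El K W) : RegSet (HB u) := by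
  cases u with
  | rig S x => exact RegSet.univ
  | ver S x => exact HV_reg _ _ _
  | pd s o => exact RegSet.empty
  | pb o b => exact RegSet.univ

theorem HD_reg (u : El K W) : RegSet (HD u) := by
  cases u with
  | rig S x => exact RegSet.univ
  | ver S x => exact HV_reg _ _ _
  | pd s o => exact ⟨fun p hp q _ => hp, fun p h => by obtain ⟨s, -, hs⟩ := h p le_rfl; exact hs⟩
  | pb o b => exact RegSet.empty

end Pool.Agent.Helper23.PI
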