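import Pool.Agent.Helper23.PI.TS

/-!
# Transfer: a back-and-forth family of the extension gives a forced one
-/

open Cardinal Ordinal Set Pool.Agent.Helper96.Fc

set_option linter.unusedSectionVars false

namespace Pool.Agent.Helper23.PI

variable {P : Type} [PartialOrder P] [OrderTop P] {E : Type}

/-- the possible defects of a countable set of pairs -/
def Bad (l : E → E → Prop) (t : E → E → E → Prop) (H₁ H₂ : E → Set P) :
    ℕ → P → Set (E × E) → Prop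
  | 0, p, f => ∃ u v, (u, v) ∈ f ∧ ((∀ q ≤ p, q ∉ H₁ u) ∨ ∀ q ≤ p, q ∉ H₂ v)
  | 1, _, f => ∃ u v v', (u, v) ∈ f ∧ (u, v') ∈ f ∧ v ≠ v'
  | 2, _, f => ∃ u u' v, (u, v) ∈ f ∧ (u', v) ∈ f ∧ u ≠ u'
  | 3, _, f => ∃ u v u' v', (u, v) ∈ f ∧ (u', v') ∈ f ∧ ¬ (l u u' ↔ l v v')
  | 4, _, f => ∃ u v u' v' u'' v'', (u, v) ∈ f ∧ (u', v') ∈ f ∧ (u'', v'') ∈ f ∧
      ¬ (t u u' u'' ↔ t v v' v'')
  | _, _, _ => False

/-- the relations for `T1` -/
def RT1 (l : E → E → Prop) (t : E → E → E → Prop) (H₁ H₂ : E → Set P) :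
    ℕ → P → List (Obj P) → Prop
  | 0, p, L => ∃ (y : Obj P) (I : Nm P), L = [y, Sum.inl I] ∧
      ∀ q ≤ p, ∀ f : Set (E × E), f.Countable → ¬ FMem (posN P f) I q
  | 1, p, L => ∃ (f : Set (E × E)) (S T : Set E) (I : Nm P),
      L = [Sum.inl (pairN (posN P f) (pairN (stN P S) (stN P T))), Sum.inl I] ∧
      f.Countable ∧ S.Countable ∧ T.Countable ∧ FMem (posN P f) I p ∧
      (∀ u ∈ S, p ∈ H₁ u) ∧ (∀ v ∈ T, p ∈ H₂ v) ∧
      ∀ q ≤ p, ∀ g : Set (E × E), g.Countable → FMem (posN P g) I q → f ⊆ g →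
        (∀ u ∈ S, ∃ v, (u, v) ∈ g) → (∀ v ∈ T, ∃ u, (u, v) ∈ g) → False
  | 2, p, L => ∃ (C : Set (CP E)) (I : Nm P), L = [Sum.inl (fmN P C), Sum.inl I] ∧
      C.Countable ∧ (∀ f ∈ C, FMem (cpN P f) I p) ∧ (∀ f ∈ C, ∀ g ∈ C, f.1 ⊆ g.1 ∨ g.1 ⊆ f.1) ∧
      ∀ q ≤ p, ∀ g : Set (E × E), g.Countable → FMem (posN P g) I q → (∀ f ∈ C, f.1 ⊆ g) → False
  | n + 3, p, L => ∃ (f : Set (E × E)) (I : Nm P), L = [Sum.inl (posN P f), Sum.inl I] ∧
      f.Countable ∧ FMem (posN P f) I p ∧ Bad l t H₁ H₂ n p f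

variable {X : Set (Obj P)} {G : Set P}

theorem pos_inj3 {f f' : Set (E × E)} {S S' T T' : Set E}
    (h : pairN (posN P f) (pairN (stN P S) (stN P T)) =
      pairN (posN P f') (pairN (stN P S') (stN P T'))) : f = f' ∧ S = S' ∧ T = T' := by
  obtain ⟨h1, h2⟩ := pairN_inj h
  obtain ⟨h2, h3⟩ := pairN_inj h2
  exact ⟨posN_injective h1, stN_injective h2, stN_injective h3⟩

/-- no element of the family has a defect -/
theorem not_bad (h : Basic X G) (hc : Clos X) (hi : CI X)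
    {l : E → E → Prop} {t : E → E → E → Prop} {H₁ H₂ : E → Set P}
    (h₁ : ∀ u, RegSet (H₁ u)) (h₂ : ∀ u, RegSet (H₂ u)) {f : Set (E × E)} (hf : f.Countable)
    (hfX : (Sum.inl (posN P f) : Obj P) ∈ X)
    (hz : PIso (Mod X G) (strN X G l t H₁) (strN X G l t H₂) (val X G (posN P f))) {p : P}
    (hp : p ∈ G) (n : ℕ) : ¬ Bad l t H₁ H₂ n p f := by
  have hX := fun u v (huv : (u, v) ∈ f) => pos_X hc hi hf hfX huv
  have hm : ∀ u v, (u, v) ∈ f →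
      ZFSet.pair (val X G (eN P u)) (val X G (eN P v)) ∈ val X G (posN P f) := fun u v huv =>
    (mem_pos_iff h hc (hX u v huv).1 (hX u v huv).2).2 huv
  have hd : ∀ u v, (u, v) ∈ f → (∃ q ∈ G, q ∈ H₁ u) ∧ ∃ q ∈ G, q ∈ H₂ v := by
    intro u v huv
    obtain ⟨x, hx, y, hy, he⟩ := hz.sub _ (hm u v huv)
    obtain ⟨e1, e2⟩ := ZFSet.pair_injective he
    subst e1
    subst e2
    exact ⟨(mem_u' h (hX u v huv).1).1 hx, (mem_u' h (hX u v huv).2).1 hy⟩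
  match n with
  | 0 =>
    rintro ⟨u, v, huv, h3⟩
    obtain ⟨⟨q, hq, hq1⟩, q', hq', hq1'⟩ := hd u v huv
    rcases h3 with h3 | h3
    · obtain ⟨r, hr, h4, h5⟩ := h.filt.compat hp hq
      exact h3 r h4 ((h₁ u).down q hq1 r h5)
    · obtain ⟨r, hr, h4, h5⟩ := h.filt.compat hp hq'
      exact h3 r h4 ((h₂ v).down q' hq1' r h5)
  | 1 =>
    rintro ⟨u, v, v', h3, h4, h5⟩
    exact h5 (val_e_inj h (hX _ _ h3).2 (hX _ _ h4).2 (hz.fn _ _ _ (hm _ _ h3) (hm _ _ h4)))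
  | 2 =>
    rintro ⟨u, v, v', h3, h4, h5⟩
    exact h5 (val_e_inj h (hX _ _ h3).1 (hX _ _ h4).1 (hz.inj _ _ _ (hm _ _ h3) (hm _ _ h4)))
  | 3 =>
    rintro ⟨u, v, u', v', h3, h4, h5⟩
    apply h5
    have h6 := hz.two _ _ _ _ (hm _ _ h3) (hm _ _ h4)
    have h7 := mem_l h hc (l := l) h₁ (hX _ _ h3).1 (hX _ _ h4).1
    have h8 := mem_l h hc (l := l) h₂ (hX _ _ h3).2 (hX _ _ h4).2
    have h9 : l u u' ↔ l u u' ∧ (∃ p ∈ G, p ∈ H₁ u) ∧ ∃ p ∈ G, p ∈ H₁ u' :=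
      ⟨fun h9 => ⟨h9, (hd _ _ h3).1, (hd _ _ h4).1⟩, fun h9 => h9.1⟩
    have h10 : l v v' ↔ l v v' ∧ (∃ p ∈ G, p ∈ H₂ v) ∧ ∃ p ∈ G, p ∈ H₂ v' :=
      ⟨fun h9 => ⟨h9, (hd _ _ h3).2, (hd _ _ h4).2⟩, fun h9 => h9.1⟩
    rw [h9, h10, ← h7, ← h8]
    exact h6
  | 4 =>
    rintro ⟨u, v, u', v', u'', v'', h3, h4, h4', h5⟩
    apply h5
    have h6 := hz.three _ _ _ _ _ _ (hm _ _ h3) (hm _ _ h4) (hm _ _ h4')
    have h7 := mem_t h hc (t := t) h₁ (hX _ _ h3).1 (hX _ _ h4).1 (hX _ _ h4').1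
    have h8 := mem_t h hc (t := t) h₂ (hX _ _ h3).2 (hX _ _ h4).2 (hX _ _ h4').2
    have h9 : t u u' u'' ↔ t u u' u'' ∧ (∃ p ∈ G, p ∈ H₁ u) ∧ (∃ p ∈ G, p ∈ H₁ u') ∧
        ∃ p ∈ G, p ∈ H₁ u'' :=
      ⟨fun h9 => ⟨h9, (hd _ _ h3).1, (hd _ _ h4).1, (hd _ _ h4').1⟩, fun h9 => h9.1⟩
    have h10 : t v v' v'' ↔ t v v' v'' ∧ (∃ p ∈ G, p ∈ H₂ v) ∧ (∃ p ∈ G, p ∈ H₂ v') ∧
        ∃ p ∈ G, p ∈ H₂ v'' :=
      ⟨fun h9 => ⟨h9, (hd _ _ h3).2, (hd _ _ h4).2, (hd _ _ h4').2⟩, fun h9 => h9.1⟩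
    rw [h9, h10, ← h7, ← h8]
    exact h6
  | n + 5 => exact fun h3 => h3

/-- **Block T1.** -/
theorem T1 (hσ : SigmaClosed P) (h : Basic X G) (hc : Clos X) (hi : CI X)
    {l : E → E → Prop} {t : E → E → E → Prop} {H₁ H₂ : E → Set P}
    (h₁ : ∀ u, RegSet (H₁ u)) (h₂ : ∀ u, RegSet (H₂ u))
    (hRP : ∀ k, GenR X G (RTL (prN P : E × E → Nm P) k))
    (hR : ∀ k, GenR X G (RT1 l t H₁ H₂ k))
    (hsim : Sim (Mod X G) (strN X G l t H₁) (strN X G l t H₂)) :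
    ∃ r Φ, PosSys l t H₁ H₂ r Φ := by
  obtain ⟨_, hI⟩ := hsim
  obtain ⟨I, hIX, rfl⟩ := hI.mem
  -- names of the elements
  have hnm : ∀ z ∈ val X G I, ∃ f : Set (E × E), f.Countable ∧
      (Sum.inl (posN P f) : Obj P) ∈ X ∧ val X G (posN P f) = z ∧ ∃ q ∈ G, FMem (posN P f) I q := by
    intro z hz
    obtain ⟨f, hf, hfX, rfl⟩ := piso_name hσ h hc hRP (hI.iso z hz)
    exact ⟨f, hf, hfX, rfl, (h.mem_iff hfX hIX).1 hz⟩
  obtain ⟨p0, hp0, h0⟩ := gen_no (hR 0) (l := [Sum.inl I]) (l1X hIX) (by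
    rintro p hp _ - ⟨y, I', he, h3⟩
    simp only [List.cons.injEq, Sum.inl.injEq, and_true] at he
    obtain ⟨rfl, rfl⟩ := he
    obtain ⟨z, hz, -⟩ := hI.closed (val X G (ordN P 0)) (mem_Mod hc.zero)
      (by rw [val_ordN_zero h.filt]; intro z hz; exact absurd hz (ZFSet.notMem_empty _))
      (by
        refine ⟨val X G (ordN P 0), mem_Mod hc.zero, ?_, ?_⟩
        · intro x y z hxy
          rw [val_ordN_zero h.filt] at hxy
          exact absurd hxy (ZFSet.notMem_empty _)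
        · intro y hy
          rw [val_ordN_zero h.filt] at hy
          exact absurd hy (ZFSet.notMem_empty _))
      (by
        intro f hf
        rw [val_ordN_zero h.filt] at hf
        exact absurd hf (ZFSet.notMem_empty _))
    obtain ⟨f, hf, hfX, -, q, hq, h4⟩ := hnm z hz
    obtain ⟨r, hr, h5, h6⟩ := h.filt.compat hp hq
    exact h3 r h5 f hf (h4.mono h6))
  obtain ⟨p1, hp1, h1⟩ := gen_no (hR 1) (l := [Sum.inl I]) (l1X hIX) (by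
    rintro p hp _ hy ⟨f, S, T, I', he, hf, hS, hT, h3, h4, h5, h6⟩
    simp only [List.cons.injEq, Sum.inl.injEq, and_true] at he
    obtain ⟨rfl, rfl⟩ := he
    have hfX := hc.fst _ _ hy
    have hSX := hc.fst _ _ (hc.snd _ _ hy)
    have hTX := hc.snd _ _ (hc.snd _ _ hy)
    obtain ⟨g, hg, h7, h8, h9⟩ := hI.ext _ ((h.mem_iff hfX hIX).2 ⟨p, hp, h3⟩)
      (val X G (stN P S)) (mem_Mod hSX) (val X G (stN P T)) (mem_Mod hTX)
      (by
        intro z hz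
        obtain ⟨u, hu, huX, rfl⟩ := (mem_cN h.filt).1 hz
        exact (mem_u' h huX).2 ⟨p, hp, h4 u hu⟩)
      (by
        intro z hz
        obtain ⟨u, hu, huX, rfl⟩ := (mem_cN h.filt).1 hz
        exact (mem_u' h huX).2 ⟨p, hp, h5 u hu⟩)
      (hi.ctb h.filt hc hSX hS.to_subtype) (hi.ctb h.filt hc hTX hT.to_subtype)
    obtain ⟨g, hgc, hgX, rfl, q, hq, h10⟩ := hnm g hg
    obtain ⟨r, hr, h11, h12⟩ := h.filt.compat hp hq
    refine h6 r h11 g hgc (h10.mono h12) ((pos_sub h hc hi hf hfX).1 h7) ?_ ?_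
    · intro u hu
      have huX : (Sum.inl (eN P u) : Obj P) ∈ X := hi.cN hS hSX hu
      obtain ⟨y, hy⟩ := h8 _ ((mem_cN h.filt).2 ⟨u, hu, huX, rfl⟩)
      obtain ⟨u', v', h13, h14, h15, h16⟩ := (mem_pos h hc).1 hy
      obtain ⟨h17, -⟩ := ZFSet.pair_injective h16
      rw [← val_e_inj h huX h14 h17] at h13
      exact ⟨v', h13⟩
    · intro v hv
      have hvX : (Sum.inl (eN P v) : Obj P) ∈ X := hi.cN hT hTX hv
      obtain ⟨y, hy⟩ := h9 _ ((mem_cN h.filt).2 ⟨v, hv, hvX, rfl⟩)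
      obtain ⟨u', v', h13, h14, h15, h16⟩ := (mem_pos h hc).1 hy
      obtain ⟨-, h17⟩ := ZFSet.pair_injective h16
      rw [← val_e_inj h hvX h15 h17] at h13
      exact ⟨u', h13⟩)
  obtain ⟨p2, hp2, h2⟩ := gen_no (hR 2) (l := [Sum.inl I]) (l1X hIX) (by
    rintro p hp _ hy ⟨C, I', he, hC, h3, h4, h5⟩
    simp only [List.cons.injEq, Sum.inl.injEq, and_true] at he
    obtain ⟨rfl, rfl⟩ := he
    have hfX : ∀ f ∈ C, (Sum.inl (posN P f.1) : Obj P) ∈ X := fun f hf => hi.cN hC hy hf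
    obtain ⟨g, hg, h6⟩ := hI.closed (val X G (fmN P C)) (mem_Mod hy)
      (by
        intro z hz
        obtain ⟨f, hf, hfX, rfl⟩ := (mem_cN h.filt).1 hz
        exact (h.mem_iff hfX hIX).2 ⟨p, hp, h3 f hf⟩)
      (hi.ctb h.filt hc hy hC.to_subtype)
      (by
        intro a ha b hb
        obtain ⟨f, hf, hfX, rfl⟩ := (mem_cN h.filt).1 ha
        obtain ⟨g, hg, hgX, rfl⟩ := (mem_cN h.filt).1 hb
        rcases h4 f hf g hg with h6 | h6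
        · exact Or.inl ((pos_sub h hc hi f.2 hfX).2 h6)
        · exact Or.inr ((pos_sub h hc hi g.2 hgX).2 h6))
    obtain ⟨g, hgc, hgX, rfl, q, hq, h10⟩ := hnm g hg
    obtain ⟨r, hr, h11, h12⟩ := h.filt.compat hp hq
    refine h5 r h11 g hgc (h10.mono h12) ?_
    intro f hf
    exact (pos_sub h hc hi f.2 (hfX f hf)).1 (h6 _ ((mem_cN h.filt).2 ⟨f, hf, hfX f hf, rfl⟩)))
  have hB : ∀ n, ∃ p ∈ G, ∀ q ≤ p, ∀ f : Set (E × E), f.Countable → FMem (posN P f) I q →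
      ¬ Bad l t H₁ H₂ n q f := by
    intro n
    obtain ⟨p, hp, h3⟩ := gen_no (hR (n + 3)) (l := [Sum.inl I]) (l1X hIX) (by
      rintro p hp _ hy ⟨f, I', he, hf, h3, h4⟩
      simp only [List.cons.injEq, Sum.inl.injEq, and_true] at he
      obtain ⟨rfl, rfl⟩ := he
      exact not_bad h hc hi h₁ h₂ hf hy (hI.iso _ ((h.mem_iff hy hIX).2 ⟨p, hp, h3⟩)) hp n h4)
    exact ⟨p, hp, fun q hq f hf h4 h5 => h3 q hq _ ⟨f, I, rfl, hf, h4, h5⟩⟩
  choose b hbG hb using hB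
  obtain ⟨r1, hr1, a1, a2⟩ := h.filt.compat hp0 hp1
  obtain ⟨r2, hr2, a3, a4⟩ := h.filt.compat hr1 hp2
  obtain ⟨r3, hr3, a5, a6⟩ := h.filt.compat hr2 (hbG 0)
  obtain ⟨r4, hr4, a7, a8⟩ := h.filt.compat hr3 (hbG 1)
  obtain ⟨r5, hr5, a9, a10⟩ := h.filt.compat hr4 (hbG 2)
  obtain ⟨r6, hr6, a11, a12⟩ := h.filt.compat hr5 (hbG 3)
  obtain ⟨r, hr, a13, a14⟩ := h.filt.compat hr6 (hbG 4)
  have k5 : r ≤ r5 := a13.trans a11
  have k4 : r ≤ r4 := k5.trans a9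
  have k3 : r ≤ r3 := k4.trans a7
  have k2 : r ≤ r2 := k3.trans a5
  have k1 : r ≤ r1 := k2.trans a3
  refine ⟨r, fun p f => f.Countable ∧ FMem (posN P f) I p, ?_⟩
  constructor
  · exact fun p _ f hf => hf.1
  · exact fun p _ f hf q hq => ⟨hf.1, hf.2.mono hq⟩
  · intro p hp
    by_contra hcon
    push Not at hcon
    exact h0 p (hp.trans (k1.trans a1)) (Sum.inl I) ⟨_, I, rfl, fun q hq f hf h3 =>
      hcon q hq f hf h3⟩
  · intro p hp f hf u v huv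
    constructor
    · refine (h₁ u).dense p fun q hq => ?_
      by_contra hcon
      push Not at hcon
      exact hb 0 q (hq.trans (hp.trans (k3.trans a6))) f hf.1 (hf.2.mono hq)
        ⟨u, v, huv, Or.inl hcon⟩
    · refine (h₂ v).dense p fun q hq => ?_
      by_contra hcon
      push Not at hcon
      exact hb 0 q (hq.trans (hp.trans (k3.trans a6))) f hf.1 (hf.2.mono hq)
        ⟨u, v, huv, Or.inr hcon⟩
  · intro p hp f hf u v v' h3 h4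
    by_contra hcon
    exact hb 1 p (hp.trans (k4.trans a8)) f hf.1 hf.2 ⟨u, v, v', h3, h4, hcon⟩
  · intro p hp f hf u v v' h3 h4
    by_contra hcon
    exact hb 2 p (hp.trans (k5.trans a10)) f hf.1 hf.2 ⟨u, v, v', h3, h4, hcon⟩
  · intro p hp f hf u v u' v' h3 h4
    by_contra hcon
    exact hb 3 p (hp.trans (a13.trans a12)) f hf.1 hf.2 ⟨u, v, u', v', h3, h4, hcon⟩
  · intro p hp f hf u v u' v' u'' v'' h3 h4 h5
    by_contra hcon
    exact hb 4 p (hp.trans a14) f hf.1 hf.2 ⟨u, v, u', v', u'', v'', h3, h4, h5, hcon⟩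
  · intro p hp f hf S T hS hT h3 h4
    by_contra hcon
    push Not at hcon
    refine h1 p (hp.trans (k1.trans a2)) _ ⟨f, S, T, I, rfl, hf.1, hS, hT, hf.2, h3, h4, ?_⟩
    intro q hq g hg h5 h6 h7 h8
    obtain ⟨v, hv, h9⟩ := hcon q hq g ⟨hg, h5⟩ h6 h7
    obtain ⟨u, hu⟩ := h8 v hv
    exact h9 u hu
  · intro p hp C hC h3 h4
    by_contra hcon
    push Not at hcon
    refine h2 p (hp.trans (k2.trans a4)) _ ⟨{f : CP E | f.1 ∈ C}, I, rfl, ?_, ?_, ?_, ?_⟩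
    · exact hC.preimage Subtype.val_injective
    · exact fun f hf => (h3 _ hf).2
    · exact fun f hf g hg => h4 _ hf _ hg
    · intro q hq g hg h5 h6
      obtain ⟨f, hf, h7⟩ := hcon q hq g ⟨hg, h5⟩
      exact h7 (h6 ⟨f, (h3 f hf).1⟩ hf)

end Pool.Agent.Helper23.PI
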