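import Pool.Agent.Helper23.PI.PS
import Pool.Agent.Helper23.PI.MDefs
import Pool.Agent.Helper96.Fc.Good

/-!
# Transfer, first part: countable sets of the extension have names from the ground model
-/

open Cardinal Ordinal Set Pool.Agent.Helper96.Fc

set_option linter.unusedSectionVars false

namespace Pool.Agent.Helper23.PI

variable {P : Type} [PartialOrder P] [OrderTop P] {X : Set (Obj P)} {G : Set P}

theorem l0X : ∀ c ∈ ([] : List (Obj P)), c ∈ X := by simp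

theorem l1X {a : Obj P} (ha : a ∈ X) : ∀ c ∈ [a], c ∈ X := by
  intro c hc
  rw [List.mem_singleton] at hc
  rw [hc]; exact ha

theorem lcX {a : Obj P} {l : List (Obj P)} (ha : a ∈ X) (hl : ∀ c ∈ l, c ∈ X) :
    ∀ c ∈ a :: l, c ∈ X := by
  intro c hc
  rcases List.mem_cons.1 hc with rfl | hc
  · exact ha
  · exact hl c hc

theorem gen_no {R : P → List (Obj P) → Prop} (h : GenR X G R) {l : List (Obj P)}
    (hl : ∀ a ∈ l, a ∈ X) (hn : ∀ p ∈ G, ∀ y ∈ X, ¬ R p (y :: l)) :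
    ∃ p ∈ G, ∀ q ≤ p, ∀ y, ¬ R q (y :: l) := by
  obtain ⟨p, hp, h1⟩ := h l hl
  rcases h1 with ⟨y, hy, h2⟩ | h1
  · exact absurd h2 (hn p hp y hy)
  · exact ⟨p, hp, h1⟩

theorem gen_yes (hG : IsFilt X G) {R : P → List (Obj P) → Prop} (h : GenR X G R)
    {l : List (Obj P)} (hl : ∀ a ∈ l, a ∈ X) {p₀ : P} (hp₀ : p₀ ∈ G)
    (hd : ∀ q ≤ p₀, ∃ r ≤ q, ∃ y, R r (y :: l)) : ∃ p ∈ G, ∃ y ∈ X, R p (y :: l) := by
  obtain ⟨p, hp, h1⟩ := h l hl
  rcases h1 with h1 | h1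
  · exact ⟨p, hp, h1⟩
  · exfalso
    obtain ⟨q, hq, h2, h3⟩ := hG.compat hp hp₀
    obtain ⟨r, hr, y, h4⟩ := hd q h3
    exact h1 r (hr.trans h2) y h4

theorem natX (hc : Clos X) (n : ℕ) : (Sum.inl (ordN P (n : Ordinal.{0})) : Obj P) ∈ X := by
  induction n with
  | zero =>
    rw [Nat.cast_zero]
    exact hc.zero
  | succ n ih =>
    rw [Nat.cast_add, Nat.cast_one]
    exact hc.succ _ ih

theorem val_nat (h : IsFilt X G) (hc : Clos X) (n : ℕ) :
    val X G (ordN P (n : Ordinal.{0})) = (n : Ordinal.{0}).toZFSet := by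
  induction n with
  | zero =>
    rw [Nat.cast_zero, Ordinal.toZFSet_zero]
    exact val_ordN_zero h
  | succ n ih =>
    rw [Nat.cast_add, Nat.cast_one, Ordinal.toZFSet_add_one, ← ih]
    exact val_ordN_succ h (natX hc n)

theorem val_omega (h : IsFilt X G) (hc : Clos X) : val X G (ordN P ω) = Ordinal.toZFSet ω := by
  ext z
  rw [val_ordN_mem h, Ordinal.mem_toZFSet_iff]
  constructor
  · rintro ⟨b, hb, -, rfl⟩
    obtain ⟨n, rfl⟩ := lt_omega0.1 hb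
    exact ⟨n, natCast_lt_omega0 n, (val_nat h hc n).symm⟩
  · rintro ⟨b, hb, rfl⟩
    obtain ⟨n, rfl⟩ := lt_omega0.1 hb
    exact ⟨n, natCast_lt_omega0 n, natX hc n, val_nat h hc n⟩

/-! ## Names with countable index sets -/

/-- name of a surjection of `ω` onto the members -/
noncomputable def sjN (x : Nm P) (h : ∃ f : ℕ → x.Ix, Function.Surjective f) : Nm P :=
  Nm.mk ℕ (fun n => pairN (ordN P (n : Ordinal.{0})) (x.fn (h.choose n))) (fun _ => ⊤)

/-- the operations for countable names -/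
noncomputable def OI : ℕ → List (Obj P) → Obj P → Prop
  | 0, l, z => ∃ (x : Nm P) (h : ∃ f : ℕ → x.Ix, Function.Surjective f),
      l = [Sum.inl x] ∧ z = Sum.inl (sjN x h)
  | n + 1, l, z => ∃ (x : Nm P) (h : ∃ f : ℕ → x.Ix, Function.Surjective f),
      l = [Sum.inl x] ∧ z = Sum.inl (x.fn (h.choose n))

theorem OI_fun : ∀ (k : ℕ) (l : List (Obj P)) (y z : Obj P), OI k l y → OI k l z → y = z := by
  intro k l y z hy hz
  match k, hy, hz with
  | 0, hy, hz =>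
    obtain ⟨a, h, rfl, rfl⟩ := hy
    obtain ⟨c, h', h1, rfl⟩ := hz
    simp only [List.cons.injEq, Sum.inl.injEq, and_true] at h1
    subst h1
    rfl
  | n + 1, hy, hz =>
    obtain ⟨a, h, rfl, rfl⟩ := hy
    obtain ⟨c, h', h1, rfl⟩ := hz
    simp only [List.cons.injEq, Sum.inl.injEq, and_true] at h1
    subst h1
    rfl

/-- closure under the operations for countable names -/
def CI (X : Set (Obj P)) : Prop := ∀ k l y, (∀ a ∈ l, a ∈ X) → OI k l y → y ∈ X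

theorem CI.fn (hi : CI X) {x : Nm P} (hx : (Sum.inl x : Obj P) ∈ X) (hc : Countable x.Ix)
    (i : x.Ix) : (Sum.inl (x.fn i) : Obj P) ∈ X := by
  have : Nonempty x.Ix := ⟨i⟩
  have h : ∃ f : ℕ → x.Ix, Function.Surjective f := exists_surjective_nat x.Ix
  obtain ⟨n, hn⟩ := h.choose_spec i
  have := hi (n + 1) [Sum.inl x] (Sum.inl (x.fn (h.choose n))) (l1X hx) ⟨x, h, rfl, rfl⟩
  rwa [hn] at this

theorem CI.ctb (hi : CI X) (h : IsFilt X G) (hc : Clos X) {x : Nm P}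
    (hx : (Sum.inl x : Obj P) ∈ X) (hcx : Countable x.Ix) : Ctb (Mod X G) (val X G x) := by
  rcases isEmpty_or_nonempty x.Ix with hE | hE
  · refine ⟨val X G (ordN P 0), mem_Mod hc.zero, ?_, ?_⟩
    · intro x y z hxy
      rw [val_ordN_zero h] at hxy
      exact absurd hxy (ZFSet.notMem_empty _)
    · intro y hy
      obtain ⟨i, -⟩ := mem_val.1 hy
      exact (hE.false i).elim
  · have hs : ∃ f : ℕ → x.Ix, Function.Surjective f := exists_surjective_nat x.Ix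
    have hsX : (Sum.inl (sjN x hs) : Obj P) ∈ X := hi 0 _ _ (l1X hx) ⟨x, hs, rfl, rfl⟩
    have key : ∀ w, w ∈ val X G (sjN x hs) ↔ ∃ n : ℕ,
        w = ZFSet.pair (n : Ordinal.{0}).toZFSet (val X G (x.fn (hs.choose n))) := by
      intro w
      rw [mem_val]
      constructor
      · rintro ⟨n, -, h1, rfl⟩
        refine ⟨n, ?_⟩
        rw [← val_nat h hc]
        exact val_pairN h hc (natX hc n) (hi.fn hx hcx _)
      · rintro ⟨n, rfl⟩
        refine ⟨n, h.top, hc.pair (natX hc n) (hi.fn hx hcx _), ?_⟩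
        rw [← val_nat h hc]
        exact val_pairN h hc (natX hc n) (hi.fn hx hcx _)
    refine ⟨_, mem_Mod hsX, ?_, ?_⟩
    · intro a b c hab hac
      obtain ⟨n, hn⟩ := (key _).1 hab
      obtain ⟨m, hm⟩ := (key _).1 hac
      obtain ⟨h1, h2⟩ := ZFSet.pair_injective hn
      obtain ⟨h3, h4⟩ := ZFSet.pair_injective hm
      have h5 : (n : Ordinal.{0}) = m := Ordinal.toZFSet_injective (h1.symm.trans h3)
      rw [h2, h4, Nat.cast_inj.1 h5]
    · intro y hy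
      obtain ⟨i, -, -, rfl⟩ := mem_val.1 hy
      obtain ⟨n, rfl⟩ := hs.choose_spec i
      refine ⟨(n : Ordinal.{0}).toZFSet, ?_, (key _).2 ⟨n, rfl⟩⟩
      rw [Ordinal.mem_toZFSet_iff]
      exact ⟨n, natCast_lt_omega0 n, rfl⟩

/-! ## Ground names -/

/-- name of a set of objects of the ground model -/
def cN {Q : Type} (nm : Q → Nm P) (S : Set Q) : Nm P := Nm.mk S (fun q => nm q.1) (fun _ => ⊤)

theorem cN_inj {Q : Type} {nm : Q → Nm P} (hnm : Function.Injective nm) :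
    Function.Injective (cN nm) := by
  intro S T h
  have h1 : Set.range (cN nm S).fn = Set.range (cN nm T).fn := by rw [h]
  have h2 : ∀ S : Set Q, Set.range (cN nm S).fn = nm '' S := by
    intro S
    ext y
    constructor
    · rintro ⟨q, rfl⟩
      exact ⟨q.1, q.2, rfl⟩
    · rintro ⟨q, hq, rfl⟩
      exact ⟨⟨q, hq⟩, rfl⟩
  rw [h2, h2] at h1
  exact hnm.image_injective h1

theorem mem_cN (h : IsFilt X G) {Q : Type} {nm : Q → Nm P} {S : Set Q} {z : ZFSet.{0}} :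
    z ∈ val X G (cN nm S) ↔ ∃ q ∈ S, (Sum.inl (nm q) : Obj P) ∈ X ∧ val X G (nm q) = z := by
  rw [mem_val]
  constructor
  · rintro ⟨q, -, h1, h2⟩
    exact ⟨q.1, q.2, h1, h2⟩
  · rintro ⟨q, hq, h1, h2⟩
    exact ⟨⟨q, hq⟩, h.top, h1, h2⟩

theorem CI.cN (hi : CI X) {Q : Type} {nm : Q → Nm P} {S : Set Q} (hS : S.Countable)
    (hX : (Sum.inl (cN nm S) : Obj P) ∈ X) {q : Q} (hq : q ∈ S) :
    (Sum.inl (nm q) : Obj P) ∈ X :=
  hi.fn hX hS.to_subtype ⟨q, hq⟩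

/-- the relations for `TL` -/
def RTL {Q : Type} (nm : Q → Nm P) : ℕ → P → List (Obj P) → Prop
  | 0, p, l => ∃ y g h : Nm P, l = [Sum.inl y, Sum.inl g, Sum.inl h] ∧ FMem y h p ∧
      ∀ q ≤ p, ∀ n : ℕ, ¬ FMem (pairN (ordN P (n : Ordinal.{0})) y) g q
  | 1, p, l => ∃ y h : Nm P, l = [Sum.inl y, Sum.inl h] ∧ FMem y h p ∧
      ∀ q ≤ p, ∀ q₀ : Q, ¬ FEq y (nm q₀) q
  | 2, p, l => ∃ (S : Set Q) (h : Nm P), l = [Sum.inl (cN nm S), Sum.inl h] ∧ S.Countable ∧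
      FEq h (cN nm S) p
  | 3, p, l => ∃ a b c g : Nm P, l = [Sum.inl (pairN a (pairN b c)), Sum.inl g] ∧
      FMem (pairN a b) g p ∧ FMem (pairN a c) g p ∧ ∀ q ≤ p, ¬ FEq b c q
  | _, _, _ => False

/-- the construction below a condition -/
theorem TL_core (hσ : SigmaClosed P) {Q : Type} {nm : Q → Nm P} {g h : Nm P} {p : P}
    (ha : ∀ q ≤ p, ∀ y, FMem y h q → ∃ r ≤ q, ∃ n : ℕ,
      FMem (pairN (ordN P (n : Ordinal.{0})) y) g r)
    (hb : ∀ q ≤ p, ∀ y, FMem y h q → ∃ r ≤ q, ∃ q₀ : Q, FEq y (nm q₀) r)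
    (hc : ∀ q ≤ p, ∀ a b c, FMem (pairN a b) g q → FMem (pairN a c) g q → FEq b c q) :
    ∃ q ≤ p, ∃ S : Set Q, S.Countable ∧ FEq h (cN nm S) q := by
  classical
  let A : ℕ → P → P → Q → Prop := fun n s r q₀ => r ≤ s ∧
    FMem (pairN (ordN P (n : Ordinal.{0})) (nm q₀)) g r ∧ FMem (nm q₀) h r
  let stp : ℕ → P → P := fun n s => if hA : ∃ x : P × Q, A n s x.1 x.2 then hA.choose.1 else s
  let s : ℕ → P := fun n => Nat.rec p stp n
  have hs0 : s 0 = p := rfl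
  have hs : ∀ n : ℕ, s (n + 1) = stp n (s n) := fun n => rfl
  have hst1 : ∀ (n : ℕ) (s : P) (hA : ∃ x : P × Q, A n s x.1 x.2), stp n s = hA.choose.1 :=
    fun n s hA => dif_pos hA
  have hst2 : ∀ (n : ℕ) (s : P), (¬ ∃ x : P × Q, A n s x.1 x.2) → stp n s = s :=
    fun n s hA => dif_neg hA
  have hanti : Antitone s := antitone_nat_of_succ_le fun n => by
    rw [hs]
    by_cases hA : ∃ x : P × Q, A n (s n) x.1 x.2
    · rw [hst1 _ _ hA]
      exact hA.choose_spec.1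
    · rw [hst2 _ _ hA]
  obtain ⟨q, hq⟩ := hσ s hanti
  let S : Set Q := {q₀ | ∃ n, ∃ hA : (∃ x : P × Q, A n (s n) x.1 x.2), hA.choose.2 = q₀}
  have hS : S.Countable := by
    refine Set.Countable.mono (s₂ := ⋃ n : ℕ, {q₀ | ∃ hA : (∃ x : P × Q, A n (s n) x.1 x.2),
      hA.choose.2 = q₀}) ?_ ?_
    · rintro q₀ ⟨n, hn⟩
      exact Set.mem_iUnion.2 ⟨n, hn⟩
    · refine Set.countable_iUnion fun n => ?_
      refine Set.Subsingleton.countable ?_
      rintro a ⟨hA, rfl⟩ b ⟨hB, rfl⟩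
      rfl
  refine ⟨q, hq 0, S, hS, ?_⟩
  refine FEq_ext ?_ ?_
  · intro i t ht hti
    refine FMem.dense fun t' ht' => ?_
    have h1 : FMem (h.fn i) h t' := FMem.of_fn i (ht'.trans hti)
    have htp : t' ≤ p := ht'.trans (ht.trans (hq 0))
    obtain ⟨r₁, hr₁, q₀, h2⟩ := hb t' htp _ h1
    obtain ⟨r₂, hr₂, n, h3⟩ := ha r₁ (hr₁.trans htp) _ (h1.mono hr₁)
    have h4 : FEq (h.fn i) (nm q₀) r₂ := h2.mono hr₂
    have h5 : FMem (pairN (ordN P (n : Ordinal.{0})) (nm q₀)) g r₂ :=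
      h3.congr_left (FEq_pairN (FEq.refl _ _) h4)
    have h6 : FMem (nm q₀) h r₂ := (h1.mono (hr₂.trans hr₁)).congr_left h4
    have hr₂q : r₂ ≤ q := hr₂.trans (hr₁.trans (ht'.trans ht))
    have hA : ∃ x : P × Q, A n (s n) x.1 x.2 := ⟨(r₂, q₀), hr₂q.trans (hq n), h5, h6⟩
    have h7 := hA.choose_spec
    have h8 : r₂ ≤ hA.choose.1 := by
      have := hr₂q.trans (hq (n + 1))
      rwa [hs, hst1 _ _ hA] at this
    have h9 : FEq (nm q₀) (nm hA.choose.2) r₂ :=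
      hc r₂ (hr₂q.trans (hq 0)) _ _ _ h5 (h7.2.1.mono h8)
    refine ⟨r₂, hr₂.trans hr₁, ?_⟩
    have h10 : FMem (nm hA.choose.2) (cN nm S) r₂ :=
      FMem.of_fn (y := cN nm S) ⟨hA.choose.2, n, hA, rfl⟩ le_top
    exact h10.congr_left (h4.trans h9).symm
  · rintro ⟨q₀, n, hA, rfl⟩ t ht -
    have h7 := hA.choose_spec
    have h8 : t ≤ hA.choose.1 := by
      have := ht.trans (hq (n + 1))
      rwa [hs, hst1 _ _ hA] at this
    exact h7.2.2.mono h8

/-- **Countable sets of objects of the ground model belong to the ground model.** -/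
theorem TL {Q : Type} (nm : Q → Nm P) (hσ : SigmaClosed P) (h : Basic X G) (hc : Clos X)
    (hR : ∀ k, GenR X G (RTL nm k)) {z : ZFSet.{0}} (hzM : z ∈ Mod X G) (hz : Ctb (Mod X G) z)
    (hQ : ∀ a ∈ z, ∃ q, (Sum.inl (nm q) : Obj P) ∈ X ∧ val X G (nm q) = a) :
    ∃ S : Set Q, S.Countable ∧ (Sum.inl (cN nm S) : Obj P) ∈ X ∧ val X G (cN nm S) = z := by
  obtain ⟨x, hx, rfl⟩ := hzM
  obtain ⟨f, ⟨g, hg, rfl⟩, hf1, hf2⟩ := hz
  obtain ⟨p0, hp0, h0⟩ := gen_no (hR 0) (l := [Sum.inl g, Sum.inl x]) (lcX hg (l1X hx)) (by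
    rintro p hp _ hy ⟨y, g', x', he, h1, h2⟩
    simp only [List.cons.injEq, Sum.inl.injEq, and_true] at he
    obtain ⟨rfl, rfl, rfl⟩ := he
    obtain ⟨n, hn, h3⟩ := hf2 _ ((h.mem_iff hy hx).2 ⟨p, hp, h1⟩)
    rw [Ordinal.mem_toZFSet_iff] at hn
    obtain ⟨b, hb, rfl⟩ := hn
    obtain ⟨n, rfl⟩ := lt_omega0.1 hb
    rw [← val_nat h.filt hc, ← val_pairN h.filt hc (natX hc n) hy] at h3
    obtain ⟨q, hq, h4⟩ := (h.mem_iff (hc.pair (natX hc n) hy) hg).1 h3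
    obtain ⟨r, hr, h5, h6⟩ := h.filt.compat hp hq
    exact h2 r h5 n (h4.mono h6))
  obtain ⟨p1, hp1, h1⟩ := gen_no (hR 1) (l := [Sum.inl x]) (l1X hx) (by
    rintro p hp _ hy ⟨y, x', he, h1, h2⟩
    simp only [List.cons.injEq, Sum.inl.injEq, and_true] at he
    obtain ⟨rfl, rfl⟩ := he
    obtain ⟨q₀, hq₀, h3⟩ := hQ _ ((h.mem_iff hy hx).2 ⟨p, hp, h1⟩)
    obtain ⟨q, hq, h4⟩ := (h.eq_iff hy hq₀).1 h3.symm
    obtain ⟨r, hr, h5, h6⟩ := h.filt.compat hp hq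
    exact h2 r h5 q₀ (h4.mono h6))
  obtain ⟨p3, hp3, h3⟩ := gen_no (hR 3) (l := [Sum.inl g]) (l1X hg) (by
    rintro p hp _ hy ⟨a, b, c, g', he, h1, h2, h3⟩
    simp only [List.cons.injEq, Sum.inl.injEq, and_true] at he
    obtain ⟨rfl, rfl⟩ := he
    have ha := hc.fst _ _ hy
    have hb := hc.fst _ _ (hc.snd _ _ hy)
    have hc' := hc.snd _ _ (hc.snd _ _ hy)
    have e1 := (h.mem_iff (hc.pair ha hb) hg).2 ⟨p, hp, h1⟩
    have e2 := (h.mem_iff (hc.pair ha hc') hg).2 ⟨p, hp, h2⟩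
    rw [val_pairN h.filt hc ha hb] at e1
    rw [val_pairN h.filt hc ha hc'] at e2
    obtain ⟨q, hq, h4⟩ := (h.eq_iff hb hc').1 (hf1 _ _ _ e1 e2)
    obtain ⟨r, hr, h5, h6⟩ := h.filt.compat hp hq
    exact h3 r h5 (h4.mono h6))
  obtain ⟨q1, hq1, e1, e2⟩ := h.filt.compat hp0 hp1
  obtain ⟨q2, hq2, e3, e4⟩ := h.filt.compat hq1 hp3
  obtain ⟨p, hp, y, hy, S, x', he, hS, h4⟩ := gen_yes h.filt (hR 2) (l := [Sum.inl x]) (l1X hx)
    hq2 (by
      intro q hq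
      obtain ⟨r, hr, S, hS, h4⟩ := TL_core hσ (nm := nm) (g := g) (h := x) (p := q) (by
        intro r hr y h5
        by_contra hcon
        push Not at hcon
        exact h0 r (hr.trans (hq.trans (e3.trans e1))) (Sum.inl y) ⟨y, g, x, rfl, h5, hcon⟩) (by
        intro r hr y h5
        by_contra hcon
        push Not at hcon
        exact h1 r (hr.trans (hq.trans (e3.trans e2))) (Sum.inl y) ⟨y, x, rfl, h5, hcon⟩) (by
        intro r hr a b c h5 h6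
        refine FEq.dense fun s hs => ?_
        by_contra hcon
        push Not at hcon
        exact h3 s (hs.trans (hr.trans (hq.trans e4))) (Sum.inl (pairN a (pairN b c)))
          ⟨a, b, c, g, rfl, h5.mono hs, h6.mono hs, hcon⟩)
      exact ⟨r, hr, Sum.inl (cN nm S), S, x, rfl, hS, h4⟩)
  simp only [List.cons.injEq, Sum.inl.injEq, and_true] at he
  obtain ⟨rfl, rfl⟩ := he
  exact ⟨S, hS, hy, ((h.eq_iff hx hy).2 ⟨p, hp, h4⟩).symm⟩

end Pool.Agent.Helper23.PI
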