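import Pool.Agent.Helper23.PI.TL

/-!
# Transfer: names of the structures
-/

open Cardinal Ordinal Set Pool.Agent.Helper96.Fc

set_option linter.unusedSectionVars false

namespace Pool.Agent.Helper23.PI

variable {P : Type} [PartialOrder P] [OrderTop P] {E : Type}

/-- number of an element -/
noncomputable def num (u : E) : Ordinal.{0} := typein (WellOrderingRel : E → E → Prop) u

theorem num_inj {u v : E} (h : num u = num v) : u = v := typein_injective _ h

/-- name of an element of the ground structure -/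
noncomputable def eN (P : Type) [PartialOrder P] [OrderTop P] (u : E) : Nm P := ordN P (num u)

/-- name of a pair -/
noncomputable def prN (P : Type) [PartialOrder P] [OrderTop P] (x : E × E) : Nm P :=
  pairN (eN P x.1) (eN P x.2)

/-- name of a set of pairs -/
noncomputable def posN (P : Type) [PartialOrder P] [OrderTop P] (f : Set (E × E)) : Nm P :=
  cN (prN P) f

/-- name of a subset -/
noncomputable def stN (P : Type) [PartialOrder P] [OrderTop P] (S : Set E) : Nm P := cN (eN P) S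

/-- the countable sets of pairs -/
abbrev CP (E : Type) : Type := {f : Set (E × E) // f.Countable}

/-- name of a countable set of pairs -/
noncomputable def cpN (P : Type) [PartialOrder P] [OrderTop P] (f : CP E) : Nm P := posN P f.1

/-- name of a family -/
noncomputable def fmN (P : Type) [PartialOrder P] [OrderTop P] (C : Set (CP E)) : Nm P :=
  cN (cpN P) C

/-- name of the universe -/
noncomputable def uN (H : E → Set P) : Nm P :=
  Nm.mk {x : E × P // x.2 ∈ H x.1} (fun x => eN P x.1.1) (fun x => x.1.2)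

/-- name of the binary relation -/
noncomputable def lN (l : E → E → Prop) (H : E → Set P) : Nm P :=
  Nm.mk {x : (E × E) × P // l x.1.1 x.1.2 ∧ x.2 ∈ H x.1.1 ∧ x.2 ∈ H x.1.2}
    (fun x => prN P x.1.1) (fun x => x.1.2)

/-- name of the ternary relation -/
noncomputable def tN (t : E → E → E → Prop) (H : E → Set P) : Nm P :=
  Nm.mk {x : (E × (E × E)) × P // t x.1.1 x.1.2.1 x.1.2.2 ∧ x.2 ∈ H x.1.1 ∧ x.2 ∈ H x.1.2.1 ∧
    x.2 ∈ H x.1.2.2} (fun x => pairN (eN P x.1.1.1) (prN P x.1.1.2)) (fun x => x.1.2)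

theorem eN_injective : Function.Injective (eN P : E → Nm P) := fun _ _ h => num_inj (ordN_inj' h)

theorem prN_injective : Function.Injective (prN P : E × E → Nm P) := by
  rintro ⟨a, b⟩ ⟨c, d⟩ h
  obtain ⟨h1, h2⟩ := pairN_inj h
  exact Prod.ext (eN_injective h1) (eN_injective h2)

theorem posN_injective : Function.Injective (posN P : Set (E × E) → Nm P) :=
  cN_inj prN_injective

theorem stN_injective : Function.Injective (stN P : Set E → Nm P) := cN_inj eN_injective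

theorem cpN_injective : Function.Injective (cpN P : CP E → Nm P) :=
  fun _ _ h => Subtype.ext (posN_injective h)

theorem fmN_injective : Function.Injective (fmN P : Set (CP E) → Nm P) := cN_inj cpN_injective

variable {X : Set (Obj P)} {G : Set P}

/-- the valuation of a structure -/
noncomputable def strN (X : Set (Obj P)) (G : Set P) (l : E → E → Prop) (t : E → E → E → Prop)
    (H : E → Set P) : Str := ⟨val X G (uN H), val X G (lN l H), val X G (tN t H)⟩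

theorem val_e_inj (h : Basic X G) {u v : E} (hu : (Sum.inl (eN P u) : Obj P) ∈ X)
    (hv : (Sum.inl (eN P v) : Obj P) ∈ X) (he : val X G (eN P u) = val X G (eN P v)) : u = v :=
  num_inj (val_ordN_inj h hu hv he)

theorem mem_u (_ : Basic X G) {H : E → Set P} {z : ZFSet.{0}} : z ∈ val X G (uN H) ↔
    ∃ u, (∃ p ∈ G, p ∈ H u) ∧ (Sum.inl (eN P u) : Obj P) ∈ X ∧ val X G (eN P u) = z := by
  rw [mem_val]
  constructor
  · rintro ⟨⟨⟨u, p⟩, hu⟩, h1, h2, h3⟩
    exact ⟨u, ⟨p, h1, hu⟩, h2, h3⟩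
  · rintro ⟨u, ⟨p, hp, hu⟩, h2, h3⟩
    exact ⟨⟨(u, p), hu⟩, hp, h2, h3⟩

theorem mem_u' (h : Basic X G) {H : E → Set P} {u : E} (hu : (Sum.inl (eN P u) : Obj P) ∈ X) :
    val X G (eN P u) ∈ val X G (uN H) ↔ ∃ p ∈ G, p ∈ H u := by
  rw [mem_u h]
  constructor
  · rintro ⟨v, h1, h2, h3⟩
    rwa [val_e_inj h h2 hu h3] at h1
  · intro h1
    exact ⟨u, h1, hu, rfl⟩

theorem val_pr (h : Basic X G) (hc : Clos X) {x : E × E} (hx : (Sum.inl (prN P x) : Obj P) ∈ X) :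
    val X G (prN P x) = ZFSet.pair (val X G (eN P x.1)) (val X G (eN P x.2)) :=
  val_pairN h.filt hc (hc.fst _ _ hx) (hc.snd _ _ hx)

theorem mem_l (h : Basic X G) (hc : Clos X) {l : E → E → Prop} {H : E → Set P}
    (hH : ∀ u, RegSet (H u)) {u v : E}
    (hu : (Sum.inl (eN P u) : Obj P) ∈ X) (hv : (Sum.inl (eN P v) : Obj P) ∈ X) :
    ZFSet.pair (val X G (eN P u)) (val X G (eN P v)) ∈ val X G (lN l H) ↔
      l u v ∧ (∃ p ∈ G, p ∈ H u) ∧ ∃ p ∈ G, p ∈ H v := by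
  rw [mem_val]
  constructor
  · rintro ⟨⟨⟨⟨u', v'⟩, p⟩, h1, h2, h3⟩, h4, h5, h6⟩
    change (Sum.inl (prN P (u', v')) : Obj P) ∈ X at h5
    change val X G (prN P (u', v')) = _ at h6
    rw [val_pr h hc h5] at h6
    obtain ⟨h7, h8⟩ := ZFSet.pair_injective h6
    have e1 := val_e_inj h (hc.fst _ _ h5) hu h7
    have e2 := val_e_inj h (hc.snd _ _ h5) hv h8
    dsimp only at e1 e2 h1 h2 h3
    subst e1
    subst e2
    exact ⟨h1, ⟨p, h4, h2⟩, p, h4, h3⟩
  · rintro ⟨h1, ⟨p, hp, h2⟩, q, hq, h3⟩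
    obtain ⟨r, hr, h4, h5⟩ := h.filt.compat hp hq
    refine ⟨⟨((u, v), r), h1, (hH u).down p h2 r h4, (hH v).down q h3 r h5⟩, hr,
      hc.pair hu hv, val_pairN h.filt hc hu hv⟩

theorem mem_t (h : Basic X G) (hc : Clos X) {t : E → E → E → Prop} {H : E → Set P}
    (hH : ∀ u, RegSet (H u)) {u v w : E}
    (hu : (Sum.inl (eN P u) : Obj P) ∈ X) (hv : (Sum.inl (eN P v) : Obj P) ∈ X)
    (hw : (Sum.inl (eN P w) : Obj P) ∈ X) :
    ZFSet.pair (val X G (eN P u)) (ZFSet.pair (val X G (eN P v)) (val X G (eN P w))) ∈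
        val X G (tN t H) ↔
      t u v w ∧ (∃ p ∈ G, p ∈ H u) ∧ (∃ p ∈ G, p ∈ H v) ∧ ∃ p ∈ G, p ∈ H w := by
  rw [mem_val]
  constructor
  · rintro ⟨⟨⟨⟨u', v', w'⟩, p⟩, h1, h2, h3, h3'⟩, h4, h5, h6⟩
    change (Sum.inl (pairN (eN P u') (prN P (v', w'))) : Obj P) ∈ X at h5
    change val X G (pairN (eN P u') (prN P (v', w'))) = _ at h6
    have h50 := hc.snd _ _ h5
    rw [val_pairN h.filt hc (hc.fst _ _ h5) h50, val_pr h hc h50] at h6
    obtain ⟨h7, h8⟩ := ZFSet.pair_injective h6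
    obtain ⟨h8, h9⟩ := ZFSet.pair_injective h8
    have e1 := val_e_inj h (hc.fst _ _ h5) hu h7
    have e2 := val_e_inj h (hc.fst _ _ h50) hv h8
    have e3 := val_e_inj h (hc.snd _ _ h50) hw h9
    dsimp only at e1 e2 e3 h1 h2 h3 h3'
    subst e1
    subst e2
    subst e3
    exact ⟨h1, ⟨p, h4, h2⟩, ⟨p, h4, h3⟩, p, h4, h3'⟩
  · rintro ⟨h1, ⟨p, hp, h2⟩, ⟨q, hq, h3⟩, s, hs, h3'⟩
    obtain ⟨r, hr, h4, h5⟩ := h.filt.compat hp hq
    obtain ⟨r', hr', h6, h7⟩ := h.filt.compat hr hs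
    refine ⟨⟨((u, v, w), r'), h1, (hH u).down p h2 r' (h6.trans h4),
      (hH v).down q h3 r' (h6.trans h5), (hH w).down s h3' r' h7⟩, hr',
      hc.pair hu (hc.pair hv hw), ?_⟩
    change val X G (pairN (eN P u) (pairN (eN P v) (eN P w))) = _
    rw [val_pairN h.filt hc hu (hc.pair hv hw), val_pairN h.filt hc hv hw]

theorem isStr_strN (h : Basic X G) (hc : Clos X) {l : E → E → Prop} {t : E → E → E → Prop}
    {H : E → Set P} (hu : (Sum.inl (uN H) : Obj P) ∈ X) (hl : (Sum.inl (lN l H) : Obj P) ∈ X)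
    (ht : (Sum.inl (tN t H) : Obj P) ∈ X) : IsStr (Mod X G) (strN X G l t H) where
  a_mem := mem_Mod hu
  l_mem := mem_Mod hl
  t_mem := mem_Mod ht
  l_sub := by
    intro z hz
    obtain ⟨⟨⟨⟨u', v'⟩, p⟩, h1, h2, h3⟩, h4, h5, h6⟩ := mem_val.1 hz
    change (Sum.inl (prN P (u', v')) : Obj P) ∈ X at h5
    change val X G (prN P (u', v')) = _ at h6
    refine ⟨_, (mem_u' h (hc.fst _ _ h5)).2 ⟨p, h4, h2⟩, _,
      (mem_u' h (hc.snd _ _ h5)).2 ⟨p, h4, h3⟩, ?_⟩
    rw [← h6, val_pr h hc h5]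
  t_sub := by
    intro z hz
    obtain ⟨⟨⟨⟨u', v', w'⟩, p⟩, h1, h2, h3, h3'⟩, h4, h5, h6⟩ := mem_val.1 hz
    change (Sum.inl (pairN (eN P u') (prN P (v', w'))) : Obj P) ∈ X at h5
    change val X G (pairN (eN P u') (prN P (v', w'))) = _ at h6
    have h50 := hc.snd _ _ h5
    refine ⟨_, (mem_u' h (hc.fst _ _ h5)).2 ⟨p, h4, h2⟩, _,
      (mem_u' h (hc.fst _ _ h50)).2 ⟨p, h4, h3⟩, _,
      (mem_u' h (hc.snd _ _ h50)).2 ⟨p, h4, h3'⟩, ?_⟩
    rw [← h6, val_pairN h.filt hc (hc.fst _ _ h5) h50, val_pr h hc h50]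

/-- membership in the name of a set of pairs -/
theorem mem_pos (h : Basic X G) (hc : Clos X) {f : Set (E × E)} {z : ZFSet.{0}} :
    z ∈ val X G (posN P f) ↔ ∃ u v, (u, v) ∈ f ∧ (Sum.inl (eN P u) : Obj P) ∈ X ∧
      (Sum.inl (eN P v) : Obj P) ∈ X ∧ z = ZFSet.pair (val X G (eN P u)) (val X G (eN P v)) := by
  rw [posN, mem_cN h.filt]
  constructor
  · rintro ⟨⟨u, v⟩, h1, h2, rfl⟩
    exact ⟨u, v, h1, hc.fst _ _ h2, hc.snd _ _ h2, val_pr h hc h2⟩
  · rintro ⟨u, v, h1, h2, h3, rfl⟩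
    exact ⟨(u, v), h1, hc.pair h2 h3, val_pairN h.filt hc h2 h3⟩

theorem mem_pos_iff (h : Basic X G) (hc : Clos X) {f : Set (E × E)} {u v : E}
    (hu : (Sum.inl (eN P u) : Obj P) ∈ X) (hv : (Sum.inl (eN P v) : Obj P) ∈ X) :
    ZFSet.pair (val X G (eN P u)) (val X G (eN P v)) ∈ val X G (posN P f) ↔ (u, v) ∈ f := by
  rw [mem_pos h hc]
  constructor
  · rintro ⟨u', v', h1, h2, h3, h4⟩
    obtain ⟨h5, h6⟩ := ZFSet.pair_injective h4
    rwa [val_e_inj h hu h2 h5, val_e_inj h hv h3 h6]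
  · intro h1
    exact ⟨u, v, h1, hu, hv, rfl⟩

theorem pos_X (hc : Clos X) (hi : CI X) {f : Set (E × E)} (hf : f.Countable)
    (hX : (Sum.inl (posN P f) : Obj P) ∈ X) {u v : E} (huv : (u, v) ∈ f) :
    (Sum.inl (eN P u) : Obj P) ∈ X ∧ (Sum.inl (eN P v) : Obj P) ∈ X := by
  have h1 : (Sum.inl (prN P (u, v)) : Obj P) ∈ X := hi.cN hf hX huv
  exact ⟨hc.fst _ _ h1, hc.snd _ _ h1⟩

theorem pos_sub (h : Basic X G) (hc : Clos X) (hi : CI X) {f g : Set (E × E)}
    (hf : f.Countable) (hX : (Sum.inl (posN P f) : Obj P) ∈ X) :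
    val X G (posN P f) ⊆ val X G (posN P g) ↔ f ⊆ g := by
  constructor
  · rintro h1 ⟨u, v⟩ huv
    obtain ⟨h2, h3⟩ := pos_X hc hi hf hX huv
    exact (mem_pos_iff h hc h2 h3).1 (h1 ((mem_pos_iff h hc h2 h3).2 huv))
  · intro h1 z hz
    obtain ⟨u, v, h2, h3, h4, rfl⟩ := (mem_pos h hc).1 hz
    exact (mem_pos_iff h hc h3 h4).2 (h1 h2)

/-- countable partial isomorphisms of the extension have ground names -/
theorem piso_name (hσ : SigmaClosed P) (h : Basic X G) (hc : Clos X)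
    (hRP : ∀ k, GenR X G (RTL (prN P : E × E → Nm P) k)) {l : E → E → Prop}
    {t : E → E → E → Prop} {H₁ H₂ : E → Set P} {z : ZFSet.{0}}
    (hz : PIso (Mod X G) (strN X G l t H₁) (strN X G l t H₂) z) :
    ∃ f : Set (E × E), f.Countable ∧ (Sum.inl (posN P f) : Obj P) ∈ X ∧
      val X G (posN P f) = z := by
  refine TL (prN P) hσ h hc hRP hz.mem hz.ctb ?_
  intro a ha
  obtain ⟨x, hx, y, hy, rfl⟩ := hz.sub a ha
  obtain ⟨u, -, hu, rfl⟩ := (mem_u h).1 hx
  obtain ⟨v, -, hv, rfl⟩ := (mem_u h).1 hy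
  exact ⟨(u, v), hc.pair hu hv, val_pairN h.filt hc hu hv⟩

end Pool.Agent.Helper23.PI
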